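import Mathlib

/-!
The inverse of an injective holomorphic function on an open set is holomorphic, and the derivative
of an injective holomorphic function does not vanish.
-/

open Set Filter Topology Metric

namespace Pool.Agent.HolInv

variable {U : Set ℂ} {g : ℂ → ℂ}

lemma nhds_le_map (hU : IsOpen U) (hg : DifferentiableOn ℂ g U) (hinj : InjOn g U)
    {z₀ : ℂ} (hz₀ : z₀ ∈ U) : 𝓝 (g z₀) ≤ map g (𝓝 z₀) := by
  have han : AnalyticAt ℂ g z₀ := hg.analyticAt (hU.mem_nhds hz₀)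
  rcases han.eventually_constant_or_nhds_le_map_nhds with h | h
  · exfalso
    have h1 : ∀ᶠ z in 𝓝[≠] z₀, g z = g z₀ ∧ z ∈ U := by
      refine (h.and (hU.mem_nhds hz₀)).filter_mono nhdsWithin_le_nhds
    have h2 : ∀ᶠ z in 𝓝[≠] z₀, z ≠ z₀ := eventually_mem_nhdsWithin
    obtain ⟨z, hz1, hz2⟩ := (h1.and h2).exists
    exact hz2 (hinj hz1.2 hz₀ hz1.1)
  · exact h

lemma image_mem_nhds (hU : IsOpen U) (hg : DifferentiableOn ℂ g U) (hinj : InjOn g U)
    {z₀ : ℂ} (hz₀ : z₀ ∈ U) {s : Set ℂ} (hs : s ∈ 𝓝 z₀) : g '' s ∈ 𝓝 (g z₀) :=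
  nhds_le_map hU hg hinj hz₀ (image_mem_map hs)

theorem isOpen_image (hU : IsOpen U) (hg : DifferentiableOn ℂ g U) (hinj : InjOn g U) :
    IsOpen (g '' U) := by
  rw [isOpen_iff_mem_nhds]
  rintro _ ⟨z, hz, rfl⟩
  exact image_mem_nhds hU hg hinj hz (hU.mem_nhds hz)

lemma continuousAt_inv (hU : IsOpen U) (hg : DifferentiableOn ℂ g U) (hinj : InjOn g U)
    {z₀ : ℂ} (hz₀ : z₀ ∈ U) : ContinuousAt (Function.invFunOn g U) (g z₀) := by
  have hk : ∀ z ∈ U, Function.invFunOn g U (g z) = z := hinj.leftInvOn_invFunOn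
  intro V hV
  rw [hk z₀ hz₀] at hV
  have h1 : g '' (V ∩ U) ∈ 𝓝 (g z₀) :=
    image_mem_nhds hU hg hinj hz₀ (inter_mem hV (hU.mem_nhds hz₀))
  rw [mem_map]
  refine mem_of_superset h1 ?_
  rintro _ ⟨z, ⟨hzV, hzU⟩, rfl⟩
  change Function.invFunOn g U (g z) ∈ V
  rw [hk z hzU]
  exact hzV

lemma hasDerivAt_inv (hU : IsOpen U) (hg : DifferentiableOn ℂ g U) (hinj : InjOn g U)
    {z₀ : ℂ} (hz₀ : z₀ ∈ U) (hd : deriv g z₀ ≠ 0) :
    HasDerivAt (Function.invFunOn g U) (deriv g z₀)⁻¹ (g z₀) := by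
  have hk : ∀ z ∈ U, Function.invFunOn g U (g z) = z := hinj.leftInvOn_invFunOn
  have hdg : HasDerivAt g (deriv g z₀) (Function.invFunOn g U (g z₀)) := by
    rw [hk z₀ hz₀]
    exact (hg.differentiableAt (hU.mem_nhds hz₀)).hasDerivAt
  refine HasDerivAt.of_local_left_inverse (continuousAt_inv hU hg hinj hz₀) hdg hd ?_
  have h1 : g '' U ∈ 𝓝 (g z₀) := image_mem_nhds hU hg hinj hz₀ (hU.mem_nhds hz₀)
  filter_upwards [h1]
  rintro _ ⟨z, hz, rfl⟩
  rw [hk z hz]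

lemma eventually_deriv_ne (hU : IsOpen U) (hg : DifferentiableOn ℂ g U) (hinj : InjOn g U)
    {z₀ : ℂ} (hz₀ : z₀ ∈ U) : ∀ᶠ z in 𝓝[≠] z₀, deriv g z ≠ 0 := by
  have han : AnalyticAt ℂ g z₀ := hg.analyticAt (hU.mem_nhds hz₀)
  rcases han.deriv.eventually_eq_zero_or_eventually_ne_zero with h | h
  · exfalso
    have h1 : ∀ᶠ z in 𝓝 z₀, deriv g z = 0 ∧ z ∈ U := h.and (hU.mem_nhds hz₀)
    obtain ⟨ε, hε, hball⟩ := Metric.eventually_nhds_iff_ball.1 h1
    have hconst : ∀ z ∈ ball z₀ ε, g z = g z₀ := by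
      intro z hz
      refine (isOpen_ball (x := z₀) (ε := ε)).is_const_of_deriv_eq_zero
        (convex_ball z₀ ε).isPreconnected ?_ ?_ hz (mem_ball_self hε)
      · intro x hx
        exact (hg.differentiableAt (hU.mem_nhds (hball x hx).2)).differentiableWithinAt
      · intro x hx
        exact (hball x hx).1
    have h2 : ∀ᶠ z in 𝓝[≠] z₀, z ∈ ball z₀ ε :=
      nhdsWithin_le_nhds (ball_mem_nhds _ hε)
    have h3 : ∀ᶠ z in 𝓝[≠] z₀, z ≠ z₀ := eventually_mem_nhdsWithin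
    obtain ⟨z, hz1, hz2⟩ := (h2.and h3).exists
    exact hz2 (hinj (hball z hz1).2 hz₀ (hconst z hz1))
  · exact h

/-- The inverse of an injective holomorphic function is holomorphic. -/
theorem differentiableAt_inv (hU : IsOpen U) (hg : DifferentiableOn ℂ g U) (hinj : InjOn g U)
    {z₀ : ℂ} (hz₀ : z₀ ∈ U) : DifferentiableAt ℂ (Function.invFunOn g U) (g z₀) := by
  have hk : ∀ z ∈ U, Function.invFunOn g U (g z) = z := hinj.leftInvOn_invFunOn
  have h1 := eventually_deriv_ne hU hg hinj hz₀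
  rw [eventually_nhdsWithin_iff] at h1
  obtain ⟨s, hs, hsub⟩ : ∃ s ∈ 𝓝 z₀, ∀ z ∈ s, (z ∈ ({z₀}ᶜ : Set ℂ) → deriv g z ≠ 0) ∧ z ∈ U :=
    ⟨_, h1.and (hU.mem_nhds hz₀), fun z hz => hz⟩
  have hgs : g '' s ∈ 𝓝 (g z₀) := image_mem_nhds hU hg hinj hz₀ hs
  have hd : DifferentiableOn ℂ (Function.invFunOn g U) (g '' s) := by
    rw [← Complex.differentiableOn_compl_singleton_and_continuousAt_iff hgs]
    refine ⟨?_, continuousAt_inv hU hg hinj hz₀⟩
    rintro _ ⟨⟨z, hz, rfl⟩, hne⟩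
    have hz0 : z ∈ ({z₀}ᶜ : Set ℂ) := fun h => hne (by rw [mem_singleton_iff] at h ⊢; rw [h])
    exact (hasDerivAt_inv hU hg hinj (hsub z hz).2
      ((hsub z hz).1 hz0)).differentiableAt.differentiableWithinAt
  exact hd.differentiableAt hgs

theorem differentiableOn_inv (hU : IsOpen U) (hg : DifferentiableOn ℂ g U) (hinj : InjOn g U) :
    DifferentiableOn ℂ (Function.invFunOn g U) (g '' U) := by
  rintro _ ⟨z, hz, rfl⟩
  exact (differentiableAt_inv hU hg hinj hz).differentiableWithinAt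

/-- The derivative of an injective holomorphic function does not vanish. -/
theorem deriv_ne_zero (hU : IsOpen U) (hg : DifferentiableOn ℂ g U) (hinj : InjOn g U)
    {z₀ : ℂ} (hz₀ : z₀ ∈ U) : deriv g z₀ ≠ 0 := by
  have hk : ∀ z ∈ U, Function.invFunOn g U (g z) = z := hinj.leftInvOn_invFunOn
  have h1 := (differentiableAt_inv hU hg hinj hz₀).hasDerivAt
  have h2 := (hg.differentiableAt (hU.mem_nhds hz₀)).hasDerivAt
  have h3 := h1.comp z₀ h2
  have h4 : HasDerivAt (Function.invFunOn g U ∘ g) 1 z₀ := by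
    refine (hasDerivAt_id z₀).congr_of_eventuallyEq ?_
    filter_upwards [hU.mem_nhds hz₀] with z hz
    exact hk z hz
  have h5 := h3.unique h4
  intro h0
  rw [h0, mul_zero] at h5
  exact zero_ne_one h5

end Pool.Agent.HolInv
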