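import Mathlib

/-!
# The Riemann mapping theorem

The main statement is `Pool.Agent.RMT.riemann_mapping`.  Along the way we prove

* `Pool.Agent.RMT.tendstoLocallyUniformlyOn_of_pointwise`: pointwise convergence of uniformly
  bounded holomorphic functions along a filter is locally uniform;
* `Pool.Agent.RMT.exists_limit` (Montel): along an ultrafilter on uniformly bounded holomorphic
  functions there is a locally uniform limit;
* `Pool.Agent.RMT.injOn_of_tendsto` (Hurwitz): a nonconstant locally uniform limit of injective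
  holomorphic functions is injective.
-/

set_option autoImplicit false

open Function Filter Metric Set Complex
open scoped Pointwise Topology

namespace Pool.Agent.RMT

/-! ### Step 1 and 2: an injective map into the unit disc (after Y. Kudryashov, Mathlib) -/

/-- If `U` is an open simply connected subset of `ℂ` that is not the whole `ℂ`,
then there is an injective function `f : ℂ → ℂ` such that `f '' U` is not dense and `f` has nonzero
derivative on `U`. -/
theorem exists_injective_not_dense_image_deriv_ne_zero {U : Set ℂ} (hUo : IsOpen U)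
    (hUc : IsSimplyConnected U) (hU : U ≠ univ) :
    ∃ f : ℂ → ℂ, Injective f ∧ ¬Dense (f '' U) ∧ ∀ z ∈ U, deriv f z ≠ 0 := by
  wlog hU₀ : 0 ∉ U
  · rw [ne_univ_iff_exists_notMem] at hU
    rcases hU with ⟨a, ha⟩
    specialize this (hUo.vadd (-a)) (by simpa) (by simp [hU])
      (by simpa [mem_vadd_set_iff_neg_vadd_mem])
    rcases this with ⟨f, hf_inj, hf_dense, hdf⟩
    refine ⟨f ∘ (-a + ·), hf_inj.comp (add_right_injective (-a)), ?_, fun z hz ↦ ?_⟩
    · simpa only [← image_vadd, Set.image_image] using! hf_dense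
    · simpa [Function.comp_def, deriv_comp_const_add] using hdf (-a + z) (mapsTo_image _ _ hz)
  rcases exists_continuousOn_pow_eq hUc hUo continuousOn_id (by rwa [image_id]) two_ne_zero
    with ⟨f, hfc, hf_inv⟩
  replace hf_inv : LeftInverse (· ^ 2) f := hf_inv
  have hf₀ : ∀ z ∈ U, f z ≠ 0 := by
    intro z hz hfz
    simpa [hfz, (ne_of_mem_of_not_mem hz hU₀).symm] using hf_inv z
  have hdf : ∀ z ∈ U, HasStrictDerivAt f (2 * f z)⁻¹ z := by
    intro z hz
    apply HasStrictDerivAt.of_local_left_inverse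
    · exact hfc.continuousAt <| hUo.mem_nhds hz
    · simpa using hasStrictDerivAt_pow 2 (f z)
    · simpa using hf₀ z hz
    · exact .of_forall hf_inv
  refine ⟨f, hf_inv.injective, ?_, fun z hz ↦ ?_⟩
  · simp only [Dense, not_forall, mem_closure_iff_frequently, not_frequently]
    rcases hUc.nonempty with ⟨x, hx⟩
    use -f x
    have : f '' U ∈ 𝓝 (f x) := by
      rw [← (hdf x hx).map_nhds_eq (by simpa using hf₀ x hx)]
      exact Filter.image_mem_map <| hUo.mem_nhds hx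
    rw [nhds_neg, eventually_neg]
    filter_upwards [this]
    rintro _ ⟨a, ha, rfl⟩ ⟨b, hb, hab⟩
    obtain rfl : a = b := by
      rw [← hf_inv b, hab]
      simp [hf_inv a]
    refine hf₀ a ha ?_
    linear_combination hab / 2
  · simpa [(hdf z hz).hasDerivAt.deriv] using hf₀ z hz

/-- If `U` is an open simply connected proper subset of `ℂ`, then there is a function which maps `U`
injectively to the unit disc, with nonzero derivative on `U`. -/
lemma exists_mapsTo_unitBall_injOn_deriv_ne_zero {U : Set ℂ} (hUo : IsOpen U)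
    (hUc : IsSimplyConnected U) (hU : U ≠ univ) :
    ∃ f : ℂ → ℂ, MapsTo f U (ball 0 1) ∧ InjOn f U ∧ ∀ z ∈ U, deriv f z ≠ 0 := by
  rcases exists_injective_not_dense_image_deriv_ne_zero hUo hUc hU with ⟨f, hf_inj, hfd, hdf⟩
  obtain ⟨x, ε, hε₀, hε⟩ : ∃ (x : ℂ) (ε : ℝ), 0 < ε ∧ ∀ a ∈ U, ε < dist (f a) x := by
    simpa [Dense, mem_closure_iff_nhds_basis Metric.nhds_basis_closedBall] using hfd
  have hfx : ∀ z ∈ U, f z ≠ x := fun z hz ↦ by simpa using hε₀.trans (hε z hz)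
  use fun z ↦ ε / (f z - x)
  refine ⟨?mapsTo, ?injOn, ?deriv⟩
  case mapsTo =>
    intro z hz
    rw [mem_ball_zero_iff, norm_div, norm_real, Real.norm_of_nonneg hε₀.le, div_lt_one₀]
    · simpa [dist_eq_norm] using hε z hz
    · simpa [sub_eq_zero] using hfx z hz
  case injOn =>
    intro z hz w hw heq
    simpa [div_eq_mul_inv, hε₀.ne', hf_inj.eq_iff] using heq
  case deriv =>
    intro z hz
    have hdz : DifferentiableAt ℂ f z := differentiableAt_of_deriv_ne_zero (hdf z hz)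
    rw [(hasDerivAt_const _ _).fun_div (hdz.hasDerivAt.sub_const _) _ |>.deriv] <;>
      simp [*, ne_of_gt, sub_eq_zero]

/-! ### Equicontinuity and Montel -/

/-- A holomorphic function `f` on `U` with `‖f‖ ≤ M` satisfies a Lipschitz estimate near every
point, with a constant which depends only on `M` and on the point. -/
lemma dist_le_of_mem_ball {U : Set ℂ} {f : ℂ → ℂ} {M r : ℝ} {x y : ℂ} (hr : 0 < r)
    (hball : ball x r ⊆ U) (hf : DifferentiableOn ℂ f U) (hM : ∀ z ∈ U, ‖f z‖ ≤ M)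
    (hy : y ∈ ball x r) : dist (f y) (f x) ≤ 2 * M / r * dist y x := by
  refine Complex.dist_le_div_mul_dist_of_mapsTo_ball (hf.mono hball) ?_ hy
  intro z hz
  rw [mem_closedBall, dist_eq_norm]
  have h1 := hM z (hball hz)
  have h2 := hM x (hball (mem_ball_self hr))
  calc ‖f z - f x‖ ≤ ‖f z‖ + ‖f x‖ := norm_sub_le _ _
    _ ≤ 2 * M := by linarith

/-- Pointwise convergence of uniformly bounded holomorphic functions is locally uniform. -/
lemma tendstoLocallyUniformlyOn_of_pointwise {ι : Type*} {U : Set ℂ} (hU : IsOpen U) {M : ℝ}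
    {φ : Filter ι} [φ.NeBot] {F : ι → ℂ → ℂ}
    (hF : ∀ᶠ n in φ, DifferentiableOn ℂ (F n) U ∧ ∀ z ∈ U, ‖F n z‖ ≤ M) {g : ℂ → ℂ}
    (hg : ∀ x ∈ U, Tendsto (fun n => F n x) φ (𝓝 (g x))) :
    TendstoLocallyUniformlyOn F g φ U := by
  rw [Metric.tendstoLocallyUniformlyOn_iff]
  intro ε hε x hx
  obtain ⟨r, hr, hball⟩ := Metric.isOpen_iff.mp hU x hx
  have hM0 : 0 ≤ M := by
    obtain ⟨n, hn⟩ := hF.exists
    exact (norm_nonneg _).trans (hn.2 x hx)
  -- radius of the small ball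
  obtain ⟨δ, hδ, hδr, hδε⟩ : ∃ δ : ℝ, 0 < δ ∧ δ ≤ r ∧ 2 * M / r * δ ≤ ε / 4 := by
    refine ⟨min r (ε / 4 / (2 * M / r + 1)), ?_, min_le_left _ _, ?_⟩
    · positivity
    · calc 2 * M / r * min r (ε / 4 / (2 * M / r + 1))
          ≤ (2 * M / r + 1) * (ε / 4 / (2 * M / r + 1)) := by
            gcongr
            · linarith
            · exact min_le_right _ _
        _ = ε / 4 := by
            field_simp
  have key : ∀ᶠ n in φ, ∀ y ∈ ball x δ, dist (F n y) (F n x) ≤ ε / 4 := by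
    filter_upwards [hF] with n hn y hy
    have hy' : y ∈ ball x r := ball_subset_ball hδr hy
    refine (dist_le_of_mem_ball hr hball hn.1 hn.2 hy').trans (le_trans ?_ hδε)
    gcongr
    exact (mem_ball.mp hy).le
  have keyg : ∀ y ∈ ball x δ, dist (g y) (g x) ≤ ε / 4 := by
    intro y hy
    have hyU : y ∈ U := hball (ball_subset_ball hδr hy)
    refine le_of_tendsto ((hg y hyU).dist (hg x hx)) ?_
    filter_upwards [key] with n hn using hn y hy
  refine ⟨ball x δ, mem_nhdsWithin_of_mem_nhds (ball_mem_nhds x hδ), ?_⟩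
  have hx' : ∀ᶠ n in φ, dist (F n x) (g x) < ε / 4 :=
    (Metric.tendsto_nhds.mp (hg x hx)) (ε / 4) (by positivity)
  filter_upwards [key, hx'] with n hn hnx y hy
  have h1 := hn y hy
  have h2 := keyg y hy
  calc dist (g y) (F n y) ≤ dist (g y) (g x) + dist (g x) (F n x) + dist (F n x) (F n y) :=
        dist_triangle4 _ _ _ _
    _ < ε := by
        rw [dist_comm (g x), dist_comm (F n x) (F n y)]
        linarith

/-- A form of Montel's theorem: along an ultrafilter, uniformly bounded holomorphic functions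
converge locally uniformly. -/
lemma exists_limit {ι : Type*} {U : Set ℂ} (hU : IsOpen U) {M : ℝ} (φ : Ultrafilter ι)
    {F : ι → ℂ → ℂ} (hF : ∀ᶠ n in φ, DifferentiableOn ℂ (F n) U ∧ ∀ z ∈ U, ‖F n z‖ ≤ M) :
    ∃ g : ℂ → ℂ, TendstoLocallyUniformlyOn F g φ U := by
  have h1 : ∀ x ∈ U, ∃ y : ℂ, Tendsto (fun n => F n x) φ (𝓝 y) := by
    intro x hx
    have hc : IsCompact (closedBall (0 : ℂ) M) := isCompact_closedBall 0 M
    obtain ⟨y, -, hy⟩ := hc.ultrafilter_le_nhds (φ.map (fun n => F n x)) (by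
      rw [le_principal_iff]
      change ∀ᶠ n in φ, F n x ∈ closedBall (0 : ℂ) M
      filter_upwards [hF] with n hn
      simpa using hn.2 x hx)
    exact ⟨y, hy⟩
  choose! g hg using h1
  exact ⟨g, tendstoLocallyUniformlyOn_of_pointwise hU hF hg⟩

/-! ### Hurwitz -/

/-- A form of Hurwitz's theorem: a nonconstant locally uniform limit of injective holomorphic
functions is injective. -/
lemma injOn_of_tendsto {ι : Type*} {U : Set ℂ} (hUo : IsOpen U) (hUc : IsPreconnected U)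
    {φ : Filter ι} [φ.NeBot] {F : ι → ℂ → ℂ} {g : ℂ → ℂ}
    (hF : ∀ᶠ n in φ, DifferentiableOn ℂ (F n) U ∧ InjOn (F n) U)
    (hlim : TendstoLocallyUniformlyOn F g φ U) (hg : ∃ z ∈ U, ∃ w ∈ U, g z ≠ g w) :
    InjOn g U := by
  have hgd : DifferentiableOn ℂ g U :=
    hlim.differentiableOn (hF.mono fun n hn => hn.1) hUo
  have hgan : AnalyticOnNhd ℂ g U := hgd.analyticOnNhd hUo
  intro a ha b hb hab
  by_contra hne
  -- `g ≠ g b` in a punctured neighbourhood of `b`
  have hiso : ∀ᶠ z in 𝓝[≠] b, g z ≠ g b := by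
    rcases (hgan b hb).eventually_eq_or_eventually_ne
      (analyticAt_const (v := g b)) with h | h
    · exfalso
      have h2 : EqOn g (fun _ => g b) U :=
        hgan.eqOn_of_preconnected_of_eventuallyEq analyticOnNhd_const hUc hb h
      obtain ⟨z, hz, w, hw, hzw⟩ := hg
      exact hzw ((h2 hz).trans (h2 hw).symm)
    · exact h
  -- choose a small radius
  obtain ⟨ρ, hρ, hρU, hρne, hρa⟩ : ∃ ρ : ℝ, 0 < ρ ∧ closedBall b ρ ⊆ U ∧
      (∀ z ∈ sphere b ρ, g z ≠ g b) ∧ a ∉ closedBall b ρ := by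
    rw [eventually_nhdsWithin_iff, Metric.eventually_nhds_iff_ball] at hiso
    obtain ⟨ρ₁, hρ₁, h1⟩ := hiso
    obtain ⟨ρ₂, hρ₂, h2⟩ := Metric.isOpen_iff.mp hUo b hb
    have hab' : 0 < dist a b := dist_pos.mpr hne
    refine ⟨min (min ρ₁ ρ₂) (dist a b) / 2, by positivity, ?_, ?_, ?_⟩
    · intro z hz
      apply h2
      rw [mem_closedBall] at hz
      rw [mem_ball]
      have : min (min ρ₁ ρ₂) (dist a b) ≤ ρ₂ := (min_le_left _ _).trans (min_le_right _ _)
      linarith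
    · intro z hz
      rw [mem_sphere] at hz
      refine h1 z ?_ ?_
      · rw [mem_ball, hz]
        have : min (min ρ₁ ρ₂) (dist a b) ≤ ρ₁ := (min_le_left _ _).trans (min_le_left _ _)
        linarith
      · intro h
        rw [mem_singleton_iff] at h
        rw [h, dist_self] at hz
        have : 0 < min (min ρ₁ ρ₂) (dist a b) := by positivity
        linarith
    · rw [mem_closedBall]
      have : min (min ρ₁ ρ₂) (dist a b) ≤ dist a b := min_le_right _ _
      linarith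
  -- lower bound on the sphere
  obtain ⟨ε, hε, hεs⟩ : ∃ ε : ℝ, 0 < ε ∧ ∀ z ∈ sphere b ρ, 3 * ε ≤ ‖g z - g b‖ := by
    have hcont : ContinuousOn (fun z => ‖g z - g b‖) (sphere b ρ) :=
      ((hgd.continuousOn.mono (sphere_subset_closedBall.trans hρU)).sub continuousOn_const).norm
    have hne' : (sphere b ρ).Nonempty := NormedSpace.sphere_nonempty.mpr hρ.le
    obtain ⟨z₀, hz₀, hmin⟩ := (isCompact_sphere b ρ).exists_isMinOn hne' hcont
    refine ⟨‖g z₀ - g b‖ / 3, ?_, ?_⟩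
    · have : 0 < ‖g z₀ - g b‖ := norm_pos_iff.mpr (sub_ne_zero.mpr (hρne z₀ hz₀))
      positivity
    · intro z hz
      have := hmin hz
      simp only [mem_ofPred_eq] at this
      linarith
  -- uniform convergence on the closed ball
  have hunif : TendstoUniformlyOn F g φ (closedBall b ρ) :=
    (tendstoLocallyUniformlyOn_iff_forall_isCompact hUo).mp hlim _ hρU (isCompact_closedBall b ρ)
  rw [Metric.tendstoUniformlyOn_iff] at hunif
  have hu := hunif (ε / 4) (by positivity)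
  have hga : ∀ᶠ n in φ, dist (g a) (F n a) < ε / 4 := by
    have h3 := (Metric.tendsto_nhds.mp (hlim.tendsto_at ha)) (ε / 4) (by positivity)
    filter_upwards [h3] with n hn
    rwa [dist_comm]
  obtain ⟨n, ⟨hnd, hninj⟩, hn1, hn2⟩ := (hF.and (hu.and hga)).exists
  have hdc : DiffContOnCl ℂ (F n) (ball b ρ) := by
    refine DifferentiableOn.diffContOnCl ?_
    rw [closure_ball b hρ.ne']
    exact hnd.mono hρU
  have hbb : b ∈ closedBall b ρ := mem_closedBall_self hρ.le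
  have hsph : ∀ z ∈ sphere b ρ, 2 * ε ≤ ‖F n z - F n b‖ := by
    intro z hz
    have h1 := hn1 z (sphere_subset_closedBall hz)
    have h2 := hn1 b hbb
    have h3 := hεs z hz
    rw [dist_eq_norm] at h1 h2
    have h4 : g z - g b = (g z - F n z) + (F n z - F n b) - (g b - F n b) := by ring
    have h5 : ‖g z - g b‖ ≤ ‖g z - F n z‖ + ‖F n z - F n b‖ + ‖g b - F n b‖ := by
      rw [h4]
      exact (norm_sub_le _ _).trans (by gcongr; exact norm_add_le _ _)
    linarith
  have hfreq : ∃ᶠ z in 𝓝 b, F n z ≠ F n b := by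
    have h6 : ∃ᶠ z in 𝓝[≠] b, z ∈ U :=
      (eventually_nhdsWithin_of_eventually_nhds (hUo.mem_nhds hb)).frequently
    have h7 : ∃ᶠ z in 𝓝[≠] b, F n z ≠ F n b := by
      refine (h6.and_eventually self_mem_nhdsWithin).mono ?_
      rintro z ⟨hzU, hzb⟩ h
      exact hzb (hninj hzU hb h)
    exact h7.filter_mono nhdsWithin_le_nhds
  have hsub := hdc.ball_subset_image_closedBall hρ hsph hfreq
  have hmem : F n a ∈ ball (F n b) (2 * ε / 2) := by
    rw [mem_ball]
    have h2 := hn1 b hbb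
    calc dist (F n a) (F n b) ≤ dist (F n a) (g a) + dist (g a) (F n b) := dist_triangle _ _ _
      _ = dist (g a) (F n a) + dist (g b) (F n b) := by rw [dist_comm (F n a), hab]
      _ < 2 * ε / 2 := by linarith
  obtain ⟨c, hc, hcn⟩ := hsub hmem
  have hca : c = a := hninj (hρU hc) ha hcn
  exact hρa (hca ▸ hc)

/-! ### Disc automorphisms -/

/-- The disc automorphism `ζ ↦ (ζ - w) / (1 - conj w * ζ)`. -/
noncomputable def mob (w ζ : ℂ) : ℂ := (ζ - w) / (1 - (starRingEnd ℂ) w * ζ)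

lemma mob_den_ne {w ζ : ℂ} (hw : ‖w‖ < 1) (hζ : ‖ζ‖ < 1) : 1 - (starRingEnd ℂ) w * ζ ≠ 0 := by
  intro h
  have h1 : (starRingEnd ℂ) w * ζ = 1 := by linear_combination -h
  have h2 := congrArg norm h1
  rw [norm_mul, RCLike.norm_conj, norm_one] at h2
  nlinarith [norm_nonneg w, norm_nonneg ζ]

lemma normSq_identity (w ζ : ℂ) :
    ‖1 - (starRingEnd ℂ) w * ζ‖ ^ 2 - ‖ζ - w‖ ^ 2 = (1 - ‖w‖ ^ 2) * (1 - ‖ζ‖ ^ 2) := by
  rw [← Complex.normSq_eq_norm_sq, ← Complex.normSq_eq_norm_sq, ← Complex.normSq_eq_norm_sq,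
    ← Complex.normSq_eq_norm_sq]
  simp [Complex.normSq_apply]
  ring

lemma norm_mob_lt {w ζ : ℂ} (hw : ‖w‖ < 1) (hζ : ‖ζ‖ < 1) : ‖mob w ζ‖ < 1 := by
  have hne := mob_den_ne hw hζ
  rw [mob, norm_div, div_lt_one (norm_pos_iff.mpr hne)]
  have h1 := normSq_identity w ζ
  have h2 : 0 < (1 - ‖w‖ ^ 2) * (1 - ‖ζ‖ ^ 2) := by
    apply mul_pos
    · nlinarith [norm_nonneg w]
    · nlinarith [norm_nonneg ζ]
  exact lt_of_pow_lt_pow_left₀ 2 (norm_nonneg _) (by linarith)

lemma mob_neg_mob {w ζ : ℂ} (hw : ‖w‖ < 1) (hζ : ‖ζ‖ < 1) : mob (-w) (mob w ζ) = ζ := by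
  have hne := mob_den_ne hw hζ
  have hne2 := mob_den_ne (w := -w) (ζ := mob w ζ) (by simpa using hw) (norm_mob_lt hw hζ)
  have h3 : 1 - (starRingEnd ℂ) (-w) * mob w ζ =
      (1 - (starRingEnd ℂ) w * w) / (1 - (starRingEnd ℂ) w * ζ) := by
    rw [mob, map_neg]
    field_simp
    ring
  have h4 : mob w ζ - -w = (1 - (starRingEnd ℂ) w * w) * ζ / (1 - (starRingEnd ℂ) w * ζ) := by
    rw [mob, eq_div_iff hne, sub_mul, div_mul_cancel₀ _ hne]
    ring
  have h5 : 1 - (starRingEnd ℂ) w * w ≠ 0 := mob_den_ne hw hw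
  rw [mob, h3, h4]
  field_simp

lemma mob_injOn {w : ℂ} (hw : ‖w‖ < 1) : InjOn (mob w) (ball 0 1) := by
  intro a ha b hb hab
  rw [mem_ball_zero_iff] at ha hb
  rw [← mob_neg_mob hw ha, hab, mob_neg_mob hw hb]

lemma mob_self (w : ℂ) : mob w w = 0 := by simp [mob]

lemma mob_eq_zero_iff {w ζ : ℂ} (hw : ‖w‖ < 1) (hζ : ‖ζ‖ < 1) : mob w ζ = 0 ↔ ζ = w := by
  rw [mob, div_eq_zero_iff, or_iff_left (mob_den_ne hw hζ), sub_eq_zero]

lemma hasDerivAt_mob {w ζ : ℂ} (hw : ‖w‖ < 1) (hζ : ‖ζ‖ < 1) :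
    HasDerivAt (mob w) ((1 - (starRingEnd ℂ) w * w) / (1 - (starRingEnd ℂ) w * ζ) ^ 2) ζ := by
  have hne := mob_den_ne hw hζ
  have h1 : HasDerivAt (fun z : ℂ => z - w) 1 ζ := (hasDerivAt_id ζ).sub_const w
  have h2 : HasDerivAt (fun z : ℂ => 1 - (starRingEnd ℂ) w * z) (-(starRingEnd ℂ) w) ζ := by
    simpa using ((hasDerivAt_id ζ).const_mul ((starRingEnd ℂ) w)).const_sub 1
  have h3 := h1.fun_div h2 hne
  refine h3.congr_deriv ?_
  congr 1
  ring

lemma mob_differentiableOn {w : ℂ} (hw : ‖w‖ < 1) : DifferentiableOn ℂ (mob w) (ball 0 1) := by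
  intro z hz
  rw [mem_ball_zero_iff] at hz
  exact (hasDerivAt_mob hw hz).differentiableAt.differentiableWithinAt

lemma mob_mapsTo {w : ℂ} (hw : ‖w‖ < 1) : MapsTo (mob w) (ball 0 1) (ball 0 1) := by
  intro z hz
  rw [mem_ball_zero_iff] at hz ⊢
  exact norm_mob_lt hw hz

/-! ### Square roots -/

lemma hasDerivAt_of_sq {g φ : ℂ → ℂ} {z φ' : ℂ} (hg : ContinuousAt g z) (hsq : ∀ x, g x ^ 2 = φ x)
    (hφ : HasDerivAt φ φ' z) (hz : g z ≠ 0) : HasDerivAt g (φ' / (2 * g z)) z := by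
  rw [hasDerivAt_iff_tendsto_slope] at hφ ⊢
  have h1 : Tendsto (fun y => g y + g z) (𝓝[≠] z) (𝓝 (2 * g z)) := by
    rw [two_mul]
    exact (hg.tendsto.mono_left nhdsWithin_le_nhds).add_const (g z)
  have h2 : 2 * g z ≠ 0 := mul_ne_zero two_ne_zero hz
  refine (hφ.div h1 h2).congr' ?_
  filter_upwards [h1.eventually_ne h2] with y hy
  change slope φ z y / (g y + g z) = slope g z y
  rw [slope_def_field, slope_def_field, ← hsq, ← hsq]
  rw [div_div, mul_comm, ← div_div]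
  congr 1
  field_simp
  ring

/-! ### The extremal problem -/

/-- The competitors in the extremal problem. -/
def Comp (U : Set ℂ) (z₀ : ℂ) : Set (ℂ → ℂ) :=
  {f | DifferentiableOn ℂ f U ∧ InjOn f U ∧ MapsTo f U (ball 0 1) ∧ f z₀ = 0}

/-- Koebe's square root trick. -/
lemma koebe {U : Set ℂ} (hUo : IsOpen U) (hUc : IsSimplyConnected U) {z₀ : ℂ} (hz₀ : z₀ ∈ U)
    {f : ℂ → ℂ} (hf : f ∈ Comp U z₀) (hf' : deriv f z₀ ≠ 0) {w : ℂ} (hw : ‖w‖ < 1)
    (hwf : w ∉ f '' U) : ∃ h ∈ Comp U z₀, ‖deriv f z₀‖ < ‖deriv h z₀‖ := by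
  obtain ⟨hfd, hfi, hfm, hf0⟩ := hf
  have hfn : ∀ z ∈ U, ‖f z‖ < 1 := fun z hz => by simpa using hfm hz
  have hw0 : w ≠ 0 := by
    rintro rfl
    exact hwf ⟨z₀, hz₀, hf0⟩
  -- the square root
  have hφc : ContinuousOn (fun z => mob w (f z)) U :=
    (mob_differentiableOn hw).continuousOn.comp hfd.continuousOn hfm
  obtain ⟨g, hgc, hg⟩ := exists_continuousOn_pow_eq hUc hUo hφc (by
    rintro ⟨z, hz, h⟩
    rw [mob_eq_zero_iff hw (hfn z hz)] at h
    exact hwf ⟨z, hz, h⟩) two_ne_zero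
  have hgn : ∀ z ∈ U, ‖g z‖ < 1 := by
    intro z hz
    have h1 := congrArg norm (hg z)
    rw [norm_pow] at h1
    have h2 := norm_mob_lt hw (hfn z hz)
    rw [← h1] at h2
    nlinarith [norm_nonneg (g z)]
  have hg0 : ∀ z ∈ U, g z ≠ 0 := by
    intro z hz h
    have h1 := hg z
    rw [h] at h1
    have h2 : mob w (f z) = 0 := by rw [← h1]; simp
    rw [mob_eq_zero_iff hw (hfn z hz)] at h2
    exact hwf ⟨z, hz, h2⟩
  have hfda : ∀ z ∈ U, HasDerivAt f (deriv f z) z := fun z hz =>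
    (hfd.differentiableAt (hUo.mem_nhds hz)).hasDerivAt
  have hgd : ∀ z ∈ U, HasDerivAt g (((1 - (starRingEnd ℂ) w * w) /
      (1 - (starRingEnd ℂ) w * f z) ^ 2 * deriv f z) / (2 * g z)) z := by
    intro z hz
    refine hasDerivAt_of_sq (hgc.continuousAt (hUo.mem_nhds hz)) hg ?_ (hg0 z hz)
    exact (hasDerivAt_mob hw (hfn z hz)).comp z (hfda z hz)
  have hgi : InjOn g U := by
    intro a ha b hb hab
    apply hfi ha hb
    apply mob_injOn hw (hfm ha) (hfm hb)
    rw [← hg a, ← hg b, hab]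
  have hgm : MapsTo g U (ball 0 1) := fun z hz => by simpa using hgn z hz
  have hgz₀ := hgn z₀ hz₀
  refine ⟨fun z => mob (g z₀) (g z), ⟨?_, ?_, ?_, ?_⟩, ?_⟩
  · exact (mob_differentiableOn hgz₀).comp
      (fun z hz => (hgd z hz).differentiableAt.differentiableWithinAt) hgm
  · exact (mob_injOn hgz₀).comp hgi hgm
  · exact (mob_mapsTo hgz₀).comp hgm
  · exact mob_self _
  · have h1 := (hasDerivAt_mob hgz₀ hgz₀).comp z₀ (hgd z₀ hz₀)
    have h2 : deriv (fun z => mob (g z₀) (g z)) z₀ = _ := h1.deriv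
    rw [h2, hf0]
    simp only [mul_zero, sub_zero, one_pow, div_one]
    have hw2 : (1 - (starRingEnd ℂ) w * w) = ((1 - ‖w‖ ^ 2 : ℝ) : ℂ) := by
      rw [← Complex.normSq_eq_norm_sq, ← Complex.normSq_eq_conj_mul_self]
      push_cast
      rfl
    have hgz2 : (1 - (starRingEnd ℂ) (g z₀) * (g z₀)) = ((1 - ‖g z₀‖ ^ 2 : ℝ) : ℂ) := by
      rw [← Complex.normSq_eq_norm_sq, ← Complex.normSq_eq_conj_mul_self]
      push_cast
      rfl
    have hgw : ‖g z₀‖ ^ 2 = ‖w‖ := by
      rw [← norm_pow, hg z₀, hf0, mob]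
      simp
    set s := ‖g z₀‖ with hs
    have hs0 : 0 < s := norm_pos_iff.mpr (hg0 z₀ hz₀)
    have hs1 : s < 1 := hgz₀
    rw [hw2, hgz2, ← hgw]
    have hpos1 : 0 < 1 - s ^ 2 := by nlinarith
    have hpos2 : 0 < 1 - (s ^ 2) ^ 2 := by nlinarith
    rw [norm_mul, norm_div, norm_div, norm_mul, norm_mul, norm_pow, Complex.norm_real,
      Complex.norm_real, Real.norm_of_nonneg hpos1.le, Real.norm_of_nonneg hpos2.le, ← hs,
      Complex.norm_ofNat]
    have hD : 0 < ‖deriv f z₀‖ := norm_pos_iff.mpr hf'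
    have h5 : (1 - s ^ 2) / (1 - s ^ 2) ^ 2 * ((1 - (s ^ 2) ^ 2) * ‖deriv f z₀‖ / (2 * s)) =
        ‖deriv f z₀‖ * ((1 + s ^ 2) / (2 * s)) := by
      field_simp
      ring
    rw [h5]
    have h6 : 1 < (1 + s ^ 2) / (2 * s) := by
      rw [lt_div_iff₀ (by positivity)]
      nlinarith [sq_nonneg (1 - s), mul_pos (sub_pos.mpr hs1) (sub_pos.mpr hs1)]
    nlinarith

/-- **Riemann mapping theorem**, normalised at a point. -/
theorem riemann_mapping' {U : Set ℂ} (hUo : IsOpen U) (hUc : IsSimplyConnected U)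
    (hU : U ≠ Set.univ) {z₀ : ℂ} (hz₀ : z₀ ∈ U) :
    ∃ f : ℂ → ℂ, DifferentiableOn ℂ f U ∧ Set.InjOn f U ∧ f '' U = Metric.ball (0:ℂ) 1 ∧
      f z₀ = 0 ∧ deriv f z₀ ≠ 0 := by
  have hUpre : IsPreconnected U := hUc.isPathConnected.isConnected.isPreconnected
  -- a competitor with nonzero derivative
  obtain ⟨f₀, hf₀, hf₀'⟩ : ∃ f ∈ Comp U z₀, deriv f z₀ ≠ 0 := by
    obtain ⟨f, hfm, hfi, hfd⟩ := exists_mapsTo_unitBall_injOn_deriv_ne_zero hUo hUc hU
    have hfn : ∀ z ∈ U, ‖f z‖ < 1 := fun z hz => by simpa using hfm hz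
    have hda : ∀ z ∈ U, DifferentiableAt ℂ f z := fun z hz =>
      differentiableAt_of_deriv_ne_zero (hfd z hz)
    refine ⟨fun z => mob (f z₀) (f z), ⟨?_, ?_, ?_, ?_⟩, ?_⟩
    · exact (mob_differentiableOn (hfn z₀ hz₀)).comp
        (fun z hz => (hda z hz).differentiableWithinAt) hfm
    · exact (mob_injOn (hfn z₀ hz₀)).comp hfi hfm
    · exact (mob_mapsTo (hfn z₀ hz₀)).comp hfm
    · exact mob_self _
    · have h1 := (hasDerivAt_mob (hfn z₀ hz₀) (hfn z₀ hz₀)).comp z₀ (hda z₀ hz₀).hasDerivAt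
      have h2 : deriv (fun z => mob (f z₀) (f z)) z₀ = _ := h1.deriv
      rw [h2]
      have h3 := mob_den_ne (hfn z₀ hz₀) (hfn z₀ hz₀)
      exact mul_ne_zero (div_ne_zero h3 (pow_ne_zero 2 h3)) (hfd z₀ hz₀)
  -- the supremum of the derivatives
  obtain ⟨r, hr, hball⟩ := Metric.isOpen_iff.mp hUo z₀ hz₀
  set S : Set ℝ := (fun f : ℂ → ℂ => ‖deriv f z₀‖) '' Comp U z₀ with hS
  have hSne : S.Nonempty := ⟨_, f₀, hf₀, rfl⟩
  have hSbdd : BddAbove S := by
    refine ⟨1 / r, ?_⟩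
    rintro _ ⟨f, hf, rfl⟩
    refine Complex.norm_deriv_le_div_of_mapsTo_ball (hf.1.mono hball) ?_ hr
    rw [hf.2.2.2]
    exact fun z hz => ball_subset_closedBall (hf.2.2.1 (hball hz))
  obtain ⟨u, -, -, hu, huS⟩ := (isLUB_csSup hSne hSbdd).exists_seq_monotone_tendsto hSne
  choose F hF hFu using huS
  -- limit along an ultrafilter
  obtain ⟨𝒰, h𝒰⟩ := Ultrafilter.exists_le (atTop : Filter ℕ)
  have hFb : ∀ᶠ n in (𝒰 : Filter ℕ), DifferentiableOn ℂ (F n) U ∧ ∀ z ∈ U, ‖F n z‖ ≤ 1 :=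
    Eventually.of_forall fun n => ⟨(hF n).1, fun z hz => by
      have := (hF n).2.2.1 hz
      rw [mem_ball_zero_iff] at this
      exact this.le⟩
  obtain ⟨g, hg⟩ := exists_limit hUo 𝒰 hFb
  have hgd : DifferentiableOn ℂ g U := hg.differentiableOn (hFb.mono fun n hn => hn.1) hUo
  have hderiv : Tendsto (fun n => deriv (F n) z₀) 𝒰 (𝓝 (deriv g z₀)) :=
    (hg.deriv (hFb.mono fun n hn => hn.1) hUo).tendsto_at hz₀
  have hnorm : ‖deriv g z₀‖ = sSup S := by
    refine tendsto_nhds_unique hderiv.norm ?_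
    have : (fun n => ‖deriv (F n) z₀‖) = u := funext hFu
    rw [this]
    exact hu.mono_left h𝒰
  have hpos : 0 < ‖deriv g z₀‖ := by
    rw [hnorm]
    exact (norm_pos_iff.mpr hf₀').trans_le (le_csSup hSbdd ⟨f₀, hf₀, rfl⟩)
  have hg' : deriv g z₀ ≠ 0 := norm_pos_iff.mp hpos
  have hg0 : g z₀ = 0 := by
    refine tendsto_nhds_unique (hg.tendsto_at hz₀) ?_
    have : (fun n => F n z₀) = fun _ => 0 := funext fun n => (hF n).2.2.2
    rw [this]
    exact tendsto_const_nhds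
  -- `g` is not constant
  have hnc : ∃ z ∈ U, ∃ w ∈ U, g z ≠ g w := by
    by_contra hcon
    push Not at hcon
    apply hg'
    have : g =ᶠ[𝓝 z₀] fun _ => g z₀ := by
      filter_upwards [hUo.mem_nhds hz₀] with z hz using hcon z hz z₀ hz₀
    rw [this.deriv_eq]
    simp
  have hgi : InjOn g U := injOn_of_tendsto hUo hUpre
    (Eventually.of_forall fun n => ⟨(hF n).1, (hF n).2.1⟩) hg hnc
  have hgan : AnalyticOnNhd ℂ g U := hgd.analyticOnNhd hUo
  have hgm : MapsTo g U (ball 0 1) := by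
    have hcl : MapsTo g U (closedBall 0 1) := by
      intro z hz
      rw [mem_closedBall_zero_iff]
      refine le_of_tendsto (hg.tendsto_at hz).norm ?_
      exact hFb.mono fun n hn => hn.2 z hz
    have hopen : IsOpen (g '' U) := by
      rcases hgan.is_constant_or_isOpen hUpre with ⟨w, hw⟩ | h
      · obtain ⟨a, ha, b, hb, hab⟩ := hnc
        exact absurd ((hw a ha).trans (hw b hb).symm) hab
      · exact h U Subset.rfl hUo
    have hsub : g '' U ⊆ interior (closedBall 0 1) :=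
      interior_maximal (image_subset_iff.mpr hcl) hopen
    rw [interior_closedBall (0 : ℂ) one_ne_zero] at hsub
    exact image_subset_iff.mp hsub
  refine ⟨g, hgd, hgi, ?_, hg0, hg'⟩
  apply Subset.antisymm (image_subset_iff.mpr hgm)
  intro w hw
  by_contra hwg
  rw [mem_ball_zero_iff] at hw
  obtain ⟨h, hh, hlt⟩ := koebe hUo hUc hz₀ ⟨hgd, hgi, hgm, hg0⟩ hg' hw hwg
  have := le_csSup hSbdd ⟨h, hh, rfl⟩
  rw [← hnorm] at this
  exact absurd this (not_le.mpr hlt)

/-- **Riemann mapping theorem**. -/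
theorem riemann_mapping {U : Set ℂ} (hUo : IsOpen U) (hUc : IsSimplyConnected U)
    (hU : U ≠ Set.univ) :
    ∃ f : ℂ → ℂ, DifferentiableOn ℂ f U ∧ Set.InjOn f U ∧ f '' U = Metric.ball (0:ℂ) 1 := by
  obtain ⟨z₀, hz₀⟩ := hUc.nonempty
  obtain ⟨f, h1, h2, h3, -⟩ := riemann_mapping' hUo hUc hU hz₀
  exact ⟨f, h1, h2, h3⟩

end Pool.Agent.RMT
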