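import Pool.Agent.Work.MP_a78000_an.HolInv

/-!
Classification of the fixed point free automorphisms of the unit disc.
-/

open Set Filter Topology Metric
open scoped ComplexConjugate

namespace Pool.Agent.DiscAut

/-- The Blaschke factor. -/
noncomputable def mob (a z : ℂ) : ℂ := (z - a) / (1 - conj a * z)

lemma denom_ne {a z : ℂ} (ha : ‖a‖ < 1) (hz : ‖z‖ ≤ 1) : 1 - conj a * z ≠ 0 := by
  intro h
  have h1 : conj a * z = 1 := (sub_eq_zero.1 h).symm
  have h2 : ‖conj a * z‖ = 1 := by rw [h1, norm_one]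
  rw [norm_mul, Complex.norm_conj] at h2
  have h3 : ‖a‖ * ‖z‖ ≤ ‖a‖ * 1 := mul_le_mul_of_nonneg_left hz (norm_nonneg _)
  linarith

/-- `|1 - ā z|² - |z - a|² = (1 - |a|²)(1 - |z|²)`. -/
lemma normSq_identity (a z : ℂ) :
    Complex.normSq (1 - conj a * z) - Complex.normSq (z - a) =
      (1 - Complex.normSq a) * (1 - Complex.normSq z) := by
  simp only [Complex.normSq_apply, Complex.sub_re, Complex.sub_im, Complex.mul_re, Complex.mul_im,
    Complex.conj_re, Complex.conj_im, Complex.one_re, Complex.one_im]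
  ring

lemma normSq_lt_one {z : ℂ} (hz : ‖z‖ < 1) : Complex.normSq z < 1 := by
  rw [Complex.normSq_eq_norm_sq]
  have := norm_nonneg z
  nlinarith

lemma mob_mem {a z : ℂ} (ha : ‖a‖ < 1) (hz : ‖z‖ < 1) : ‖mob a z‖ < 1 := by
  unfold mob
  have hd := denom_ne ha hz.le
  have hpos : 0 < ‖1 - conj a * z‖ := norm_pos_iff.2 hd
  rw [norm_div, div_lt_one hpos]
  have h := normSq_identity a z
  have h1 : 0 < (1 - Complex.normSq a) * (1 - Complex.normSq z) :=
    mul_pos (by linarith [normSq_lt_one ha]) (by linarith [normSq_lt_one hz])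
  rw [← h, Complex.normSq_eq_norm_sq, Complex.normSq_eq_norm_sq] at h1
  exact lt_of_pow_lt_pow_left₀ 2 hpos.le (by linarith)

lemma mob_inv {a z : ℂ} (ha : ‖a‖ < 1) (hz : ‖z‖ < 1) : mob (-a) (mob a z) = z := by
  have hd := denom_ne ha hz.le
  have hm := mob_mem ha hz
  have hd2 := denom_ne (a := -a) (by rwa [norm_neg]) hm.le
  have hq : mob a z * (1 - conj a * z) = z - a := div_mul_cancel₀ _ hd
  generalize mob a z = q at hd2 hq ⊢
  unfold mob
  rw [div_eq_iff hd2, map_neg]
  linear_combination hq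

lemma mob_differentiableOn {a : ℂ} (ha : ‖a‖ < 1) : DifferentiableOn ℂ (mob a) (ball 0 1) := by
  intro z hz
  rw [mem_ball_zero_iff] at hz
  unfold mob
  refine DifferentiableAt.differentiableWithinAt ?_
  refine DifferentiableAt.div (by fun_prop) (by fun_prop) (denom_ne ha hz.le)

lemma mob_mapsTo {a : ℂ} (ha : ‖a‖ < 1) : MapsTo (mob a) (ball 0 1) (ball 0 1) := by
  intro z hz
  rw [mem_ball_zero_iff] at hz ⊢
  exact mob_mem ha hz

lemma mob_zero (a : ℂ) : mob a a = 0 := by simp [mob]

/-- An automorphism of the disc fixing `0` is a rotation. -/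
lemma rotation {g : ℂ → ℂ} (hg : DifferentiableOn ℂ g (ball 0 1)) (hinj : InjOn g (ball 0 1))
    (himg : g '' ball 0 1 = ball 0 1) (h0 : g 0 = 0) :
    ∃ c : ℂ, ‖c‖ = 1 ∧ ∀ z ∈ ball (0 : ℂ) 1, g z = c * z := by
  have hmaps : MapsTo g (ball 0 1) (ball 0 1) := by
    intro z hz
    rw [← himg]
    exact mem_image_of_mem g hz
  set k := Function.invFunOn g (ball (0 : ℂ) 1) with hk
  have hkg : ∀ z ∈ ball (0 : ℂ) 1, k (g z) = z := hinj.leftInvOn_invFunOn
  have hkd : DifferentiableOn ℂ k (ball 0 1) := by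
    have := HolInv.differentiableOn_inv isOpen_ball hg hinj
    rwa [himg] at this
  have hkmaps : MapsTo k (ball 0 1) (ball 0 1) := by
    intro w hw
    rw [← himg] at hw
    obtain ⟨z, hz, rfl⟩ := hw
    rw [hkg z hz]
    exact hz
  have hk0 : k 0 = 0 := by
    have := hkg 0 (mem_ball_self one_pos)
    rwa [h0] at this
  have h1 : ∀ z ∈ ball (0 : ℂ) 1, ‖g z‖ ≤ ‖z‖ := by
    intro z hz
    exact Complex.norm_le_norm_of_mapsTo_ball hg
      (hmaps.mono_right ball_subset_closedBall) h0 (by rwa [mem_ball_zero_iff] at hz)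
  have h2 : ∀ w ∈ ball (0 : ℂ) 1, ‖k w‖ ≤ ‖w‖ := by
    intro z hz
    exact Complex.norm_le_norm_of_mapsTo_ball hkd
      (hkmaps.mono_right ball_subset_closedBall) hk0 (by rwa [mem_ball_zero_iff] at hz)
  have h3 : ∀ z ∈ ball (0 : ℂ) 1, ‖g z‖ = ‖z‖ := by
    intro z hz
    refine le_antisymm (h1 z hz) ?_
    have := h2 (g z) (hmaps hz)
    rwa [hkg z hz] at this
  -- equality case of the Schwarz lemma
  set z₀ : ℂ := 1 / 2 with hz₀
  have hz₀b : z₀ ∈ ball (0 : ℂ) 1 := by
    rw [mem_ball_zero_iff, hz₀]; norm_num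
  have hz₀0 : z₀ ≠ 0 := by rw [hz₀]; norm_num
  have hslope : ‖dslope g 0 z₀‖ = 1 / 1 := by
    rw [dslope_of_ne _ hz₀0, slope_def_module, h0, sub_zero, sub_zero, norm_smul, h3 z₀ hz₀b,
      norm_inv, inv_mul_cancel₀ (norm_ne_zero_iff.2 hz₀0), div_one]
  have hm : MapsTo g (ball 0 1) (closedBall (g 0) 1) := by
    rw [h0]; exact hmaps.mono_right ball_subset_closedBall
  have haff := Complex.affine_of_mapsTo_ball_of_norm_dslope_eq_div hg hm hz₀b hslope
  refine ⟨dslope g 0 z₀, by rw [hslope, div_one], fun z hz => ?_⟩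
  have := haff hz
  simp only [h0, sub_zero, zero_add, smul_eq_mul] at this
  rw [this, mul_comm]

/-- Every automorphism of the disc is a rotation composed with a Blaschke factor. -/
lemma exists_mob {A : ℂ → ℂ} (hA : DifferentiableOn ℂ A (ball 0 1)) (hinj : InjOn A (ball 0 1))
    (himg : A '' ball 0 1 = ball 0 1) :
    ∃ a c : ℂ, ‖a‖ < 1 ∧ ‖c‖ = 1 ∧ ∀ z ∈ ball (0 : ℂ) 1, A z = c * mob a z := by
  obtain ⟨a, ha, hAa⟩ : ∃ a ∈ ball (0 : ℂ) 1, A a = 0 := by
    have : (0 : ℂ) ∈ A '' ball 0 1 := by rw [himg]; exact mem_ball_self one_pos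
    exact this
  rw [mem_ball_zero_iff] at ha
  have hna : ‖-a‖ < 1 := by rwa [norm_neg]
  have hg : DifferentiableOn ℂ (A ∘ mob (-a)) (ball 0 1) :=
    hA.comp (mob_differentiableOn hna) (mob_mapsTo hna)
  have hinv' : ∀ z ∈ ball (0 : ℂ) 1, mob a (mob (-a) z) = z := by
    intro z hz
    rw [mem_ball_zero_iff] at hz
    have := mob_inv hna hz
    rwa [neg_neg] at this
  have hinj' : InjOn (A ∘ mob (-a)) (ball 0 1) := by
    intro z hz w hw h
    have := hinj (mob_mapsTo hna hz) (mob_mapsTo hna hw) h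
    rw [← hinv' z hz, this, hinv' w hw]
  have himg' : (A ∘ mob (-a)) '' ball 0 1 = ball 0 1 := by
    rw [image_comp]
    have : mob (-a) '' ball 0 1 = ball 0 1 := by
      apply Subset.antisymm
      · exact (mob_mapsTo hna).image_subset
      · intro z hz
        refine ⟨mob a z, mob_mapsTo ha hz, ?_⟩
        rw [mem_ball_zero_iff] at hz
        exact mob_inv ha hz
    rw [this, himg]
  have h0 : (A ∘ mob (-a)) 0 = 0 := by
    simp [mob, hAa]
  obtain ⟨c, hc, hrot⟩ := rotation hg hinj' himg' h0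
  refine ⟨a, c, ha, hc, fun z hz => ?_⟩
  have h1 := hrot (mob a z) (mob_mapsTo ha hz)
  rw [Function.comp_apply] at h1
  rw [mem_ball_zero_iff] at hz
  rwa [mob_inv ha hz] at h1

/-- The upper half plane. -/
def uhp : Set ℂ := {w : ℂ | 0 < w.im}

/-- Statement for an intermediate conjugation to the upper half plane. -/
lemma to_strip {A M : ℂ → ℂ} (hMd : DifferentiableOn ℂ M (ball 0 1)) (hMi : InjOn M (ball 0 1))
    (hM : M '' ball 0 1 = uhp) (lam : ℂ) (hlam : lam ≠ 1)
    (hconj : ∀ z ∈ ball (0 : ℂ) 1, M (A z) = lam * M z) (hmaps : MapsTo A (ball 0 1) (ball 0 1)) :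
    ∃ (B : ℂ → ℂ) (b : ℝ), b ≠ 0 ∧ DifferentiableOn ℂ B (ball 0 1) ∧ InjOn B (ball 0 1) ∧
      (B '' ball 0 1 = {w : ℂ | 0 < w.im ∧ w.im < Real.pi}) ∧
      ∀ z ∈ ball (0 : ℂ) 1, B (A z) = B z + b := by
  have hMmem : ∀ z ∈ ball (0 : ℂ) 1, 0 < (M z).im := by
    intro z hz
    have : M z ∈ uhp := by rw [← hM]; exact mem_image_of_mem M hz
    exact this
  have hall : ∀ w : ℂ, 0 < w.im → 0 < (lam * w).im := by
    intro w hw
    have : w ∈ M '' ball 0 1 := by rw [hM]; exact hw
    obtain ⟨z, hz, rfl⟩ := this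
    rw [← hconj z hz]
    exact hMmem _ (hmaps hz)
  have hre : 0 < lam.re := by
    have := hall Complex.I (by simp)
    simpa using this
  have him : lam.im = 0 := by
    by_contra hne
    have := hall (((-(lam.re) / lam.im : ℝ) : ℂ) + Complex.I) (by simp)
    rw [mul_add, Complex.add_im, Complex.mul_im, Complex.mul_im] at this
    simp only [Complex.ofReal_re, Complex.ofReal_im, Complex.I_re, Complex.I_im, mul_zero,
      mul_one, zero_add, add_zero] at this
    rw [mul_div_cancel₀ _ hne] at this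
    linarith
  have hlamr : lam = ((lam.re : ℝ) : ℂ) := by
    apply Complex.ext
    · simp
    · simpa using him
  have hne1 : lam.re ≠ 1 := by
    intro h
    apply hlam
    rw [hlamr, h, Complex.ofReal_one]
  refine ⟨fun z => Complex.log (M z), Real.log lam.re, ?_, ?_, ?_, ?_, ?_⟩
  · exact Real.log_ne_zero_of_pos_of_ne_one hre hne1
  · intro z hz
    refine DifferentiableAt.differentiableWithinAt ?_
    refine (hMd.differentiableAt (isOpen_ball.mem_nhds hz)).clog ?_
    rw [Complex.mem_slitPlane_iff]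
    exact Or.inr (hMmem z hz).ne'
  · intro z hz w hw h
    apply hMi hz hw
    have h1 : M z ≠ 0 := fun h0 => by
      have := hMmem z hz; rw [h0] at this; simp at this
    have h2 : M w ≠ 0 := fun h0 => by
      have := hMmem w hw; rw [h0] at this; simp at this
    rw [← Complex.exp_log h1, ← Complex.exp_log h2]
    exact congrArg Complex.exp h
  · ext w
    constructor
    · rintro ⟨z, hz, rfl⟩
      have h1 := hMmem z hz
      have harg1 : 0 < (M z).arg := by
        rcases lt_trichotomy (M z).arg 0 with h | h | h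
        · exact absurd (Complex.arg_neg_iff.1 h) (not_lt.2 h1.le)
        · rw [Complex.arg_eq_zero_iff] at h
          rw [h.2] at h1
          exact absurd h1 (lt_irrefl _)
        · exact h
      have harg2 : (M z).arg < Real.pi := by
        refine lt_of_le_of_ne (Complex.arg_le_pi _) ?_
        intro h
        rw [Complex.arg_eq_pi_iff] at h
        rw [h.2] at h1
        exact absurd h1 (lt_irrefl _)
      exact ⟨by rw [Complex.log_im]; exact harg1, by rw [Complex.log_im]; exact harg2⟩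
    · rintro ⟨h1, h2⟩
      have hexp : Complex.exp w ∈ uhp := by
        change 0 < (Complex.exp w).im
        rw [Complex.exp_im]
        exact mul_pos (Real.exp_pos _) (Real.sin_pos_of_pos_of_lt_pi h1 h2)
      rw [← hM] at hexp
      obtain ⟨z, hz, hMz⟩ := hexp
      refine ⟨z, hz, ?_⟩
      change Complex.log (M z) = w
      rw [hMz, Complex.log_exp (by linarith [Real.pi_pos]) h2.le]
  · intro z hz
    have h1 : M z ≠ 0 := fun h0 => by
      have := hMmem z hz; rw [h0] at this; simp at this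
    change Complex.log (M (A z)) = Complex.log (M z) + _
    rw [hconj z hz, hlamr, Complex.log_ofReal_mul hre h1, add_comm]
    simp

/-- The hyperbolic case: conjugation to a dilation of the upper half plane. -/
lemma hyperbolic (z₁ z₂ : ℂ) (h₁ : ‖z₁‖ = 1) (h₂ : ‖z₂‖ = 1) (hne : z₁ ≠ z₂) :
    ∃ κ : ℂ, κ ≠ 0 ∧ DifferentiableOn ℂ (fun z => κ * ((z - z₁) / (z - z₂))) (ball 0 1) ∧
      InjOn (fun z => κ * ((z - z₁) / (z - z₂))) (ball 0 1) ∧
      (fun z => κ * ((z - z₁) / (z - z₂))) '' ball 0 1 = uhp := by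
  have hn1 : z₁.re * z₁.re + z₁.im * z₁.im = 1 := by
    have := Complex.normSq_eq_norm_sq z₁
    rw [h₁, one_pow, Complex.normSq_apply] at this
    exact this
  have hn2 : z₂.re * z₂.re + z₂.im * z₂.im = 1 := by
    have := Complex.normSq_eq_norm_sq z₂
    rw [h₂, one_pow, Complex.normSq_apply] at this
    exact this
  set κ : ℂ := Complex.I * (z₂ * conj z₁ - 1) with hκ
  set ρ : ℝ := 1 - (z₁.re * z₂.re + z₁.im * z₂.im) with hρ
  have hρpos : 0 < ρ := by
    have h1 : (z₁.re - z₂.re) ^ 2 + (z₁.im - z₂.im) ^ 2 = 2 * ρ := by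
      rw [hρ]; linear_combination hn1 + hn2
    have h2 : 0 < (z₁.re - z₂.re) ^ 2 + (z₁.im - z₂.im) ^ 2 := by
      by_contra hcon
      have ha := sq_nonneg (z₁.re - z₂.re)
      have hb := sq_nonneg (z₁.im - z₂.im)
      have ha0 : (z₁.re - z₂.re) ^ 2 = 0 := by linarith
      have hb0 : (z₁.im - z₂.im) ^ 2 = 0 := by linarith
      apply hne
      apply Complex.ext
      · exact sub_eq_zero.1 (pow_eq_zero_iff (two_ne_zero)|>.1 ha0)
      · exact sub_eq_zero.1 (pow_eq_zero_iff (two_ne_zero)|>.1 hb0)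
    linarith
  have hκim : κ.im = -ρ := by
    rw [hκ, hρ]
    simp only [Complex.mul_im, Complex.mul_re, Complex.sub_im, Complex.sub_re, Complex.I_re,
      Complex.I_im, Complex.conj_re, Complex.conj_im, Complex.one_re, Complex.one_im]
    ring
  have hκ0 : κ ≠ 0 := by
    intro h
    rw [h, Complex.zero_im] at hκim
    linarith
  have hident : ∀ z : ℂ, (κ * ((z - z₁) * conj (z - z₂))).im = ρ * (1 - Complex.normSq z) := by
    intro z
    rw [hκ, hρ]
    simp only [Complex.mul_im, Complex.mul_re, Complex.sub_im, Complex.sub_re, Complex.I_re,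
      Complex.I_im, Complex.conj_re, Complex.conj_im, Complex.one_re, Complex.one_im,
      Complex.normSq_apply]
    linear_combination (-(z.re * z₁.re + z.im * z₁.im) + 1) * hn2 +
      (-(z.re * z₂.re + z.im * z₂.im) + (z₂.re * z₂.re + z₂.im * z₂.im)) * hn1
  have him : ∀ z : ℂ, z ≠ z₂ → (κ * ((z - z₁) / (z - z₂))).im =
      ρ * (1 - Complex.normSq z) / Complex.normSq (z - z₂) := by
    intro z hz
    rw [← hident z]
    have h1 : κ * ((z - z₁) / (z - z₂)) =
        ((Complex.normSq (z - z₂))⁻¹ : ℝ) * (κ * ((z - z₁) * conj (z - z₂))) := by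
      rw [div_eq_mul_inv (z - z₁), Complex.inv_def]
      push_cast
      ring
    rw [h1, Complex.im_ofReal_mul, div_eq_inv_mul]
  have hz2 : ∀ z ∈ ball (0 : ℂ) 1, z ≠ z₂ := by
    intro z hz h
    rw [mem_ball_zero_iff, h, h₂] at hz
    exact absurd hz (lt_irrefl _)
  refine ⟨κ, hκ0, ?_, ?_, ?_⟩
  · intro z hz
    refine DifferentiableAt.differentiableWithinAt ?_
    refine DifferentiableAt.const_mul ?_ _
    exact DifferentiableAt.div (by fun_prop) (by fun_prop) (sub_ne_zero.2 (hz2 z hz))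
  · intro z hz w hw h
    have h1 : (z - z₁) / (z - z₂) = (w - z₁) / (w - z₂) := mul_left_cancel₀ hκ0 h
    rw [div_eq_div_iff (sub_ne_zero.2 (hz2 z hz)) (sub_ne_zero.2 (hz2 w hw))] at h1
    have h2 : (z - w) * (z₁ - z₂) = 0 := by linear_combination h1
    rcases mul_eq_zero.1 h2 with h3 | h3
    · exact sub_eq_zero.1 h3
    · exact absurd (sub_eq_zero.1 h3) hne
  · apply Subset.antisymm
    · rintro _ ⟨z, hz, rfl⟩
      change 0 < (κ * ((z - z₁) / (z - z₂))).im
      rw [him z (hz2 z hz)]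
      have hz' : ‖z‖ < 1 := by rwa [mem_ball_zero_iff] at hz
      refine div_pos (mul_pos hρpos (by linarith [normSq_lt_one hz'])) ?_
      exact Complex.normSq_pos.2 (sub_ne_zero.2 (hz2 z hz))
    · intro w hw
      have hw' : 0 < w.im := hw
      have hκw : κ - w ≠ 0 := by
        intro h
        have := congrArg Complex.im h
        rw [Complex.sub_im, hκim, Complex.zero_im] at this
        linarith
      set z : ℂ := (κ * z₁ - w * z₂) / (κ - w) with hz
      have hzz : z * (κ - w) = κ * z₁ - w * z₂ := div_mul_cancel₀ _ hκw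
      have hzne : z ≠ z₂ := by
        intro h
        rw [h] at hzz
        have : κ * (z₁ - z₂) = 0 := by linear_combination -hzz
        rcases mul_eq_zero.1 this with h3 | h3
        · exact hκ0 h3
        · exact hne (sub_eq_zero.1 h3)
      have hMz : κ * ((z - z₁) / (z - z₂)) = w := by
        rw [mul_div_assoc', div_eq_iff (sub_ne_zero.2 hzne)]
        linear_combination hzz
      refine ⟨z, ?_, hMz⟩
      have h1 := him z hzne
      rw [hMz] at h1
      have hpos : 0 < Complex.normSq (z - z₂) := Complex.normSq_pos.2 (sub_ne_zero.2 hzne)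
      have h2 : 0 < ρ * (1 - Complex.normSq z) := by
        have h3 : ρ * (1 - Complex.normSq z) = w.im * Complex.normSq (z - z₂) := by
          rw [h1, div_mul_cancel₀ _ hpos.ne']
        rw [h3]
        exact mul_pos hw' hpos
      have h3 : 0 < 1 - Complex.normSq z := (mul_pos_iff_of_pos_left hρpos).1 h2
      rw [mem_ball_zero_iff]
      rw [Complex.normSq_eq_norm_sq] at h3
      have h4 : ‖z‖ ^ 2 < 1 ^ 2 := by linarith
      exact lt_of_pow_lt_pow_left₀ 2 zero_le_one h4

/-- The parabolic case: the Cayley transform. -/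
lemma parabolic (ζ : ℂ) (h : ‖ζ‖ = 1) :
    DifferentiableOn ℂ (fun z => Complex.I * ((ζ + z) / (ζ - z))) (ball 0 1) ∧
      InjOn (fun z => Complex.I * ((ζ + z) / (ζ - z))) (ball 0 1) ∧
      (fun z => Complex.I * ((ζ + z) / (ζ - z))) '' ball 0 1 = uhp := by
  have hn : ζ.re * ζ.re + ζ.im * ζ.im = 1 := by
    have := Complex.normSq_eq_norm_sq ζ
    rw [h, one_pow, Complex.normSq_apply] at this
    exact this
  have hζ0 : ζ ≠ 0 := by
    rintro rfl
    rw [norm_zero] at h
    exact zero_ne_one h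
  have hident : ∀ z : ℂ, (Complex.I * ((ζ + z) * conj (ζ - z))).im = 1 - Complex.normSq z := by
    intro z
    simp only [Complex.mul_im, Complex.mul_re, Complex.sub_im, Complex.sub_re, Complex.I_re,
      Complex.I_im, Complex.conj_re, Complex.conj_im, Complex.add_re, Complex.add_im,
      Complex.normSq_apply]
    linear_combination hn
  have him : ∀ z : ℂ, ζ ≠ z → (Complex.I * ((ζ + z) / (ζ - z))).im =
      (1 - Complex.normSq z) / Complex.normSq (ζ - z) := by
    intro z hz
    rw [← hident z]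
    have h1 : Complex.I * ((ζ + z) / (ζ - z)) =
        ((Complex.normSq (ζ - z))⁻¹ : ℝ) * (Complex.I * ((ζ + z) * conj (ζ - z))) := by
      rw [div_eq_mul_inv (ζ + z), Complex.inv_def]
      push_cast
      ring
    rw [h1, Complex.im_ofReal_mul, div_eq_inv_mul]
  have hzζ : ∀ z ∈ ball (0 : ℂ) 1, ζ ≠ z := by
    intro z hz h1
    rw [mem_ball_zero_iff, ← h1, h] at hz
    exact absurd hz (lt_irrefl _)
  refine ⟨?_, ?_, ?_⟩
  · intro z hz
    refine DifferentiableAt.differentiableWithinAt ?_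
    refine DifferentiableAt.const_mul ?_ _
    exact DifferentiableAt.div (by fun_prop) (by fun_prop) (sub_ne_zero.2 (hzζ z hz))
  · intro z hz w hw h
    have h1 : (ζ + z) / (ζ - z) = (ζ + w) / (ζ - w) := mul_left_cancel₀ Complex.I_ne_zero h
    rw [div_eq_div_iff (sub_ne_zero.2 (hzζ z hz)) (sub_ne_zero.2 (hzζ w hw))] at h1
    have h2 : (2 * ζ) * (z - w) = 0 := by linear_combination h1
    rcases mul_eq_zero.1 h2 with h3 | h3
    · exact absurd h3 (mul_ne_zero two_ne_zero hζ0)
    · exact sub_eq_zero.1 h3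
  · apply Subset.antisymm
    · rintro _ ⟨z, hz, rfl⟩
      change 0 < (Complex.I * ((ζ + z) / (ζ - z))).im
      rw [him z (hzζ z hz)]
      have hz' : ‖z‖ < 1 := by rwa [mem_ball_zero_iff] at hz
      exact div_pos (by linarith [normSq_lt_one hz'])
        (Complex.normSq_pos.2 (sub_ne_zero.2 (hzζ z hz)))
    · intro w hw
      have hw' : 0 < w.im := hw
      have hIw : Complex.I + w ≠ 0 := by
        intro h
        have := congrArg Complex.im h
        rw [Complex.add_im, Complex.I_im, Complex.zero_im] at this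
        linarith
      set z : ℂ := ζ * (w - Complex.I) / (Complex.I + w) with hz
      have hzz : z * (Complex.I + w) = ζ * (w - Complex.I) := div_mul_cancel₀ _ hIw
      have hzne : ζ ≠ z := by
        intro h
        rw [← h] at hzz
        have : ζ * (2 * Complex.I) = 0 := by linear_combination hzz
        rcases mul_eq_zero.1 this with h3 | h3
        · exact hζ0 h3
        · exact absurd h3 (mul_ne_zero two_ne_zero Complex.I_ne_zero)
      have hMz : Complex.I * ((ζ + z) / (ζ - z)) = w := by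
        rw [mul_div_assoc', div_eq_iff (sub_ne_zero.2 hzne)]
        linear_combination hzz
      refine ⟨z, ?_, hMz⟩
      have h1 := him z hzne
      rw [hMz] at h1
      have hpos : 0 < Complex.normSq (ζ - z) := Complex.normSq_pos.2 (sub_ne_zero.2 hzne)
      have h3 : 0 < 1 - Complex.normSq z := by
        have h4 : 1 - Complex.normSq z = w.im * Complex.normSq (ζ - z) := by
          rw [h1, div_mul_cancel₀ _ hpos.ne']
        rw [h4]
        exact mul_pos hw' hpos
      rw [mem_ball_zero_iff]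
      rw [Complex.normSq_eq_norm_sq] at h3
      have h4 : ‖z‖ ^ 2 < 1 ^ 2 := by linarith
      exact lt_of_pow_lt_pow_left₀ 2 zero_le_one h4

/-- Classification of the fixed point free automorphisms of the unit disc, in the form of a
conjugation to a translation of the upper half plane or of the strip `0 < Im < π`. -/
theorem disc_aut_conj {A : ℂ → ℂ} (hA : DifferentiableOn ℂ A (Metric.ball 0 1))
    (hinj : Set.InjOn A (Metric.ball 0 1))
    (himg : A '' Metric.ball 0 1 = Metric.ball 0 1)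
    (hfix : ∀ z ∈ Metric.ball (0 : ℂ) 1, A z ≠ z) :
    ∃ (B : ℂ → ℂ) (b : ℝ), b ≠ 0 ∧ DifferentiableOn ℂ B (Metric.ball 0 1) ∧
      Set.InjOn B (Metric.ball 0 1) ∧
      (B '' Metric.ball 0 1 = {w : ℂ | 0 < w.im} ∨
        B '' Metric.ball 0 1 = {w : ℂ | 0 < w.im ∧ w.im < Real.pi}) ∧
      ∀ z ∈ Metric.ball (0 : ℂ) 1, B (A z) = B z + b := by
  obtain ⟨a, c, ha, hc, hAz⟩ := exists_mob hA hinj himg
  have hmaps : MapsTo A (ball 0 1) (ball 0 1) := by
    intro z hz
    rw [← himg]
    exact mem_image_of_mem A hz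
  have ha0 : a ≠ 0 := by
    rintro rfl
    apply hfix 0 (mem_ball_self one_pos)
    rw [hAz 0 (mem_ball_self one_pos)]
    simp [mob]
  have hca0 : conj a ≠ 0 := (map_ne_zero _).2 ha0
  -- the two roots
  obtain ⟨s, hs⟩ : ∃ s : ℂ, s ^ 2 = (c - 1) ^ 2 + 4 * (conj a * (c * a)) :=
    ⟨_, Complex.cpow_nat_inv_pow _ two_ne_zero⟩
  set z₁ : ℂ := (-(c - 1) + s) / (2 * conj a) with hz₁
  set z₂ : ℂ := (-(c - 1) - s) / (2 * conj a) with hz₂
  have h2a : 2 * conj a ≠ 0 := mul_ne_zero two_ne_zero hca0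
  have e1 : z₁ * (2 * conj a) = -(c - 1) + s := div_mul_cancel₀ _ h2a
  have e2 : z₂ * (2 * conj a) = -(c - 1) - s := div_mul_cancel₀ _ h2a
  have hsum : conj a * (z₁ + z₂) = -(c - 1) := by linear_combination (e1 + e2) / 2
  have hprod : conj a * (z₁ * z₂) = -(c * a) := by
    apply mul_left_cancel₀ (mul_ne_zero (by norm_num : (4 : ℂ) ≠ 0) hca0)
    have h1 : (z₁ * (2 * conj a)) * (z₂ * (2 * conj a)) = (-(c - 1) + s) * (-(c - 1) - s) := by
      rw [e1, e2]
    linear_combination h1 - hs
  have hfact : ∀ z, conj a * z ^ 2 + (c - 1) * z - c * a = conj a * ((z - z₁) * (z - z₂)) := by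
    intro z
    linear_combination z * hsum - hprod
  have hroot : ∀ z, conj a * z ^ 2 + (c - 1) * z - c * a = 0 → 1 ≤ ‖z‖ := by
    intro z hz
    by_contra hlt
    rw [not_le] at hlt
    have hzb : z ∈ ball (0 : ℂ) 1 := by rwa [mem_ball_zero_iff]
    apply hfix z hzb
    rw [hAz z hzb, mob, mul_div_assoc', div_eq_iff (denom_ne ha hlt.le)]
    linear_combination hz
  have hr1 : conj a * z₁ ^ 2 + (c - 1) * z₁ - c * a = 0 := by
    rw [hfact]; ring
  have hr2 : conj a * z₂ ^ 2 + (c - 1) * z₂ - c * a = 0 := by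
    rw [hfact]; ring
  have hnorm : ‖z₁‖ * ‖z₂‖ = 1 := by
    have h1 := congrArg norm hprod
    rw [norm_mul, norm_mul, norm_neg, norm_mul, hc, one_mul, Complex.norm_conj] at h1
    have h2 : ‖a‖ ≠ 0 := norm_ne_zero_iff.2 ha0
    apply mul_left_cancel₀ h2
    rw [h1, mul_one]
  have hge1 := hroot z₁ hr1
  have hge2 := hroot z₂ hr2
  have hn1 : ‖z₁‖ = 1 := by nlinarith
  have hn2 : ‖z₂‖ = 1 := by nlinarith
  -- useful formula
  have hdiff : ∀ z ∈ ball (0 : ℂ) 1, ∀ r : ℂ, conj a * r ^ 2 + (c - 1) * r - c * a = 0 →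
      A z - r = (c + conj a * r) * (z - r) / (1 - conj a * z) := by
    intro z hz r hr
    have hz' : ‖z‖ < 1 := by rwa [mem_ball_zero_iff] at hz
    have hd := denom_ne ha hz'.le
    rw [hAz z hz, mob, eq_div_iff hd]
    have h1 : (z - a) / (1 - conj a * z) * (1 - conj a * z) = z - a := div_mul_cancel₀ _ hd
    linear_combination c * h1 + hr
  have hcne : ∀ r : ℂ, ‖r‖ = 1 → c + conj a * r ≠ 0 := by
    intro r hr h
    have h1 : c = -(conj a * r) := eq_neg_of_add_eq_zero_left h
    have h2 := congrArg norm h1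
    rw [norm_neg, norm_mul, Complex.norm_conj, hr, mul_one, hc] at h2
    linarith
  by_cases hne : z₁ = z₂
  · -- parabolic case
    obtain ⟨hMd, hMi, hM⟩ := parabolic z₁ hn1
    have hzne : ∀ z ∈ ball (0 : ℂ) 1, z₁ - z ≠ 0 := by
      intro z hz h
      rw [sub_eq_zero] at h
      rw [mem_ball_zero_iff, ← h, hn1] at hz
      exact absurd hz (lt_irrefl _)
    have hdz : (1 : ℂ) - conj a * z₁ ≠ 0 := denom_ne ha hn1.le
    have hdouble : c + conj a * z₁ = 1 - conj a * z₁ := by
      rw [← hne] at hsum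
      linear_combination hsum
    set β : ℂ := 2 * Complex.I * z₁ * conj a / (1 - conj a * z₁) with hβ
    have hβ' : β * (1 - conj a * z₁) = 2 * Complex.I * z₁ * conj a := div_mul_cancel₀ _ hdz
    have hconj : ∀ z ∈ ball (0 : ℂ) 1,
        Complex.I * ((z₁ + A z) / (z₁ - A z)) = Complex.I * ((z₁ + z) / (z₁ - z)) + β := by
      intro z hz
      have hz' : ‖z‖ < 1 := by rwa [mem_ball_zero_iff] at hz
      have hd := denom_ne ha hz'.le
      have h1 := hdiff z hz z₁ hr1
      rw [hdouble, eq_div_iff hd] at h1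
      have hA1 := hzne _ (hmaps hz)
      have hz1 := hzne z hz
      -- multiply out
      have key : Complex.I * (z₁ + A z) * (z₁ - z) =
          (Complex.I * (z₁ + z) + β * (z₁ - z)) * (z₁ - A z) := by
        -- use `(A z - z₁) D = (1 - ā z₁)(z - z₁)`
        apply mul_left_cancel₀ (mul_ne_zero hd hdz)
        linear_combination (Complex.I * (z₁ - z) * (1 - conj a * z₁) +
          (Complex.I * (z₁ + z) + β * (z₁ - z)) * (1 - conj a * z₁)) * h1 -
          (z₁ - z) * (1 - conj a * z₁) * (z₁ - z) * hβ'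
      rw [mul_div_assoc', mul_div_assoc', div_add' _ _ _ hz1, div_eq_div_iff hA1 hz1]
      exact key
    have hβ0 : β ≠ 0 := by
      have hz10 : z₁ ≠ 0 := by
        intro h; rw [h, norm_zero] at hn1; exact zero_ne_one hn1
      rw [hβ]
      exact div_ne_zero (mul_ne_zero (mul_ne_zero (mul_ne_zero two_ne_zero Complex.I_ne_zero)
        hz10) hca0) hdz
    have hβim : β.im = 0 := by
      rcases lt_trichotomy β.im 0 with hlt | heq | hgt
      · exfalso
        have hw : (((-(β.im) / 2 : ℝ) : ℂ) * Complex.I) ∈ uhp := by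
          change 0 < (((-(β.im) / 2 : ℝ) : ℂ) * Complex.I).im
          simp
          linarith
        rw [← hM] at hw
        obtain ⟨z, hz, hMz⟩ := hw
        have h1 : Complex.I * ((z₁ + A z) / (z₁ - A z)) ∈ uhp := by
          rw [← hM]; exact mem_image_of_mem _ (hmaps hz)
        rw [hconj z hz] at h1
        have h2 : 0 < (Complex.I * ((z₁ + z) / (z₁ - z)) + β).im := h1
        have h3 : Complex.I * ((z₁ + z) / (z₁ - z)) = ((-(β.im) / 2 : ℝ) : ℂ) * Complex.I := hMz
        rw [h3] at h2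
        simp at h2
        linarith
      · exact heq
      · exfalso
        have hw : (((β.im / 2 : ℝ) : ℂ) * Complex.I) ∈ uhp := by
          change 0 < (((β.im / 2 : ℝ) : ℂ) * Complex.I).im
          simp
          linarith
        rw [← hM] at hw
        obtain ⟨z, hz, hMz⟩ := hw
        rw [← himg] at hz
        obtain ⟨z', hz', rfl⟩ := hz
        have h1 : Complex.I * ((z₁ + z') / (z₁ - z')) ∈ uhp := by
          rw [← hM]; exact mem_image_of_mem _ hz'
        have h2 : 0 < (Complex.I * ((z₁ + z') / (z₁ - z'))).im := h1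
        have h3 : Complex.I * ((z₁ + A z') / (z₁ - A z')) =
          ((β.im / 2 : ℝ) : ℂ) * Complex.I := hMz
        rw [hconj z' hz'] at h3
        have h4 := congrArg Complex.im h3
        rw [Complex.add_im] at h4
        simp only [Complex.mul_im, Complex.ofReal_re, Complex.I_im, Complex.ofReal_im,
          Complex.I_re, mul_one, mul_zero, add_zero, zero_add, zero_mul] at h4 h2
        linarith
    have hβr : β = ((β.re : ℝ) : ℂ) := by
      apply Complex.ext
      · simp
      · simpa using hβim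
    refine ⟨fun z => Complex.I * ((z₁ + z) / (z₁ - z)), β.re, ?_, hMd, hMi, Or.inl hM, ?_⟩
    · intro h
      apply hβ0
      rw [hβr, h, Complex.ofReal_zero]
    · intro z hz
      rw [← hβr]
      exact hconj z hz
  · -- hyperbolic case
    obtain ⟨κ, hκ0, hMd, hMi, hM⟩ := hyperbolic z₁ z₂ hn1 hn2 hne
    have h2ne : ∀ z ∈ ball (0 : ℂ) 1, z - z₂ ≠ 0 := by
      intro z hz h
      rw [sub_eq_zero] at h
      rw [mem_ball_zero_iff, h, hn2] at hz
      exact absurd hz (lt_irrefl _)
    have hconj : ∀ z ∈ ball (0 : ℂ) 1, κ * ((A z - z₁) / (A z - z₂)) =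
        ((c + conj a * z₁) / (c + conj a * z₂)) * (κ * ((z - z₁) / (z - z₂))) := by
      intro z hz
      have hz' : ‖z‖ < 1 := by rwa [mem_ball_zero_iff] at hz
      have hd := denom_ne ha hz'.le
      rw [hdiff z hz z₁ hr1, hdiff z hz z₂ hr2]
      rw [div_div_div_cancel_right₀ hd, mul_div_mul_comm]
      ring
    have hlam : (c + conj a * z₁) / (c + conj a * z₂) ≠ 1 := by
      intro h
      rw [div_eq_one_iff_eq (hcne z₂ hn2)] at h
      have h1 : conj a * (z₁ - z₂) = 0 := by linear_combination h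
      rcases mul_eq_zero.1 h1 with h3 | h3
      · exact hca0 h3
      · exact hne (sub_eq_zero.1 h3)
    obtain ⟨B, b, hb, hBd, hBi, hB, hBA⟩ := to_strip hMd hMi hM _ hlam hconj hmaps
    exact ⟨B, b, hb, hBd, hBi, Or.inr hB, hBA⟩

end Pool.Agent.DiscAut
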