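import Mathlib
import Pool.Agent.Work.MP_a78000_an.RMT
import Pool.Agent.Work.MP_a78000_an.DiscAut
import Pool.Agent.Work.MP_a78000_an.HolInv

/-!
Helper file for the disproof of MP_a78000_an.
Uniformisation of ring domains.
-/

set_option autoImplicit false

open Complex Set Filter Topology

namespace Pool.Agent.A78

private lemma two_pi_I_ne : (2 * Real.pi * I : ℂ) ≠ 0 := by simp [Real.pi_ne_zero]

lemma per_int {V : Set ℂ} (hper : ∀ z, z ∈ V ↔ z + 2 * Real.pi * I ∈ V) (z : ℂ) (n : ℤ) :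
    z + n * (2 * Real.pi * I) ∈ V ↔ z ∈ V := by
  induction n using Int.induction_on with
  | zero => simp
  | succ k ih =>
    have e : z + ((k : ℤ) + 1 : ℤ) * (2 * Real.pi * I)
        = (z + (k : ℤ) * (2 * Real.pi * I)) + 2 * Real.pi * I := by push_cast; ring
    rw [e, ← hper, ih]
  | pred k ih =>
    have e : (z + (-(k : ℤ) - 1 : ℤ) * (2 * Real.pi * I)) + 2 * Real.pi * I
        = z + (-(k : ℤ) : ℤ) * (2 * Real.pi * I) := by push_cast; ring
    rw [hper, e, ih]

lemma fun_per_int {V : Set ℂ} (hper : ∀ z, z ∈ V ↔ z + 2 * Real.pi * I ∈ V) {W : ℂ → ℂ} {b : ℂ}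
    (hW : ∀ z ∈ V, W (z + 2 * Real.pi * I) = W z + b) (z : ℂ) (hz : z ∈ V) (n : ℤ) :
    W (z + n * (2 * Real.pi * I)) = W z + n * b := by
  induction n using Int.induction_on with
  | zero => simp
  | succ k ih =>
    have e : z + ((k : ℤ) + 1 : ℤ) * (2 * Real.pi * I)
        = (z + (k : ℤ) * (2 * Real.pi * I)) + 2 * Real.pi * I := by push_cast; ring
    rw [e, hW _ ((per_int hper z _).mpr hz), ih]
    push_cast; ring
  | pred k ih =>
    have e : (z + (-(k : ℤ) - 1 : ℤ) * (2 * Real.pi * I)) + 2 * Real.pi * I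
        = z + (-(k : ℤ) : ℤ) * (2 * Real.pi * I) := by push_cast; ring
    have h1 := hW _ ((per_int hper z (-(k : ℤ) - 1)).mpr hz)
    rw [e, ih] at h1
    have h2 : W (z + (-(k : ℤ) - 1 : ℤ) * (2 * Real.pi * I)) = W z + (-(k : ℤ) : ℤ) * b - b := by
      rw [h1]; ring
    rw [h2]; push_cast; ring

/-- Uniformisation of a ring domain, given its universal cover `V` in logarithmic coordinates. -/
theorem ring_uniformization {V : Set ℂ} (hVo : IsOpen V) (hV : IsSimplyConnected V)
    (hne : V ≠ univ) (hper : ∀ z, z ∈ V ↔ z + 2 * Real.pi * I ∈ V) :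
    ∃ (rs : ℝ) (ψ : ℂ → ℂ), 0 ≤ rs ∧ rs < 1 ∧ DifferentiableOn ℂ ψ (Complex.exp '' V) ∧
      InjOn ψ (Complex.exp '' V) ∧ ψ '' (Complex.exp '' V) = {z : ℂ | rs < ‖z‖ ∧ ‖z‖ < 1} := by
  obtain ⟨Φ, hΦd, hΦi, hΦs⟩ := Pool.Agent.RMT.riemann_mapping hVo hV hne
  set Φi : ℂ → ℂ := Function.invFunOn Φ V with hΦidef
  have hΦid : DifferentiableOn ℂ Φi (Metric.ball 0 1) := by
    have := Pool.Agent.HolInv.differentiableOn_inv hVo hΦd hΦi
    rwa [hΦs] at this
  have hΦim : ∀ z ∈ Metric.ball (0:ℂ) 1, Φi z ∈ V ∧ Φ (Φi z) = z := by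
    intro z hz
    have : ∃ a ∈ V, Φ a = z := by
      rw [← hΦs] at hz; exact hz
    exact ⟨Function.invFunOn_mem this, Function.invFunOn_eq this⟩
  have hΦm : ∀ z ∈ V, Φ z ∈ Metric.ball (0:ℂ) 1 := by
    intro z hz; rw [← hΦs]; exact ⟨z, hz, rfl⟩
  have hΦii : ∀ z ∈ V, Φi (Φ z) = z := fun z hz => hΦi.leftInvOn_invFunOn hz
  set A : ℂ → ℂ := fun z => Φ (Φi z + 2 * Real.pi * I) with hAdef
  have hAd : DifferentiableOn ℂ A (Metric.ball 0 1) := by
    apply hΦd.comp (hΦid.add_const _)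
    intro z hz
    exact (hper _).mp (hΦim z hz).1
  have hAi : InjOn A (Metric.ball 0 1) := by
    intro z hz w hw e
    have h1 := hΦi ((hper _).mp (hΦim z hz).1) ((hper _).mp (hΦim w hw).1) e
    have h2 : Φi z = Φi w := by linear_combination h1
    rw [← (hΦim z hz).2, ← (hΦim w hw).2, h2]
  have hAs : A '' Metric.ball 0 1 = Metric.ball 0 1 := by
    apply Subset.antisymm
    · rintro _ ⟨z, hz, rfl⟩
      exact hΦm _ ((hper _).mp (hΦim z hz).1)
    · intro w hw
      have h1 : Φi w - 2 * Real.pi * I ∈ V := by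
        rw [hper]; simpa using (hΦim w hw).1
      refine ⟨Φ (Φi w - 2 * Real.pi * I), hΦm _ h1, ?_⟩
      simp only [hAdef]
      rw [hΦii _ h1, sub_add_cancel, (hΦim w hw).2]
  have hAf : ∀ z ∈ Metric.ball (0:ℂ) 1, A z ≠ z := by
    intro z hz e
    have h1 : Φ (Φi z + 2 * Real.pi * I) = Φ (Φi z) := by rw [(hΦim z hz).2]; exact e
    have h2 := hΦi ((hper _).mp (hΦim z hz).1) (hΦim z hz).1 h1
    have h3 : (2 * Real.pi * I : ℂ) = 0 := by linear_combination h2
    exact two_pi_I_ne h3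
  obtain ⟨B, b, hb, hBd, hBi, hBs, hBA⟩ := Pool.Agent.DiscAut.disc_aut_conj hAd hAi hAs hAf
  set W : ℂ → ℂ := fun z => B (Φ z) with hWdef
  have hWd : DifferentiableOn ℂ W V := hBd.comp hΦd hΦm
  have hWi : InjOn W V := by
    intro z hz w hw e
    exact hΦi hz hw (hBi (hΦm z hz) (hΦm w hw) e)
  have hWs : W '' V = B '' Metric.ball 0 1 := by
    rw [← hΦs, image_image]
  have hWp : ∀ z ∈ V, W (z + 2 * Real.pi * I) = W z + b := by
    intro z hz
    simp only [hWdef]
    have := hBA (Φ z) (hΦm z hz)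
    simp only [hAdef] at this
    rw [hΦii z hz] at this
    exact this
  obtain ⟨β, hβ⟩ : ∃ β : ℝ, β = |b| := ⟨_, rfl⟩
  have hb' : 0 < β := by rw [hβ]; exact abs_pos.mpr hb
  have hbC : ((β : ℝ) : ℂ) ≠ 0 := by exact_mod_cast hb'.ne'
  set c : ℂ := 2 * Real.pi * I / β with hc
  obtain ⟨σ, hσ, hσ2⟩ : ∃ σ : ℤ, (b : ℂ) = σ * β ∧ σ * σ = 1 := by
    rcases lt_or_gt_of_ne hb with h | h
    · exact ⟨-1, by rw [hβ, abs_of_neg h]; push_cast; ring, by norm_num⟩
    · exact ⟨1, by rw [hβ, abs_of_pos h]; push_cast; ring, by norm_num⟩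
  set ψ0 : ℂ → ℂ := fun z => Complex.exp (c * W z) with hψ0
  have hψ0p : ∀ z ∈ V, ∀ n : ℤ, ψ0 (z + n * (2 * Real.pi * I)) = ψ0 z := by
    intro z hz n
    simp only [hψ0]
    rw [fun_per_int hper hWp z hz n, hσ]
    have : c * (W z + n * (σ * β)) = c * W z + ((n * σ : ℤ) : ℂ) * (2 * Real.pi * I) := by
      rw [hc]; push_cast; field_simp
    rw [this, Complex.exp_add, Complex.exp_int_mul_two_pi_mul_I, mul_one]
  have hψ0i : ∀ z ∈ V, ∀ w ∈ V, ψ0 z = ψ0 w → Complex.exp z = Complex.exp w := by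
    intro z hz w hw e
    obtain ⟨n, hn⟩ := Complex.exp_eq_exp_iff_exists_int.mp e
    have h1 : W z = W w + n * β := by
      have h2 : c * (W z - W w - n * β) = 0 := by
        have : c * (β : ℂ) = 2 * Real.pi * I := by rw [hc]; field_simp
        linear_combination hn - n * this
      have hc0 : c ≠ 0 := div_ne_zero two_pi_I_ne hbC
      have h3 := (mul_eq_zero.mp h2).resolve_left hc0
      linear_combination h3
    have h4 : W z = W (w + ((n * σ : ℤ) : ℂ) * (2 * Real.pi * I)) := by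
      rw [fun_per_int hper hWp w hw, h1, hσ]
      have h5 : ((σ * σ : ℤ) : ℂ) = 1 := by rw [hσ2]; simp
      push_cast at h5 ⊢
      linear_combination (-(n : ℂ) * β) * h5
    have h5 := hWi hz ((per_int hper w _).mpr hw) h4
    rw [h5, Complex.exp_add, Complex.exp_int_mul_two_pi_mul_I, mul_one]
  have hlogV : ∀ z ∈ V, Complex.log (Complex.exp z) ∈ V ∧ ψ0 (Complex.log (Complex.exp z)) = ψ0 z := by
    intro z hz
    have h1 : Complex.exp (Complex.log (Complex.exp z)) = Complex.exp z :=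
      Complex.exp_log (Complex.exp_ne_zero z)
    obtain ⟨n, hn⟩ := Complex.exp_eq_exp_iff_exists_int.mp h1
    rw [hn]
    exact ⟨(per_int hper z n).mpr hz, hψ0p z hz n⟩
  have hψ0d : DifferentiableOn ℂ ψ0 V := (hWd.const_mul c).cexp
  -- the norm of `ψ0`
  have hnorm : ∀ w : ℂ, ‖Complex.exp (c * w)‖ = Real.exp (-(2 * Real.pi * w.im / β)) := by
    intro w
    rw [Complex.norm_exp]
    congr 1
    have : c * w = ((2 * Real.pi / β : ℝ) : ℂ) * (I * w) := by
      rw [hc]; push_cast; ring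
    rw [this, Complex.re_ofReal_mul, Complex.I_mul_re]
    ring
  obtain ⟨rs, hrs0, hrs1, hrs⟩ : ∃ rs : ℝ, 0 ≤ rs ∧ rs < 1 ∧
      (fun w => Complex.exp (c * w)) '' (B '' Metric.ball 0 1) = {z : ℂ | rs < ‖z‖ ∧ ‖z‖ < 1} := by
    have hsol : ∀ z : ℂ, z ≠ 0 → ∃ w : ℂ, Complex.exp (c * w) = z ∧
        Real.log ‖z‖ = -(2 * Real.pi * w.im / β) := by
      intro z hz
      have hc0 : c ≠ 0 := div_ne_zero two_pi_I_ne hbC
      refine ⟨Complex.log z / c, ?_, ?_⟩
      · rw [mul_div_cancel₀ _ hc0, Complex.exp_log hz]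
      · have h1 := hnorm (Complex.log z / c)
        rw [mul_div_cancel₀ _ hc0, Complex.exp_log hz] at h1
        rw [h1, Real.log_exp]
    have hpi := Real.pi_pos
    rcases hBs with h | h
    · refine ⟨0, le_rfl, one_pos, ?_⟩
      rw [h]
      ext z
      constructor
      · rintro ⟨w, hw, rfl⟩
        have hw' : 0 < w.im := hw
        refine ⟨norm_pos_iff.mpr (Complex.exp_ne_zero _), ?_⟩
        simp only [hnorm]
        rw [Real.exp_lt_one_iff]
        have : 0 < 2 * Real.pi * w.im / β := by positivity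
        linarith
      · rintro ⟨hz1, hz2⟩
        obtain ⟨w, hw1, hw2⟩ := hsol z (norm_pos_iff.mp hz1)
        refine ⟨w, ?_, hw1⟩
        show 0 < w.im
        have h1 : Real.log ‖z‖ < 0 := Real.log_neg hz1 hz2
        rw [hw2] at h1
        by_contra hcon
        push Not at hcon
        have : 2 * Real.pi * w.im / β ≤ 0 := by
          apply div_nonpos_of_nonpos_of_nonneg _ hb'.le
          nlinarith
        linarith
    · refine ⟨Real.exp (-(2 * Real.pi * Real.pi / β)), (Real.exp_pos _).le, ?_, ?_⟩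
      · rw [Real.exp_lt_one_iff]
        have : 0 < 2 * Real.pi * Real.pi / β := by positivity
        linarith
      rw [h]
      ext z
      constructor
      · rintro ⟨w, hw, rfl⟩
        have hw' : 0 < w.im ∧ w.im < Real.pi := hw
        refine ⟨?_, ?_⟩
        · simp only [hnorm]
          rw [Real.exp_lt_exp]
          have : 2 * Real.pi * w.im / β < 2 * Real.pi * Real.pi / β := by
            apply div_lt_div_of_pos_right _ hb'
            nlinarith
          linarith
        · simp only [hnorm]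
          rw [Real.exp_lt_one_iff]
          have : 0 < 2 * Real.pi * w.im / β := by
            have := hw'.1
            positivity
          linarith
      · rintro ⟨hz1, hz2⟩
        have hz0 : 0 < ‖z‖ := (Real.exp_pos _).trans hz1
        obtain ⟨w, hw1, hw2⟩ := hsol z (norm_pos_iff.mp hz0)
        refine ⟨w, ?_, hw1⟩
        show 0 < w.im ∧ w.im < Real.pi
        have h1 : Real.log ‖z‖ < 0 := Real.log_neg hz0 hz2
        have h2 : -(2 * Real.pi * Real.pi / β) < Real.log ‖z‖ := by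
          rw [Real.lt_log_iff_exp_lt hz0]; exact hz1
        rw [hw2] at h1 h2
        constructor
        · by_contra hcon
          push Not at hcon
          have : 2 * Real.pi * w.im / β ≤ 0 := by
            apply div_nonpos_of_nonpos_of_nonneg _ hb'.le
            nlinarith
          linarith
        · by_contra hcon
          push Not at hcon
          have : 2 * Real.pi * Real.pi / β ≤ 2 * Real.pi * w.im / β := by
            apply div_le_div_of_nonneg_right _ hb'.le
            nlinarith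
          linarith
  refine ⟨rs, fun w => ψ0 (Complex.log w), hrs0, hrs1, ?_, ?_, ?_⟩
  · rintro _ ⟨ζ, hζ, rfl⟩
    apply DifferentiableAt.differentiableWithinAt
    set w₀ := Complex.exp ζ with hw₀
    have hw₀0 : w₀ ≠ 0 := Complex.exp_ne_zero ζ
    -- local formula
    have hopen : Complex.exp '' V ∈ 𝓝 w₀ :=
      (Complex.isOpenMap_exp V hVo).mem_nhds ⟨ζ, hζ, rfl⟩
    have hloc : (fun w => ψ0 (Complex.log w)) =ᶠ[𝓝 w₀]
        fun w => ψ0 (Complex.log (w / w₀) + ζ) := by
      filter_upwards [hopen] with w hw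
      obtain ⟨ζ', hζ', rfl⟩ := hw
      have h1 : Complex.exp (Complex.log (Complex.exp ζ' / w₀) + ζ) = Complex.exp ζ' := by
        rw [Complex.exp_add, Complex.exp_log (div_ne_zero (Complex.exp_ne_zero _) hw₀0), ← hw₀]
        field_simp
      obtain ⟨n, hn⟩ := Complex.exp_eq_exp_iff_exists_int.mp h1
      rw [hn, hψ0p ζ' hζ' n]
      exact (hlogV ζ' hζ').2
    refine DifferentiableAt.congr_of_eventuallyEq ?_ hloc
    have e : Complex.log (w₀ / w₀) + ζ = ζ := by rw [div_self hw₀0]; simp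
    have h1 : DifferentiableAt ℂ ψ0 (Complex.log (w₀ / w₀) + ζ) := by
      rw [e]; exact hψ0d.differentiableAt (hVo.mem_nhds hζ)
    have h2 : DifferentiableAt ℂ (fun w => Complex.log (w / w₀) + ζ) w₀ := by
      apply DifferentiableAt.add_const
      apply DifferentiableAt.clog (differentiableAt_id.div_const _)
      simp only [id]
      rw [div_self hw₀0]; simp
    exact DifferentiableAt.comp (g := ψ0) (f := fun w => Complex.log (w / w₀) + ζ) w₀ h1 h2
  · rintro _ ⟨ζ, hζ, rfl⟩ _ ⟨ζ', hζ', rfl⟩ e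
    simp only at e
    rw [(hlogV ζ hζ).2, (hlogV ζ' hζ').2] at e
    exact hψ0i ζ hζ ζ' hζ' e
  · rw [← hrs, ← hWs, image_image, image_image]
    ext z
    constructor
    · rintro ⟨ζ, hζ, rfl⟩
      exact ⟨ζ, hζ, (hlogV ζ hζ).2.symm⟩
    · rintro ⟨ζ, hζ, rfl⟩
      exact ⟨ζ, hζ, (hlogV ζ hζ).2⟩

end Pool.Agent.A78
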