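import Mathlib

/-!
Helper file for the disproof of MP_a78000_an.
The auxiliary conformal map `Q` on a strip and its inverse `F`.
-/

set_option autoImplicit false

open Complex Set

namespace Pool.Agent.A78

/-- the auxiliary holomorphic map -/
noncomputable def Q (z : ℂ) : ℂ := z + (1/50) * Complex.sinh (2*z)

/-- closed strip of half-width 1 -/
def strip1 : Set ℂ := {z : ℂ | |z.re| ≤ 1}

lemma convex_strip1 : Convex ℝ strip1 := by
  have : strip1 = Complex.re ⁻¹' (Set.Icc (-1) 1) := by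
    ext z; simp [strip1, abs_le]
  rw [this]
  exact (convex_Icc (-1 : ℝ) 1).linear_preimage Complex.reLm

lemma isClosed_strip1 : IsClosed strip1 := by
  have : strip1 = {z : ℂ | |z.re| ≤ 1} := rfl
  rw [this]
  exact isClosed_le (by fun_prop) (by fun_prop)

lemma cosh_two_lt : Real.cosh 2 < 4 := by
  rw [Real.cosh_eq]
  have h1 : Real.exp 1 < 2.7182818286 := Real.exp_one_lt_d9
  have h2 : Real.exp 2 = Real.exp 1 * Real.exp 1 := by rw [← Real.exp_add]; norm_num
  have h3 : Real.exp (-2) ≤ 1/3 := by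
    rw [Real.exp_neg, inv_eq_one_div]
    apply one_div_le_one_div_of_le (by norm_num)
    have := Real.add_one_le_exp (2:ℝ)
    linarith
  have h4 : 0 < Real.exp 1 := Real.exp_pos 1
  nlinarith

lemma norm_cosh_le (z : ℂ) : ‖Complex.cosh z‖ ≤ Real.cosh z.re := by
  rw [Complex.cosh, Real.cosh_eq, norm_div]
  have h1 : ‖Complex.exp z + Complex.exp (-z)‖ ≤ Real.exp z.re + Real.exp (-z.re) := by
    refine (norm_add_le _ _).trans ?_
    rw [Complex.norm_exp, Complex.norm_exp]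
    simp
  have : ‖(2:ℂ)‖ = 2 := by simp
  rw [this]
  linarith

lemma norm_sinh_le (z : ℂ) : ‖Complex.sinh z‖ ≤ Real.cosh z.re := by
  rw [Complex.sinh, Real.cosh_eq, norm_div]
  have h1 : ‖Complex.exp z - Complex.exp (-z)‖ ≤ Real.exp z.re + Real.exp (-z.re) := by
    refine (norm_sub_le _ _).trans ?_
    rw [Complex.norm_exp, Complex.norm_exp]
    simp
  have : ‖(2:ℂ)‖ = 2 := by simp
  rw [this]
  linarith

lemma cosh_two_re_le {z : ℂ} (hz : z ∈ strip1) : Real.cosh (2*z).re ≤ 4 := by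
  have h : |(2*z).re| ≤ |(2:ℝ)| := by
    have h0 : (2*z).re = 2 * z.re := by simp
    rw [h0, abs_mul]
    have : |z.re| ≤ 1 := hz
    have h2 : |(2:ℝ)| = 2 := by norm_num
    rw [h2]; linarith
  exact ((Real.cosh_le_cosh.mpr h)).trans cosh_two_lt.le

lemma norm_sinh_two_le {z : ℂ} (hz : z ∈ strip1) : ‖Complex.sinh (2*z)‖ ≤ 4 :=
  (norm_sinh_le _).trans (cosh_two_re_le hz)

lemma norm_cosh_two_le {z : ℂ} (hz : z ∈ strip1) : ‖Complex.cosh (2*z)‖ ≤ 4 :=
  (norm_cosh_le _).trans (cosh_two_re_le hz)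

lemma hasDerivAt_sinh_two (z : ℂ) :
    HasDerivAt (fun z : ℂ => Complex.sinh (2*z)) (2 * Complex.cosh (2*z)) z := by
  have h1 : HasDerivAt (fun z : ℂ => 2*z) 2 z := by
    simpa using (hasDerivAt_id z).const_mul (2:ℂ)
  have h2 := (Complex.hasDerivAt_sinh (2*z)).comp z h1
  simpa [mul_comm, Function.comp_def] using h2

lemma sinh_lip {z w : ℂ} (hz : z ∈ strip1) (hw : w ∈ strip1) :
    ‖Complex.sinh (2*z) - Complex.sinh (2*w)‖ ≤ 8 * ‖z - w‖ := by
  have := convex_strip1.norm_image_sub_le_of_norm_hasDerivWithin_le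
    (f := fun z : ℂ => Complex.sinh (2*z)) (f' := fun z => 2 * Complex.cosh (2*z)) (C := 8)
    (fun x hx => (hasDerivAt_sinh_two x).hasDerivWithinAt)
    (fun x hx => by
      rw [norm_mul]
      have := norm_cosh_two_le hx
      have h2 : ‖(2:ℂ)‖ = 2 := by simp
      rw [h2]; linarith) hw hz
  simpa using this

lemma Q_sub_lower {z w : ℂ} (hz : z ∈ strip1) (hw : w ∈ strip1) :
    (4/5) * ‖z - w‖ ≤ ‖Q z - Q w‖ := by
  have h1 : z - w = (Q z - Q w) - (1/50) * (Complex.sinh (2*z) - Complex.sinh (2*w)) := by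
    unfold Q; ring
  have h2 : ‖z - w‖ ≤ ‖Q z - Q w‖ + (1/50) * (8 * ‖z - w‖) := by
    calc ‖z - w‖ = ‖(Q z - Q w) - (1/50) * (Complex.sinh (2*z) - Complex.sinh (2*w))‖ := by
          rw [← h1]
      _ ≤ ‖Q z - Q w‖ + ‖(1/50 : ℂ) * (Complex.sinh (2*z) - Complex.sinh (2*w))‖ :=
          norm_sub_le _ _
      _ ≤ ‖Q z - Q w‖ + (1/50) * (8 * ‖z - w‖) := by
          rw [norm_mul]
          have h3 := sinh_lip hz hw
          have h4 : ‖(1/50 : ℂ)‖ = 1/50 := by norm_num
          rw [h4]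
          gcongr
  nlinarith [norm_nonneg (z - w)]

lemma Q_injOn : InjOn Q strip1 := by
  intro z hz w hw h
  have := Q_sub_lower hz hw
  rw [h, sub_self, norm_zero] at this
  have h2 : ‖z - w‖ = 0 := by nlinarith [norm_nonneg (z - w)]
  exact sub_eq_zero.mp (norm_eq_zero.mp h2)

lemma Q_surj {ω : ℂ} (hω : |ω.re| ≤ 9/10) : ∃ z ∈ strip1, Q z = ω := by
  let T : ℂ → ℂ := fun z => ω - (1/50) * Complex.sinh (2*z)
  have hmaps : MapsTo T strip1 strip1 := by
    intro z hz
    have h1 : ‖(1/50 : ℂ) * Complex.sinh (2*z)‖ ≤ 4/50 := by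
      rw [norm_mul]
      have h3 := norm_sinh_two_le hz
      have h4 : ‖(1/50 : ℂ)‖ = 1/50 := by norm_num
      rw [h4]; linarith
    have h2 := Complex.abs_re_le_norm ((1/50 : ℂ) * Complex.sinh (2*z))
    have h3 : (T z).re = ω.re - ((1/50 : ℂ) * Complex.sinh (2*z)).re := by
      simp only [T, Complex.sub_re]
    show |(T z).re| ≤ 1
    rw [h3]
    have h5 := abs_le.mp hω
    have h6 := abs_le.mp (h2.trans h1)
    rw [abs_le]; constructor <;> linarith
  have hcontr : ContractingWith (1/2 : NNReal) (hmaps.restrict T strip1 strip1) := by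
    refine ⟨by
      have : (1/2 : NNReal) < 1 := by
        rw [← NNReal.coe_lt_coe]; norm_num
      exact this, ?_⟩
    refine LipschitzWith.of_dist_le_mul ?_
    rintro ⟨x, hx⟩ ⟨y, hy⟩
    rw [Subtype.dist_eq, Subtype.dist_eq]
    simp only [MapsTo.val_restrict_apply]
    rw [dist_eq_norm, dist_eq_norm]
    have : T x - T y = -((1/50) * (Complex.sinh (2*x) - Complex.sinh (2*y))) := by
      simp only [T]; ring
    rw [this, norm_neg, norm_mul]
    have h3 := sinh_lip hx hy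
    have h4 : ‖(1/50 : ℂ)‖ = 1/50 := by norm_num
    rw [h4]
    have h5 : ((1/2 : NNReal) : ℝ) = 1/2 := by norm_num
    rw [h5]
    nlinarith [norm_nonneg (x - y)]
  obtain ⟨y, hy, hfix, -⟩ := hcontr.exists_fixedPoint' isClosed_strip1.isComplete hmaps
    (x := 0) (by simp [strip1]) (edist_ne_top _ _)
  refine ⟨y, hy, ?_⟩
  have : T y = y := hfix
  simp only [T] at this
  unfold Q
  linear_combination -this

/-- the inverse of `Q` -/
noncomputable def F (ω : ℂ) : ℂ := Function.invFunOn Q strip1 ω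

/-- The open strip on which we use `F`. -/
def strip9 : Set ℂ := {z : ℂ | |z.re| < 9/10}

lemma isOpen_strip9 : IsOpen strip9 := isOpen_lt (by fun_prop) (by fun_prop)

lemma F_mem {ω : ℂ} (hω : ω ∈ strip9) : F ω ∈ strip1 := by
  have h : ∃ a ∈ strip1, Q a = ω := Q_surj (le_of_lt hω)
  exact Function.invFunOn_mem h

lemma Q_F {ω : ℂ} (hω : ω ∈ strip9) : Q (F ω) = ω := by
  have h : ∃ a ∈ strip1, Q a = ω := Q_surj (le_of_lt hω)
  exact Function.invFunOn_eq h

lemma F_eq_of {ω z : ℂ} (hω : ω ∈ strip9) (hz : z ∈ strip1) (h : Q z = ω) : F ω = z :=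
  Q_injOn (F_mem hω) hz (by rw [Q_F hω, h])

lemma F_lip {ω ω' : ℂ} (hω : ω ∈ strip9) (hω' : ω' ∈ strip9) :
    ‖F ω - F ω'‖ ≤ (5/4) * ‖ω - ω'‖ := by
  have := Q_sub_lower (F_mem hω) (F_mem hω')
  rw [Q_F hω, Q_F hω'] at this
  linarith

lemma F_continuousOn : ContinuousOn F strip9 := by
  have : LipschitzOnWith (5/4 : NNReal) F strip9 := by
    refine LipschitzOnWith.of_dist_le_mul ?_
    intro x hx y hy
    rw [dist_eq_norm, dist_eq_norm]
    have := F_lip hx hy
    have h5 : ((5/4 : NNReal) : ℝ) = 5/4 := by norm_num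
    rw [h5]; exact this
  exact this.continuousOn

lemma F_continuousAt {ω : ℂ} (hω : ω ∈ strip9) : ContinuousAt F ω :=
  F_continuousOn.continuousAt (isOpen_strip9.mem_nhds hω)

lemma Q_hasDerivAt (z : ℂ) : HasDerivAt Q (1 + (1/25) * Complex.cosh (2*z)) z := by
  have h1 := (hasDerivAt_id z).add ((hasDerivAt_sinh_two z).const_mul (1/50 : ℂ))
  have h2 : (1 : ℂ) + 1/50 * (2 * Complex.cosh (2*z)) = 1 + (1/25) * Complex.cosh (2*z) := by ring
  rw [h2] at h1
  exact h1

/-- derivative of `Q` -/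
noncomputable def Q' (z : ℂ) : ℂ := 1 + (1/25) * Complex.cosh (2*z)

lemma Q'_ne_zero {z : ℂ} (hz : z ∈ strip1) : Q' z ≠ 0 := by
  intro h
  unfold Q' at h
  have h1 : (1/25 : ℂ) * Complex.cosh (2*z) = -1 := by linear_combination h
  have h2 : ‖(1/25 : ℂ) * Complex.cosh (2*z)‖ = 1 := by rw [h1]; simp
  rw [norm_mul] at h2
  have h3 := norm_cosh_two_le hz
  have h4 : ‖(1/25 : ℂ)‖ = 1/25 := by norm_num
  rw [h4] at h2
  linarith

lemma F_hasDerivAt {ω : ℂ} (hω : ω ∈ strip9) : HasDerivAt F (Q' (F ω))⁻¹ ω := by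
  refine HasDerivAt.of_local_left_inverse (F_continuousAt hω) (Q_hasDerivAt (F ω))
    (Q'_ne_zero (F_mem hω)) ?_
  filter_upwards [isOpen_strip9.mem_nhds hω] with x hx using Q_F hx

lemma F_differentiableOn : DifferentiableOn ℂ F strip9 :=
  fun _ hω => (F_hasDerivAt hω).differentiableAt.differentiableWithinAt

lemma Q_add_two_pi_I (z : ℂ) : Q (z + 2 * Real.pi * I) = Q z + 2 * Real.pi * I := by
  unfold Q
  have : Complex.sinh (2 * (z + 2 * Real.pi * I)) = Complex.sinh (2*z) := by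
    have h1 : 2 * (z + 2 * (Real.pi:ℂ) * I) = (2*z + 2 * Real.pi * I) + 2 * Real.pi * I := by ring
    rw [h1, Complex.sinh, Complex.sinh]
    have e1 : Complex.exp ((2*z + 2 * Real.pi * I) + 2 * Real.pi * I) = Complex.exp (2*z) := by
      rw [Complex.exp_periodic, Complex.exp_periodic]
    have e2 : Complex.exp (-((2*z + 2 * Real.pi * I) + 2 * Real.pi * I)) = Complex.exp (-(2*z)) := by
      rw [Complex.exp_neg, e1, Complex.exp_neg]
    rw [e1, e2]
  rw [this]; ring

lemma F_add_two_pi_I {ω : ℂ} (hω : ω ∈ strip9) :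
    F (ω + 2 * Real.pi * I) = F ω + 2 * Real.pi * I := by
  have h0 : ω + 2 * Real.pi * I ∈ strip9 := by
    have : (ω + 2 * Real.pi * I).re = ω.re := by simp
    show |(ω + 2 * Real.pi * I).re| < 9/10
    rw [this]; exact hω
  apply F_eq_of h0
  · have : (F ω + 2 * Real.pi * I).re = (F ω).re := by simp
    show |(F ω + 2 * Real.pi * I).re| ≤ 1
    rw [this]; exact F_mem hω
  · rw [Q_add_two_pi_I, Q_F hω]

lemma Q_re (z : ℂ) : (Q z).re = z.re + (1/50) * (Real.sinh (2*z.re) * Real.cos (2*z.im)) := by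
  unfold Q
  have h1 : (Complex.sinh (2*z)).re = Real.sinh (2*z.re) * Real.cos (2*z.im) := by
    rw [show (2*z : ℂ) = ((2*z.re : ℝ) : ℂ) + ((2*z.im : ℝ) : ℂ) * I by
      apply Complex.ext <;> simp]
    rw [Complex.sinh_add, Complex.sinh_mul_I, Complex.cosh_mul_I, ← Complex.ofReal_sinh,
      ← Complex.ofReal_cosh, ← Complex.ofReal_sin, ← Complex.ofReal_cos]
    simp [Complex.add_re, Complex.mul_re, -Complex.ofReal_sinh, -Complex.ofReal_cosh,
      -Complex.ofReal_sin, -Complex.ofReal_cos]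
  have h2 : ((1/50 : ℂ) * Complex.sinh (2*z)).re = (1/50) * (Complex.sinh (2*z)).re := by
    have : (1/50 : ℂ) = ((1/50 : ℝ) : ℂ) := by norm_num
    rw [this, Complex.re_ofReal_mul]
  rw [Complex.add_re, h2, h1]

lemma abs_sinh_two_le {s : ℝ} (hs : |s| ≤ 1) : |Real.sinh (2*s)| ≤ 8 * |s| := by
  have h := sinh_lip (z := (s:ℂ)) (w := 0) (by simpa [strip1] using hs) (by simp [strip1])
  have e1 : Complex.sinh (2 * (s:ℂ)) = ((Real.sinh (2*s) : ℝ) : ℂ) := by
    push_cast; rfl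
  simp only [mul_zero, Complex.sinh_zero, sub_zero] at h
  rw [e1, Complex.norm_real, Complex.norm_real] at h
  exact h

/-- comparison of real parts under `Q` -/
lemma Q_re_bound {z : ℂ} (hz : z ∈ strip1) : |(Q z).re - z.re| ≤ (4/25) * |z.re| := by
  rw [Q_re]
  have h1 := abs_sinh_two_le (s := z.re) hz
  have h2 := Real.abs_cos_le_one (2*z.im)
  have : z.re + (1/50) * (Real.sinh (2*z.re) * Real.cos (2*z.im)) - z.re
    = (1/50) * (Real.sinh (2*z.re) * Real.cos (2*z.im)) := by ring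
  rw [this, abs_mul, abs_mul]
  have h3 : |(1/50 : ℝ)| = 1/50 := by norm_num
  rw [h3]
  have h4 : |Real.sinh (2*z.re)| * |Real.cos (2*z.im)| ≤ 8 * |z.re| * 1 := by
    gcongr
  linarith

lemma F_re_pos {ω : ℂ} (hω : ω ∈ strip9) (h : 0 < ω.re) : 0 < (F ω).re := by
  have h1 := Q_re_bound (F_mem hω)
  rw [Q_F hω] at h1
  by_contra hcon
  push Not at hcon
  rw [abs_of_nonpos hcon] at h1
  have := (abs_le.mp h1).2
  nlinarith

lemma F_re_zero {ω : ℂ} (hω : ω ∈ strip9) (h : ω.re = 0) : (F ω).re = 0 := by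
  have h1 := Q_re_bound (F_mem hω)
  rw [Q_F hω, h, zero_sub, abs_neg] at h1
  have : |(F ω).re| = 0 := by nlinarith [abs_nonneg (F ω).re]
  exact abs_eq_zero.mp this

lemma F_re_nonneg {ω : ℂ} (hω : ω ∈ strip9) (h : 0 ≤ ω.re) : 0 ≤ (F ω).re := by
  rcases h.lt_or_eq with h | h
  · exact (F_re_pos hω h).le
  · exact (F_re_zero hω h.symm).ge

/-- strict inequality on the real axis -/
lemma F_re_lt {t : ℝ} (h0 : 0 < t) (h1 : t < 9/10) : (F t).re < t := by
  have hω : (t:ℂ) ∈ strip9 := by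
    show |((t:ℂ)).re| < 9/10
    rw [Complex.ofReal_re, abs_of_pos h0]; exact h1
  have hF : (F t).im = 0 := by
    have hc : (starRingEnd ℂ) (F t) = F t := by
      symm
      apply F_eq_of hω
      · show |((starRingEnd ℂ) (F t)).re| ≤ 1
        rw [Complex.conj_re]; exact F_mem hω
      · have : Q ((starRingEnd ℂ) (F t)) = (starRingEnd ℂ) (Q (F t)) := by
          unfold Q
          rw [map_add, map_mul, ← Complex.sinh_conj, map_mul, map_div₀, map_one,
            map_ofNat, map_ofNat]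
        rw [this, Q_F hω, Complex.conj_ofReal]
    exact Complex.conj_eq_iff_im.mp hc
  have h2 := Q_re (F t)
  rw [Q_F hω, hF] at h2
  simp only [Complex.ofReal_re, mul_zero, Real.cos_zero, mul_one] at h2
  have h3 := F_re_pos hω (by simpa using h0)
  have h4 : 0 < Real.sinh (2 * (F t).re) := by
    rw [Real.sinh_pos_iff]; linarith
  linarith

end Pool.Agent.A78
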