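import Mathlib
import Pool.Agent.Work.MP_a78000_an.Basic

/-!
Helper file for the disproof of MP_a78000_an.
The explicit harmonic map `H` in the Gauss map coordinate and its injectivity.
-/

set_option autoImplicit false

open Complex Set

namespace Pool.Agent.A78

/-- holomorphic part -/
noncomputable def fH (z : ℂ) : ℂ :=
  Complex.exp z + (1/150) * Complex.exp (3*z) - (1/50) * Complex.exp (-z)

/-- antiholomorphic part (to be conjugated) -/
noncomputable def gH (z : ℂ) : ℂ :=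
  Complex.exp (-z) - (1/50) * Complex.exp z + (1/150) * Complex.exp (-(3*z))

/-- the harmonic map in the Gauss map coordinate -/
noncomputable def H (z : ℂ) : ℂ := fH z + (starRingEnd ℂ) (gH z)

/-- auxiliary point -/
noncomputable def wpt (z : ℂ) : ℂ := (Real.cosh z.re : ℂ) * Complex.exp ((z.im : ℂ) * I)

/-- the perturbation -/
noncomputable def kap (w : ℂ) : ℂ := -2 * (starRingEnd ℂ) w + (8/3) * w^3 - 2 * (w^2 / (starRingEnd ℂ) w)

lemma norm_wpt (z : ℂ) : ‖wpt z‖ = Real.cosh z.re := by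
  unfold wpt
  rw [norm_mul, Complex.norm_exp_ofReal_mul_I, mul_one, Complex.norm_real, Real.norm_eq_abs,
    abs_of_pos (Real.cosh_pos _)]

lemma wpt_ne_zero (z : ℂ) : wpt z ≠ 0 := by
  rw [← norm_pos_iff, norm_wpt]; exact Real.cosh_pos _

lemma H_eq (z : ℂ) : H z = 2 * (wpt z + (1/100) * kap (wpt z)) := by
  set E : ℂ := Complex.exp ((z.im : ℂ) * I) with hE
  set a : ℂ := Complex.exp (z.re : ℂ) with ha
  set b : ℂ := Complex.exp (-(z.re : ℂ)) with hb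
  set E' : ℂ := Complex.exp (-((z.im : ℂ) * I)) with hE'
  have hab : a * b = 1 := by rw [ha, hb, ← Complex.exp_add]; simp
  have hEE : E * E' = 1 := by rw [hE, hE', ← Complex.exp_add]; simp
  have hz : z = (z.re : ℂ) + (z.im : ℂ) * I := (Complex.re_add_im z).symm
  have e1 : Complex.exp z = a * E := by
    rw [ha, hE, ← Complex.exp_add, ← hz]
  have e2 : Complex.exp (-z) = b * E' := by
    rw [hb, hE', ← Complex.exp_add]; congr 1
    calc -z = -((z.re : ℂ) + (z.im : ℂ) * I) := by rw [← hz]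
      _ = _ := by ring
  have e3 : Complex.exp (3*z) = a^3 * E^3 := by
    rw [← mul_pow, ← e1, ← Complex.exp_nat_mul]; norm_num
  have e4 : Complex.exp (-(3*z)) = b^3 * E'^3 := by
    rw [← mul_pow, ← e2, ← Complex.exp_nat_mul]; congr 1; push_cast; ring
  have ca : (starRingEnd ℂ) a = a := by
    rw [ha, ← Complex.ofReal_exp, Complex.conj_ofReal]
  have cb : (starRingEnd ℂ) b = b := by
    rw [hb, ← Complex.ofReal_neg, ← Complex.ofReal_exp, Complex.conj_ofReal]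
  have cE : (starRingEnd ℂ) E = E' := by
    rw [hE, hE', ← Complex.exp_conj]; simp
  have cE' : (starRingEnd ℂ) E' = E := by
    rw [← cE, Complex.conj_conj]
  have hc : (Real.cosh z.re : ℂ) = (a + b) / 2 := by
    rw [Complex.ofReal_cosh, Complex.cosh]
  have hw : wpt z = (a + b) / 2 * E := by
    unfold wpt; rw [hc]
  have hcw : (starRingEnd ℂ) (wpt z) = (a + b) / 2 * E' := by
    rw [hw, map_mul, map_div₀, map_add, ca, cb, cE, map_ofNat]
  have hE'0 : E' ≠ 0 := Complex.exp_ne_zero _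
  have hE0 : E ≠ 0 := Complex.exp_ne_zero _
  have hab0 : a + b ≠ 0 := by
    have h1 := wpt_ne_zero z
    rw [hw] at h1
    intro h; rw [h] at h1; simp at h1
  have hquot : (wpt z)^2 / (starRingEnd ℂ) (wpt z) = (a+b)/2 * E^3 := by
    rw [hcw, hw, div_eq_iff (mul_ne_zero (div_ne_zero hab0 two_ne_zero) hE'0)]
    linear_combination (-(a+b)^2/4 * E^2) * hEE
  unfold H fH gH kap
  rw [hquot, hcw, hw, e1, e2, e3, e4]
  simp only [map_add, map_sub, map_mul, map_div₀, map_one, map_ofNat, map_pow, ca, cb, cE, cE']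
  linear_combination (-(1/50) * (a+b) * E^3) * hab

lemma kap_lip {w w' : ℂ} (h1 : 1 ≤ ‖w‖) (h2 : ‖w‖ ≤ 2) (h1' : 1 ≤ ‖w'‖) (h2' : ‖w'‖ ≤ 2) :
    ‖kap w - kap w'‖ ≤ 58 * ‖w - w'‖ := by
  have hw : w ≠ 0 := by rw [← norm_pos_iff]; linarith
  have hw' : w' ≠ 0 := by rw [← norm_pos_iff]; linarith
  have hcw : (starRingEnd ℂ) w ≠ 0 := (map_ne_zero _).mpr hw
  have hcw' : (starRingEnd ℂ) w' ≠ 0 := (map_ne_zero _).mpr hw'
  have a1 : ‖(starRingEnd ℂ) w - (starRingEnd ℂ) w'‖ = ‖w - w'‖ := by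
    rw [← map_sub, RCLike.norm_conj]
  have a2 : ‖w^3 - w'^3‖ ≤ 12 * ‖w - w'‖ := by
    have : w^3 - w'^3 = (w - w') * (w^2 + w*w' + w'^2) := by ring
    rw [this, norm_mul]
    have h3 : ‖w^2 + w*w' + w'^2‖ ≤ 12 := by
      calc ‖w^2 + w*w' + w'^2‖ ≤ ‖w‖^2 + ‖w‖*‖w'‖ + ‖w'‖^2 := by
            refine (norm_add_le _ _).trans ?_
            rw [norm_pow w']
            gcongr
            refine (norm_add_le _ _).trans ?_
            rw [norm_pow, norm_mul]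
        _ ≤ 2^2 + 2*2 + 2^2 := by gcongr
        _ = 12 := by norm_num
    nlinarith [norm_nonneg (w - w')]
  have a3 : ‖w^2 / (starRingEnd ℂ) w - w'^2 / (starRingEnd ℂ) w'‖ ≤ 12 * ‖w - w'‖ := by
    have e : w^2 / (starRingEnd ℂ) w - w'^2 / (starRingEnd ℂ) w'
        = (w^2 * ((starRingEnd ℂ) w' - (starRingEnd ℂ) w) + (starRingEnd ℂ) w * ((w - w') * (w + w')))
          / ((starRingEnd ℂ) w * (starRingEnd ℂ) w') := by
      field_simp
      ring
    rw [e, norm_div]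
    have hden : 1 ≤ ‖(starRingEnd ℂ) w * (starRingEnd ℂ) w'‖ := by
      rw [norm_mul, RCLike.norm_conj, RCLike.norm_conj]
      nlinarith
    have hnum : ‖w^2 * ((starRingEnd ℂ) w' - (starRingEnd ℂ) w)
        + (starRingEnd ℂ) w * ((w - w') * (w + w'))‖ ≤ 12 * ‖w - w'‖ := by
      calc _ ≤ ‖w^2 * ((starRingEnd ℂ) w' - (starRingEnd ℂ) w)‖
            + ‖(starRingEnd ℂ) w * ((w - w') * (w + w'))‖ := norm_add_le _ _
        _ = ‖w‖^2 * ‖w - w'‖ + ‖w‖ * (‖w - w'‖ * ‖w + w'‖) := by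
            rw [norm_mul, norm_pow, ← map_sub, RCLike.norm_conj, norm_mul, RCLike.norm_conj,
              norm_mul, norm_sub_rev w' w]
        _ ≤ 2^2 * ‖w - w'‖ + 2 * (‖w - w'‖ * (2 + 2)) := by
            have := norm_add_le w w'
            gcongr
            linarith
        _ = 12 * ‖w - w'‖ := by ring
    calc _ ≤ ‖w^2 * ((starRingEnd ℂ) w' - (starRingEnd ℂ) w)
        + (starRingEnd ℂ) w * ((w - w') * (w + w'))‖ := by
            apply div_le_self (norm_nonneg _) hden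
      _ ≤ _ := hnum
  have e : kap w - kap w' = -2 * ((starRingEnd ℂ) w - (starRingEnd ℂ) w') + (8/3) * (w^3 - w'^3)
      - 2 * (w^2 / (starRingEnd ℂ) w - w'^2 / (starRingEnd ℂ) w') := by
    unfold kap; ring
  rw [e]
  calc _ ≤ ‖-2 * ((starRingEnd ℂ) w - (starRingEnd ℂ) w') + (8/3) * (w^3 - w'^3)‖
        + ‖2 * (w^2 / (starRingEnd ℂ) w - w'^2 / (starRingEnd ℂ) w')‖ := norm_sub_le _ _
    _ ≤ (‖-2 * ((starRingEnd ℂ) w - (starRingEnd ℂ) w')‖ + ‖(8/3) * (w^3 - w'^3)‖)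
        + ‖2 * (w^2 / (starRingEnd ℂ) w - w'^2 / (starRingEnd ℂ) w')‖ := by
          gcongr; exact norm_add_le _ _
    _ = (2 * ‖w - w'‖ + (8/3) * ‖w^3 - w'^3‖)
        + 2 * ‖w^2 / (starRingEnd ℂ) w - w'^2 / (starRingEnd ℂ) w'‖ := by
          rw [norm_mul, norm_mul, norm_mul, a1]
          norm_num
    _ ≤ (2 * ‖w - w'‖ + (8/3) * (12 * ‖w - w'‖)) + 2 * (12 * ‖w - w'‖) := by gcongr
    _ = 58 * ‖w - w'‖ := by ring

lemma norm_wpt_le {z : ℂ} (hz : z ∈ strip1) : ‖wpt z‖ ≤ 2 := by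
  rw [norm_wpt]
  have h1 : Real.cosh z.re ≤ Real.cosh 1 := by
    rw [Real.cosh_le_cosh]; rw [abs_one]; exact hz
  refine h1.trans ?_
  rw [Real.cosh_eq]
  have h1 : Real.exp 1 < 2.7182818286 := Real.exp_one_lt_d9
  have h2 : Real.exp (-1) ≤ 1 := by rw [Real.exp_le_one_iff]; norm_num
  linarith

lemma one_le_norm_wpt (z : ℂ) : 1 ≤ ‖wpt z‖ := by
  rw [norm_wpt]; exact Real.one_le_cosh _

/-- `H` is injective modulo `2πi` -/
lemma H_inj {z z' : ℂ} (hz : z ∈ strip1) (hz' : z' ∈ strip1) (h0 : 0 ≤ z.re) (h0' : 0 ≤ z'.re)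
    (h : H z = H z') : ∃ n : ℤ, z = z' + n * (2 * Real.pi * I) := by
  rw [H_eq, H_eq] at h
  have h1 : wpt z - wpt z' = -(1/100) * (kap (wpt z) - kap (wpt z')) := by
    linear_combination h/2
  have h2 := kap_lip (one_le_norm_wpt z) (norm_wpt_le hz) (one_le_norm_wpt z') (norm_wpt_le hz')
  have h3 : ‖wpt z - wpt z'‖ ≤ (1/100) * (58 * ‖wpt z - wpt z'‖) := by
    calc ‖wpt z - wpt z'‖ = ‖(-(1/100) : ℂ) * (kap (wpt z) - kap (wpt z'))‖ := by rw [h1]
      _ = (1/100) * ‖kap (wpt z) - kap (wpt z')‖ := by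
          rw [norm_mul]; norm_num
      _ ≤ _ := by gcongr
  have h4 : ‖wpt z - wpt z'‖ = 0 := by nlinarith [norm_nonneg (wpt z - wpt z')]
  have h5 : wpt z = wpt z' := sub_eq_zero.mp (norm_eq_zero.mp h4)
  have h6 : Real.cosh z.re = Real.cosh z'.re := by rw [← norm_wpt, ← norm_wpt, h5]
  have h7 : z.re = z'.re := by
    have e1 := Real.cosh_le_cosh.mp h6.le
    have e2 := Real.cosh_le_cosh.mp h6.ge
    rw [abs_of_nonneg h0, abs_of_nonneg h0'] at e1 e2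
    exact le_antisymm e1 e2
  have h8 : Complex.exp ((z.im : ℂ) * I) = Complex.exp ((z'.im : ℂ) * I) := by
    have h9 : (Real.cosh z'.re : ℂ) ≠ 0 := by
      exact_mod_cast (Real.cosh_pos _).ne'
    unfold wpt at h5
    rw [h7] at h5
    exact mul_left_cancel₀ h9 h5
  obtain ⟨n, hn⟩ := Complex.exp_eq_exp_iff_exists_int.mp h8
  refine ⟨n, ?_⟩
  calc z = (z.re : ℂ) + (z.im : ℂ) * I := (Complex.re_add_im z).symm
    _ = (z'.re : ℂ) + ((z'.im : ℂ) * I + n * (2 * Real.pi * I)) := by rw [h7, hn]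
    _ = ((z'.re : ℂ) + (z'.im : ℂ) * I) + n * (2 * Real.pi * I) := by ring
    _ = _ := by rw [Complex.re_add_im]

lemma norm_kap_le {w : ℂ} (h1 : 1 ≤ ‖w‖) (h2 : ‖w‖ ≤ 2) : ‖kap w‖ ≤ 30 := by
  have hw : w ≠ 0 := by rw [← norm_pos_iff]; linarith
  unfold kap
  calc _ ≤ ‖-2 * (starRingEnd ℂ) w + (8/3) * w^3‖ + ‖2 * (w^2 / (starRingEnd ℂ) w)‖ :=
        norm_sub_le _ _
    _ ≤ (‖-2 * (starRingEnd ℂ) w‖ + ‖(8/3) * w^3‖) + ‖2 * (w^2 / (starRingEnd ℂ) w)‖ := by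
        gcongr; exact norm_add_le _ _
    _ = (2 * ‖w‖ + (8/3) * ‖w‖^3) + 2 * ‖w‖ := by
        have e0 : ‖w‖ ≠ 0 := norm_ne_zero_iff.mpr hw
        have e1 : ‖-2 * (starRingEnd ℂ) w‖ = 2 * ‖w‖ := by
          rw [norm_mul, RCLike.norm_conj]; norm_num
        have e2 : ‖(8/3) * w^3‖ = (8/3) * ‖w‖^3 := by
          rw [norm_mul, norm_pow]; norm_num
        have e3 : ‖2 * (w^2 / (starRingEnd ℂ) w)‖ = 2 * ‖w‖ := by
          rw [norm_mul, norm_div, norm_pow, RCLike.norm_conj]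
          have e : ‖w‖^2/‖w‖ = ‖w‖ := by field_simp
          rw [e]; norm_num
        rw [e1, e2, e3]
    _ ≤ (2 * 2 + (8/3) * 2^3) + 2 * 2 := by gcongr
    _ ≤ 30 := by norm_num

lemma H_lower {z : ℂ} (hz : z ∈ strip1) : 1 ≤ ‖H z‖ := by
  rw [H_eq, norm_mul]
  have h1 := norm_kap_le (one_le_norm_wpt z) (norm_wpt_le hz)
  have h2 := one_le_norm_wpt z
  have h3 : ‖wpt z‖ - ‖(1/100 : ℂ) * kap (wpt z)‖ ≤ ‖wpt z + (1/100) * kap (wpt z)‖ := by
    have := norm_sub_norm_le (wpt z) (-((1/100 : ℂ) * kap (wpt z)))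
    rw [norm_neg, sub_neg_eq_add] at this
    exact this
  have h4 : ‖(1/100 : ℂ) * kap (wpt z)‖ = (1/100) * ‖kap (wpt z)‖ := by
    rw [norm_mul]; norm_num
  have h5 : ‖(2:ℂ)‖ = 2 := by simp
  rw [h5]
  rw [h4] at h3
  linarith

lemma H_upper {z : ℂ} (hz : z ∈ strip1) : ‖H z‖ ≤ 5 := by
  rw [H_eq, norm_mul]
  have h1 := norm_kap_le (one_le_norm_wpt z) (norm_wpt_le hz)
  have h2 := norm_wpt_le hz
  have h3 := norm_add_le (wpt z) ((1/100 : ℂ) * kap (wpt z))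
  have h4 : ‖(1/100 : ℂ) * kap (wpt z)‖ = (1/100) * ‖kap (wpt z)‖ := by
    rw [norm_mul]; norm_num
  have h5 : ‖(2:ℂ)‖ = 2 := by simp
  rw [h5]
  rw [h4] at h3
  linarith

end Pool.Agent.A78
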