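import Mathlib
import Pool.Agent.Work.MP_a78000_an.Map

/-!
Helper file for the disproof of MP_a78000_an.
The harmonic map `G = H ∘ F` on the strip `0 < re < 1/2` and its derivative.
-/

set_option autoImplicit false

open Complex Set

namespace Pool.Agent.A78

/-- the harmonic map on the strip (log coordinates) -/
noncomputable def G (ζ : ℂ) : ℂ := H (F ζ)

/-- The strip `0 < re < 1/2`. -/
def S : Set ℂ := {z : ℂ | 0 < z.re ∧ z.re < 1/2}

lemma S_sub_strip9 : S ⊆ strip9 := by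
  intro z hz
  show |z.re| < 9/10
  rw [abs_of_pos hz.1]; linarith [hz.2]

lemma isOpen_S : IsOpen S :=
  (isOpen_lt continuous_const Complex.continuous_re).inter
    (isOpen_lt Complex.continuous_re continuous_const)

lemma convex_S : Convex ℝ S := by
  have : S = Complex.re ⁻¹' (Set.Ioo 0 (1/2)) := by
    ext z; simp [S]
  rw [this]
  exact (convex_Ioo (0 : ℝ) (1/2)).linear_preimage Complex.reLm

lemma add_int_mem_S {z : ℂ} (n : ℤ) : z + n * (2 * Real.pi * I) ∈ S ↔ z ∈ S := by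
  have : (z + n * (2 * Real.pi * I)).re = z.re := by simp
  simp only [S, Set.mem_ofPred_eq, this]

lemma add_int_mem_strip9 {z : ℂ} (n : ℤ) : z + n * (2 * Real.pi * I) ∈ strip9 ↔ z ∈ strip9 := by
  have : (z + n * (2 * Real.pi * I)).re = z.re := by simp
  simp only [strip9, Set.mem_ofPred_eq, this]

lemma F_add_int {ω : ℂ} (hω : ω ∈ strip9) (n : ℤ) :
    F (ω + n * (2 * Real.pi * I)) = F ω + n * (2 * Real.pi * I) := by
  induction n using Int.induction_on with
  | zero => simp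
  | succ k ih =>
    have e : ω + ((k : ℤ) + 1 : ℤ) * (2 * Real.pi * I)
        = (ω + (k : ℤ) * (2 * Real.pi * I)) + 2 * Real.pi * I := by push_cast; ring
    rw [e, F_add_two_pi_I ((add_int_mem_strip9 _).mpr hω), ih]
    push_cast; ring
  | pred k ih =>
    have h0 : ω + (-(k : ℤ) - 1 : ℤ) * (2 * Real.pi * I) ∈ strip9 :=
      (add_int_mem_strip9 _).mpr hω
    have h1 := F_add_two_pi_I h0
    have e : (ω + (-(k : ℤ) - 1 : ℤ) * (2 * Real.pi * I)) + 2 * Real.pi * I
        = ω + (-(k : ℤ) : ℤ) * (2 * Real.pi * I) := by push_cast; ring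
    rw [e, ih] at h1
    have h2 : F (ω + (-(k : ℤ) - 1 : ℤ) * (2 * Real.pi * I))
      = F ω + (-(k : ℤ) : ℤ) * (2 * Real.pi * I) - 2 * Real.pi * I := by rw [h1]; ring
    rw [h2]; push_cast; ring

lemma exp_add_int (z : ℂ) (n : ℤ) : Complex.exp (z + n * (2 * Real.pi * I)) = Complex.exp z := by
  rw [Complex.exp_add, Complex.exp_int_mul_two_pi_mul_I, mul_one]

lemma H_add_int (z : ℂ) (n : ℤ) : H (z + n * (2 * Real.pi * I)) = H z := by
  have e1 : Complex.exp (z + n * (2 * Real.pi * I)) = Complex.exp z := exp_add_int z n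
  have e2 : Complex.exp (-(z + n * (2 * Real.pi * I))) = Complex.exp (-z) := by
    rw [Complex.exp_neg, e1, Complex.exp_neg]
  have e3 : Complex.exp (3 * (z + n * (2 * Real.pi * I))) = Complex.exp (3 * z) := by
    have : 3 * (z + n * (2 * (Real.pi : ℂ) * I)) = 3 * z + ((3 * n : ℤ) : ℂ) * (2 * Real.pi * I) := by
      push_cast; ring
    rw [this, exp_add_int]
  have e4 : Complex.exp (-(3 * (z + n * (2 * Real.pi * I)))) = Complex.exp (-(3 * z)) := by
    rw [Complex.exp_neg, e3, Complex.exp_neg]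
  unfold H fH gH
  rw [e1, e2, e3, e4]

lemma G_add_int {ω : ℂ} (hω : ω ∈ strip9) (n : ℤ) : G (ω + n * (2 * Real.pi * I)) = G ω := by
  unfold G
  rw [F_add_int hω, H_add_int]

lemma G_inj {ω ω' : ℂ} (hω : ω ∈ S) (hω' : ω' ∈ S) (h : G ω = G ω') :
    ∃ n : ℤ, ω = ω' + n * (2 * Real.pi * I) := by
  have m := S_sub_strip9 hω
  have m' := S_sub_strip9 hω'
  obtain ⟨n, hn⟩ := H_inj (F_mem m) (F_mem m') (F_re_pos m hω.1).le (F_re_pos m' hω'.1).le h
  refine ⟨n, ?_⟩
  rw [← F_add_int m'] at hn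
  have h2 := congrArg Q hn
  rwa [Q_F m, Q_F ((add_int_mem_strip9 n).mpr m')] at h2

lemma fH_hasDerivAt (z : ℂ) : HasDerivAt fH (Complex.exp z * Q' z) z := by
  have h1 : HasDerivAt (fun z : ℂ => Complex.exp z) (Complex.exp z) z := Complex.hasDerivAt_exp z
  have h2 : HasDerivAt (fun z : ℂ => Complex.exp (3*z)) (3 * Complex.exp (3*z)) z := by
    have h := (Complex.hasDerivAt_exp (3*z)).comp z
      ((hasDerivAt_id z).const_mul (3:ℂ))
    simpa [mul_comm, Function.comp_def] using h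
  have h3 : HasDerivAt (fun z : ℂ => Complex.exp (-z)) (-Complex.exp (-z)) z := by
    have h := (Complex.hasDerivAt_exp (-z)).comp z (hasDerivAt_id z).neg
    simpa [mul_comm, Function.comp_def] using h
  have h4 := (h1.add (h2.const_mul (1/150 : ℂ))).sub (h3.const_mul (1/50 : ℂ))
  have e : Complex.exp z + 1/150 * (3 * Complex.exp (3*z)) - 1/50 * (-Complex.exp (-z))
      = Complex.exp z * Q' z := by
    unfold Q'
    rw [Complex.cosh]
    have e3 : Complex.exp (3*z) = Complex.exp z * Complex.exp (2*z) := by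
      rw [← Complex.exp_add]; ring_nf
    have e4 : Complex.exp (-z) = Complex.exp z * Complex.exp (-(2*z)) := by
      rw [← Complex.exp_add]; ring_nf
    rw [e3, e4]; ring
  rw [e] at h4
  exact h4

lemma gH_hasDerivAt (z : ℂ) : HasDerivAt gH (-Complex.exp (-z) * Q' z) z := by
  have h1 : HasDerivAt (fun z : ℂ => Complex.exp z) (Complex.exp z) z := Complex.hasDerivAt_exp z
  have h2 : HasDerivAt (fun z : ℂ => Complex.exp (-(3*z))) (-3 * Complex.exp (-(3*z))) z := by
    have h := (Complex.hasDerivAt_exp (-(3*z))).comp z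
      ((hasDerivAt_id z).const_mul (3:ℂ)).neg
    simpa [mul_comm, Function.comp_def] using h
  have h3 : HasDerivAt (fun z : ℂ => Complex.exp (-z)) (-Complex.exp (-z)) z := by
    have h := (Complex.hasDerivAt_exp (-z)).comp z (hasDerivAt_id z).neg
    simpa [mul_comm, Function.comp_def] using h
  have h4 := (h3.sub (h1.const_mul (1/50 : ℂ))).add (h2.const_mul (1/150 : ℂ))
  have e : -Complex.exp (-z) - 1/50 * Complex.exp z + 1/150 * (-3 * Complex.exp (-(3*z)))
      = -Complex.exp (-z) * Q' z := by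
    unfold Q'
    rw [Complex.cosh]
    have e3 : Complex.exp (-(3*z)) = Complex.exp (-z) * Complex.exp (-(2*z)) := by
      rw [← Complex.exp_add]; ring_nf
    have e4 : Complex.exp z = Complex.exp (-z) * Complex.exp (2*z) := by
      rw [← Complex.exp_add]; ring_nf
    rw [e3, e4]; ring
  rw [e] at h4
  exact h4

/-- The real-linear map `v ↦ a v + conj (b v)`. -/
noncomputable def lin (a b : ℂ) : ℂ →L[ℝ] ℂ :=
  (ContinuousLinearMap.toSpanSingleton ℂ a).restrictScalars ℝ
    + (Complex.conjCLE : ℂ →L[ℝ] ℂ).comp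
      ((ContinuousLinearMap.toSpanSingleton ℂ b).restrictScalars ℝ)

@[simp] lemma lin_apply (a b v : ℂ) : lin a b v = a * v + (starRingEnd ℂ) (b * v) := by
  simp [lin, mul_comm]

lemma G_hasFDerivAt {ω : ℂ} (hω : ω ∈ strip9) :
    HasFDerivAt G (lin (Complex.exp (F ω)) (-Complex.exp (-F ω))) ω := by
  have hF := F_hasDerivAt hω
  have hQ := Q'_ne_zero (F_mem hω)
  have h1 : HasDerivAt (fun ω => fH (F ω)) (Complex.exp (F ω)) ω := by
    have := (fH_hasDerivAt (F ω)).comp ω hF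
    rw [mul_assoc, mul_inv_cancel₀ hQ, mul_one] at this
    exact this
  have h2 : HasDerivAt (fun ω => gH (F ω)) (-Complex.exp (-F ω)) ω := by
    have := (gH_hasDerivAt (F ω)).comp ω hF
    rw [mul_assoc, mul_inv_cancel₀ hQ, mul_one] at this
    exact this
  have h1' := h1.hasFDerivAt.restrictScalars ℝ
  have h2' := h2.hasFDerivAt.restrictScalars ℝ
  have h3 : HasFDerivAt (fun ω => (starRingEnd ℂ) (gH (F ω)))
      ((Complex.conjCLE : ℂ →L[ℝ] ℂ).comp
        ((ContinuousLinearMap.toSpanSingleton ℂ (-Complex.exp (-F ω))).restrictScalars ℝ)) ω :=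
    (Complex.conjCLE : ℂ →L[ℝ] ℂ).hasFDerivAt.comp ω h2'
  exact h1'.add h3

lemma norm_lin_sq (ζ v : ℂ) :
    ‖lin (Complex.exp ζ) (-Complex.exp (-ζ)) v‖^2
      = 4 * Real.sinh ζ.re ^ 2 * ‖v‖^2 + 4 * v.im^2 := by
  have hζ : ζ = (ζ.re : ℂ) + (ζ.im : ℂ) * I := (Complex.re_add_im ζ).symm
  have e1 : Complex.exp ζ = (Real.exp ζ.re : ℂ) * Complex.exp ((ζ.im : ℂ) * I) := by
    rw [Complex.ofReal_exp, ← Complex.exp_add, ← hζ]
  have e2 : (starRingEnd ℂ) (Complex.exp (-ζ))
      = (Real.exp (-ζ.re) : ℂ) * Complex.exp ((ζ.im : ℂ) * I) := by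
    rw [← Complex.exp_conj, Complex.ofReal_exp, ← Complex.exp_add]
    congr 1
    apply Complex.ext <;> simp
  have e3 : lin (Complex.exp ζ) (-Complex.exp (-ζ)) v
      = Complex.exp ((ζ.im : ℂ) * I) * ((Real.exp ζ.re : ℂ) * v
        - (Real.exp (-ζ.re) : ℂ) * (starRingEnd ℂ) v) := by
    rw [lin_apply, map_mul, map_neg, e2, e1]; ring
  rw [e3, norm_mul, Complex.norm_exp_ofReal_mul_I, one_mul]
  rw [← Complex.normSq_eq_norm_sq, ← Complex.normSq_eq_norm_sq]
  rw [Complex.normSq_apply, Complex.normSq_apply]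
  simp only [Complex.sub_re, Complex.sub_im, Complex.re_ofReal_mul, Complex.im_ofReal_mul,
    Complex.conj_re, Complex.conj_im]
  rw [Real.sinh_eq]
  have h : Real.exp ζ.re * Real.exp (-ζ.re) = 1 := by
    rw [← Real.exp_add]; simp
  linear_combination (4 * v.im^2) * h


lemma contDiffOn_F : ContDiffOn ℂ 2 F strip9 :=
  F_differentiableOn.contDiffOn isOpen_strip9

lemma contDiff_fH : ContDiff ℂ 2 fH := by
  unfold fH; fun_prop

lemma contDiff_gH : ContDiff ℂ 2 gH := by
  unfold gH; fun_prop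

lemma contDiffOn_G : ContDiffOn ℝ 2 G strip9 := by
  have h1 : ContDiffOn ℝ 2 (fun ω => fH (F ω)) strip9 :=
    (contDiff_fH.comp_contDiffOn contDiffOn_F).restrict_scalars ℝ
  have h2 : ContDiffOn ℝ 2 (fun ω => gH (F ω)) strip9 :=
    (contDiff_gH.comp_contDiffOn contDiffOn_F).restrict_scalars ℝ
  have h3 : ContDiffOn ℝ 2 (fun ω => (starRingEnd ℂ) (gH (F ω))) strip9 :=
    Complex.conjCLE.contDiff.comp_contDiffOn h2
  exact h1.add h3

lemma contDiffAt_G {ω : ℂ} (hω : ω ∈ strip9) : ContDiffAt ℝ 2 G ω :=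
  contDiffOn_G.contDiffAt (isOpen_strip9.mem_nhds hω)

/-- determinant of a real-linear endomorphism of `ℂ` -/
lemma det_eq (L : ℂ →L[ℝ] ℂ) : L.det = (L 1).re * (L I).im - (L 1).im * (L I).re := by
  rw [ContinuousLinearMap.det, ← LinearMap.det_toMatrix Complex.basisOneI, Matrix.det_fin_two]
  simp [LinearMap.toMatrix_apply]
  ring

lemma two_abs_det_le (L : ℂ →L[ℝ] ℂ) : 2 * |L.det| ≤ ‖L 1‖^2 + ‖L I‖^2 := by
  rw [det_eq, ← Complex.normSq_eq_norm_sq, ← Complex.normSq_eq_norm_sq, Complex.normSq_apply,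
    Complex.normSq_apply]
  have h : |(L 1).re * (L I).im - (L 1).im * (L I).re| * 2 ≤
    (L 1).re * (L 1).re + (L 1).im * (L 1).im + ((L I).re * (L I).re + (L I).im * (L I).im) := by
    rw [← le_div_iff₀ (by norm_num : (0:ℝ) < 2), abs_le]
    constructor
    · nlinarith [sq_nonneg ((L 1).re + (L I).im), sq_nonneg ((L 1).im - (L I).re)]
    · nlinarith [sq_nonneg ((L 1).re - (L I).im), sq_nonneg ((L 1).im + (L I).re)]
  linarith

lemma det_lin (a b : ℂ) : (lin a b).det = ‖a‖^2 - ‖b‖^2 := by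
  rw [det_eq, ← Complex.normSq_eq_norm_sq, ← Complex.normSq_eq_norm_sq, Complex.normSq_apply,
    Complex.normSq_apply]
  simp only [lin_apply, mul_one, Complex.add_re, Complex.add_im, Complex.mul_re, Complex.mul_im,
    Complex.conj_re, Complex.conj_im, Complex.I_re, Complex.I_im]
  ring

lemma det_lin_exp (ζ : ℂ) : (lin (Complex.exp ζ) (-Complex.exp (-ζ))).det
    = 4 * (Real.sinh ζ.re * Real.cosh ζ.re) := by
  rw [det_lin, norm_neg, Complex.norm_exp, Complex.norm_exp, Real.sinh_eq, Real.cosh_eq]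
  simp only [Complex.neg_re]
  ring

end Pool.Agent.A78
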