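import Mathlib
import Pool.Agent.Work.MP_a78000_an.Gmap

/-!
Helper file for the disproof of MP_a78000_an.
The harmonic diffeomorphism `h` of the round annulus.
-/

set_option autoImplicit false

open Complex Set Filter Topology

namespace Pool.Agent.A78

/-- The round annulus. -/
def Om : Set ℂ := {z : ℂ | 1 < ‖z‖ ∧ ‖z‖ < Real.exp (1/2)}

/-- the harmonic diffeomorphism -/
noncomputable def h (z : ℂ) : ℂ := G (Complex.log z)

/-- its image -/
def Oms : Set ℂ := h '' Om

lemma isOpen_Om : IsOpen Om :=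
  (isOpen_lt continuous_const continuous_norm).inter
    (isOpen_lt continuous_norm continuous_const)

lemma ne_zero_of_mem_Om {z : ℂ} (hz : z ∈ Om) : z ≠ 0 := by
  rw [← norm_pos_iff]; linarith [hz.1]

lemma log_mem_S {z : ℂ} (hz : z ∈ Om) : Complex.log z ∈ S := by
  refine ⟨?_, ?_⟩
  · rw [Complex.log_re]; exact Real.log_pos hz.1
  · rw [Complex.log_re, Real.log_lt_iff_lt_exp (by linarith [hz.1])]
    exact hz.2

lemma exp_mem_Om {ζ : ℂ} (hζ : ζ ∈ S) : Complex.exp ζ ∈ Om := by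
  refine ⟨?_, ?_⟩
  · rw [Complex.norm_exp, Real.one_lt_exp_iff]; exact hζ.1
  · rw [Complex.norm_exp, Real.exp_lt_exp]; exact hζ.2

lemma G_eq_of_exp_eq {ζ ζ' : ℂ} (hζ : ζ ∈ strip9) (h : Complex.exp ζ' = Complex.exp ζ) :
    G ζ' = G ζ := by
  obtain ⟨n, hn⟩ := Complex.exp_eq_exp_iff_exists_int.mp h
  rw [hn, G_add_int hζ]

lemma h_exp {ζ : ℂ} (hζ : ζ ∈ strip9) : h (Complex.exp ζ) = G ζ := by
  unfold h
  apply G_eq_of_exp_eq hζ
  rw [Complex.exp_log (Complex.exp_ne_zero _)]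

lemma h_injOn : InjOn h Om := by
  intro z hz w hw e
  obtain ⟨n, hn⟩ := G_inj (log_mem_S hz) (log_mem_S hw) e
  have h1 := congrArg Complex.exp hn
  rwa [exp_add_int, Complex.exp_log (ne_zero_of_mem_Om hz),
    Complex.exp_log (ne_zero_of_mem_Om hw)] at h1

lemma h_local {z : ℂ} (hz : z ∈ Om) :
    h =ᶠ[𝓝 z] fun w => G (Complex.log (w / z) + Complex.log z) := by
  filter_upwards [isOpen_Om.mem_nhds hz] with w hw
  have hw0 := ne_zero_of_mem_Om hw
  have hz0 := ne_zero_of_mem_Om hz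
  unfold h
  symm
  apply G_eq_of_exp_eq (S_sub_strip9 (log_mem_S hw))
  rw [Complex.exp_add, Complex.exp_log (div_ne_zero hw0 hz0), Complex.exp_log hz0,
    Complex.exp_log hw0]
  field_simp

/-- multiplication by `a` as a real-linear map -/
noncomputable def mulL (a : ℂ) : ℂ →L[ℝ] ℂ := (ContinuousLinearMap.toSpanSingleton ℂ a).restrictScalars ℝ

@[simp] lemma mulL_apply (a v : ℂ) : mulL a v = a * v := by simp [mulL, mul_comm]

/-- the derivative of `h` -/
noncomputable def Dh (z : ℂ) : ℂ →L[ℝ] ℂ :=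
  (lin (Complex.exp (F (Complex.log z))) (-Complex.exp (-F (Complex.log z)))).comp (mulL z⁻¹)

lemma logdiv_hasDerivAt {z : ℂ} (hz : z ≠ 0) :
    HasDerivAt (fun w => Complex.log (w / z) + Complex.log z) z⁻¹ z := by
  have h1 : HasDerivAt (fun w : ℂ => w / z) (1 / z) z := (hasDerivAt_id z).div_const z
  have h2 : HasDerivAt (fun w : ℂ => Complex.log (w / z)) ((z/z)⁻¹ * (1/z)) z := by
    have h0 : HasDerivAt Complex.log (z/z)⁻¹ (z/z) :=
      Complex.hasDerivAt_log (by rw [div_self hz]; simp)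
    exact HasDerivAt.comp (h₂ := Complex.log) (h := fun w : ℂ => w / z) z h0 h1
  rw [div_self hz] at h2
  have h3 := h2.add_const (Complex.log z)
  simpa using h3

lemma h_hasFDerivAt {z : ℂ} (hz : z ∈ Om) : HasFDerivAt h (Dh z) z := by
  have hz0 := ne_zero_of_mem_Om hz
  have h1 := (logdiv_hasDerivAt hz0).hasFDerivAt.restrictScalars ℝ
  have e : Complex.log (z / z) + Complex.log z = Complex.log z := by rw [div_self hz0]; simp
  have h2 : HasFDerivAt G (lin (Complex.exp (F (Complex.log z))) (-Complex.exp (-F (Complex.log z))))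
      (Complex.log (z / z) + Complex.log z) := by
    rw [e]; exact G_hasFDerivAt (S_sub_strip9 (log_mem_S hz))
  exact (HasFDerivAt.comp (g := G) (f := fun w => Complex.log (w / z) + Complex.log z)
    z h2 h1).congr_of_eventuallyEq (h_local hz)

lemma h_contDiffAt {z : ℂ} (hz : z ∈ Om) : ContDiffAt ℝ 2 h z := by
  have hz0 := ne_zero_of_mem_Om hz
  have e : Complex.log (z / z) + Complex.log z = Complex.log z := by rw [div_self hz0]; simp
  have h1 : ContDiffAt ℂ 2 (fun w => Complex.log (w / z) + Complex.log z) z := by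
    have h0 : ContDiffAt ℂ 2 Complex.log (z / z) :=
      Complex.contDiffAt_log (by rw [div_self hz0]; simp)
    have h00 : ContDiffAt ℂ 2 (fun w : ℂ => w / z) z := contDiffAt_id.div_const z
    exact (ContDiffAt.comp (g := Complex.log) (f := fun w : ℂ => w / z) z h0 h00).add
      contDiffAt_const
  have h2 : ContDiffAt ℝ 2 G (Complex.log (z / z) + Complex.log z) := by
    rw [e]; exact contDiffAt_G (S_sub_strip9 (log_mem_S hz))
  exact (ContDiffAt.comp (g := G) (f := fun w => Complex.log (w / z) + Complex.log z)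
    z h2 (h1.restrict_scalars ℝ)).congr_of_eventuallyEq (h_local hz)

lemma Dh_normsq (z v : ℂ) :
    ‖Dh z v‖^2 = 4 * Real.sinh (F (Complex.log z)).re ^ 2 * ‖z⁻¹ * v‖^2 + 4 * (z⁻¹ * v).im^2 := by
  unfold Dh
  rw [ContinuousLinearMap.comp_apply, norm_lin_sq, mulL_apply]

lemma det_mulL (a : ℂ) : (mulL a).det = ‖a‖^2 := by
  rw [det_eq, ← Complex.normSq_eq_norm_sq, Complex.normSq_apply]
  simp

lemma det_comp (A B : ℂ →L[ℝ] ℂ) : (A.comp B).det = A.det * B.det := by
  simp only [ContinuousLinearMap.det, ContinuousLinearMap.toLinearMap_comp]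
  exact LinearMap.det_comp _ _

lemma Dh_det (z : ℂ) : (Dh z).det
    = 4 * (Real.sinh (F (Complex.log z)).re * Real.cosh (F (Complex.log z)).re) * ‖z⁻¹‖^2 := by
  unfold Dh
  rw [det_comp, det_lin_exp, det_mulL]

lemma U_pos {z : ℂ} (hz : z ∈ Om) : 0 < (F (Complex.log z)).re :=
  F_re_pos (S_sub_strip9 (log_mem_S hz)) (log_mem_S hz).1

lemma Dh_det_pos {z : ℂ} (hz : z ∈ Om) : 0 < (Dh z).det := by
  rw [Dh_det]
  have h1 := U_pos hz
  have h2 : 0 < Real.sinh (F (Complex.log z)).re := Real.sinh_pos_iff.mpr h1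
  have h3 := Real.cosh_pos (F (Complex.log z)).re
  have h4 : 0 < ‖z⁻¹‖ := norm_pos_iff.mpr (inv_ne_zero (ne_zero_of_mem_Om hz))
  positivity

/-- general inverse function lemma -/
lemma inv_contDiffOn {Ω : Set ℂ} {f : ℂ → ℂ} (hΩ : IsOpen Ω) (hinj : InjOn f Ω)
    (hc : ∀ z ∈ Ω, ContDiffAt ℝ 1 f z) (hd : ∀ z ∈ Ω, (fderiv ℝ f z).det ≠ 0) :
    IsOpen (f '' Ω) ∧ ContDiffOn ℝ 1 (Function.invFunOn f Ω) (f '' Ω) := by
  have key : ∀ z ∈ Ω, f '' Ω ∈ 𝓝 (f z) ∧ ContDiffAt ℝ 1 (Function.invFunOn f Ω) (f z) := by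
    intro z hz
    have hcz := hc z hz
    let e : ℂ ≃L[ℝ] ℂ := (fderiv ℝ f z).toContinuousLinearEquivOfDetNeZero (hd z hz)
    have hfd : HasFDerivAt f (e : ℂ →L[ℝ] ℂ) z := by
      have : (e : ℂ →L[ℝ] ℂ) = fderiv ℝ f z :=
        ContinuousLinearMap.coe_toContinuousLinearEquivOfDetNeZero _ _
      rw [this]
      exact (hcz.differentiableAt (by norm_num)).hasFDerivAt
    have hs : HasStrictFDerivAt f (e : ℂ →L[ℝ] ℂ) z := hcz.hasStrictFDerivAt' hfd (by norm_num)
    have hmap := hs.map_nhds_eq_of_equiv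
    refine ⟨?_, ?_⟩
    · rw [← hmap]; exact Filter.image_mem_map (hΩ.mem_nhds hz)
    · have hloc := hcz.to_localInverse hfd (by norm_num)
      refine hloc.congr_of_eventuallyEq ?_
      have h1 := hs.eventually_right_inverse
      have h2 : ∀ᶠ w in 𝓝 (f z), hs.localInverse f e z w ∈ Ω :=
        hs.localInverse_tendsto (hΩ.mem_nhds hz)
      filter_upwards [h1, h2] with w hw1 hw2
      have hex : ∃ a ∈ Ω, f a = w := ⟨_, hw2, hw1⟩
      apply hinj (Function.invFunOn_mem hex) hw2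
      rw [Function.invFunOn_eq hex]
      exact hw1.symm
  refine ⟨?_, ?_⟩
  · rw [isOpen_iff_mem_nhds]
    rintro _ ⟨z, hz, rfl⟩
    exact (key z hz).1
  · rintro _ ⟨z, hz, rfl⟩
    exact (key z hz).2.contDiffWithinAt

lemma h_inv_facts : IsOpen Oms ∧ ContDiffOn ℝ 1 (Function.invFunOn h Om) Oms := by
  apply inv_contDiffOn isOpen_Om h_injOn
  · intro z hz
    exact (h_contDiffAt hz).of_le (by norm_num)
  · intro z hz
    rw [(h_hasFDerivAt hz).fderiv]
    exact (Dh_det_pos hz).ne'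

end Pool.Agent.A78
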