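import Mathlib
import Pool.Agent.Work.MP_a78000_an.Hmap

/-!
Helper file for the disproof of MP_a78000_an.
Winding number of self-homeomorphisms of the annulus.
-/

set_option autoImplicit false

open Complex Set Filter Topology

namespace Pool.Agent.A78

lemma isDiscrete_int : IsDiscrete (Set.range (Int.cast : ℤ → ℝ)) := by
  have h := Int.isClosedEmbedding_coe_real.isEmbedding
  constructor
  have h2 : DiscreteTopology ℤ := inferInstance
  exact h.toHomeomorph.symm.isEmbedding.discreteTopology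

lemma int_const {s : Set ℂ} (hs : IsPreconnected s) {d : ℂ → ℂ} (hd : ContinuousOn d s)
    (hint : ∀ z ∈ s, ∃ n : ℤ, d z = n * (2 * Real.pi * I)) :
    ∀ x ∈ s, ∀ y ∈ s, d x = d y := by
  intro x hx y hy
  have hpi : (2 * Real.pi * I : ℂ) ≠ 0 := by
    simp [Real.pi_ne_zero]
  have h1 : ContinuousOn (fun z => (d z / (2 * Real.pi * I)).re) s := by
    apply Complex.continuous_re.comp_continuousOn
    exact hd.div_const _
  have h2 := hs.constant_of_mapsTo isDiscrete_int h1 (by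
    intro z hz
    obtain ⟨n, hn⟩ := hint z hz
    refine ⟨n, ?_⟩
    simp only [hn]
    rw [mul_div_cancel_right₀ _ hpi]; simp) hx hy
  obtain ⟨n, hn⟩ := hint x hx
  obtain ⟨m, hm⟩ := hint y hy
  simp only [hn, hm] at h2
  rw [mul_div_cancel_right₀ _ hpi, mul_div_cancel_right₀ _ hpi] at h2
  simp only [Complex.intCast_re, Int.cast_inj] at h2
  rw [hn, hm, h2]

lemma isSimplyConnected_of_convex {s : Set ℂ} (hs : Convex ℝ s) (hne : s.Nonempty) :
    IsSimplyConnected s := by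
  have := hs.contractibleSpace hne
  exact SimplyConnectedSpace.ofContractible s

lemma S_nonempty : S.Nonempty := ⟨(1/4 : ℝ), by simp [S]; norm_num⟩

/-- existence of a lift of a self-map of the annulus -/
lemma exists_lift {f : ℂ → ℂ} (hf : ContinuousOn f Om) (hm : MapsTo f Om Om) :
    ∃ L : ℂ → ℂ, ContinuousOn L S ∧ MapsTo L S S ∧ ∀ ζ ∈ S, Complex.exp (L ζ) = f (Complex.exp ζ) := by
  have h1 : ContinuousOn (fun ζ => f (Complex.exp ζ)) S :=
    hf.comp Complex.continuous_exp.continuousOn (fun ζ hζ => exp_mem_Om hζ)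
  obtain ⟨L, hL, hL2⟩ := Complex.exists_continuousOn_eqOn_exp_comp
    (isSimplyConnected_of_convex convex_S S_nonempty) isOpen_S h1 (by
      rintro ⟨ζ, hζ, h0⟩
      exact ne_zero_of_mem_Om (hm (exp_mem_Om hζ)) h0)
  have hL3 : ∀ ζ ∈ S, Complex.exp (L ζ) = f (Complex.exp ζ) := fun ζ hζ => hL2 hζ
  refine ⟨L, hL, ?_, hL3⟩
  intro ζ hζ
  have h2 := hm (exp_mem_Om hζ)
  rw [← hL3 ζ hζ] at h2
  refine ⟨?_, ?_⟩
  · have := h2.1
    rw [Complex.norm_exp, Real.one_lt_exp_iff] at this; exact this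
  · have := h2.2
    rw [Complex.norm_exp, Real.exp_lt_exp] at this; exact this

lemma add_mem_S {ζ : ℂ} (hζ : ζ ∈ S) : ζ + 2 * Real.pi * I ∈ S := by
  have := (add_int_mem_S (z := ζ) 1).mpr hζ
  simpa using this

/-- the lift is equivariant -/
lemma lift_equivariant {f L : ℂ → ℂ} (hL : ContinuousOn L S)
    (hL2 : ∀ ζ ∈ S, Complex.exp (L ζ) = f (Complex.exp ζ)) :
    ∃ n : ℤ, ∀ ζ ∈ S, ∀ m : ℤ, L (ζ + m * (2 * Real.pi * I)) = L ζ + (m * n : ℤ) * (2 * Real.pi * I) := by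
  obtain ⟨ζ₀, hζ₀⟩ := S_nonempty
  have hint : ∀ z ∈ S, ∃ n : ℤ, L (z + 2 * Real.pi * I) - L z = n * (2 * Real.pi * I) := by
    intro z hz
    have h1 : Complex.exp (L (z + 2 * Real.pi * I)) = Complex.exp (L z) := by
      rw [hL2 _ (add_mem_S hz), hL2 z hz, Complex.exp_periodic]
    obtain ⟨n, hn⟩ := Complex.exp_eq_exp_iff_exists_int.mp h1
    exact ⟨n, by rw [hn]; ring⟩
  have hcont : ContinuousOn (fun z => L (z + 2 * Real.pi * I) - L z) S := by
    refine ContinuousOn.sub ?_ hL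
    exact hL.comp (by fun_prop) (fun z hz => add_mem_S hz)
  obtain ⟨n, hn⟩ := hint ζ₀ hζ₀
  refine ⟨n, ?_⟩
  have step : ∀ z ∈ S, L (z + 2 * Real.pi * I) = L z + n * (2 * Real.pi * I) := by
    intro z hz
    have := int_const convex_S.isPreconnected hcont hint z hz ζ₀ hζ₀
    rw [hn] at this
    linear_combination this
  intro ζ hζ m
  induction m using Int.induction_on with
  | zero => simp
  | succ k ih =>
    have e : ζ + ((k : ℤ) + 1 : ℤ) * (2 * Real.pi * I)
        = (ζ + (k : ℤ) * (2 * Real.pi * I)) + 2 * Real.pi * I := by push_cast; ring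
    rw [e, step _ ((add_int_mem_S _).mpr hζ), ih]
    push_cast; ring
  | pred k ih =>
    have h0 : ζ + (-(k : ℤ) - 1 : ℤ) * (2 * Real.pi * I) ∈ S :=
      (add_int_mem_S _).mpr hζ
    have h1 := step _ h0
    have e : (ζ + (-(k : ℤ) - 1 : ℤ) * (2 * Real.pi * I)) + 2 * Real.pi * I
        = ζ + (-(k : ℤ) : ℤ) * (2 * Real.pi * I) := by push_cast; ring
    rw [e, ih] at h1
    have h2 : L (ζ + (-(k : ℤ) - 1 : ℤ) * (2 * Real.pi * I))
      = L ζ + (-(k : ℤ) * n : ℤ) * (2 * Real.pi * I) - n * (2 * Real.pi * I) := by rw [h1]; ring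
    rw [h2]; push_cast; ring

/-- for a self-homeomorphism, the winding number is `±1` -/
lemma winding_unit {f f' L : ℂ → ℂ} (hf' : ContinuousOn f' Om) (hm' : MapsTo f' Om Om)
    (hinv : ∀ z ∈ Om, f' (f z) = z)
    (hL : ContinuousOn L S) (hLm : MapsTo L S S)
    (hL2 : ∀ ζ ∈ S, Complex.exp (L ζ) = f (Complex.exp ζ)) :
    ∃ n : ℤ, (n = 1 ∨ n = -1) ∧ ∀ ζ ∈ S, L (ζ + 2 * Real.pi * I) = L ζ + n * (2 * Real.pi * I) := by
  obtain ⟨n, hn⟩ := lift_equivariant hL hL2
  obtain ⟨L', hL', hLm', hL2'⟩ := exists_lift hf' hm'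
  obtain ⟨n', hn'⟩ := lift_equivariant hL' hL2'
  have hpi : (2 * Real.pi * I : ℂ) ≠ 0 := by
    simp [Real.pi_ne_zero]
  have hn1 : ∀ ζ ∈ S, L (ζ + 2 * Real.pi * I) = L ζ + n * (2 * Real.pi * I) := by
    intro ζ hζ
    have := hn ζ hζ 1
    simpa using this
  refine ⟨n, ?_, hn1⟩
  have hint : ∀ z ∈ S, ∃ n : ℤ, L' (L z) - z = n * (2 * Real.pi * I) := by
    intro z hz
    have h1 : Complex.exp (L' (L z)) = Complex.exp z := by
      rw [hL2' _ (hLm hz), hL2 z hz, hinv _ (exp_mem_Om hz)]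
    obtain ⟨n, hn⟩ := Complex.exp_eq_exp_iff_exists_int.mp h1
    exact ⟨n, by rw [hn]; ring⟩
  have hcont : ContinuousOn (fun z => L' (L z) - z) S :=
    (hL'.comp hL hLm).sub continuousOn_id
  obtain ⟨ζ, hζ⟩ := S_nonempty
  have h1 := int_const convex_S.isPreconnected hcont hint (ζ + 2 * Real.pi * I) (add_mem_S hζ) ζ hζ
  rw [hn1 ζ hζ] at h1
  have h2 := hn' (L ζ) (hLm hζ) n
  rw [h2] at h1
  have h3 : ((n * n' : ℤ) : ℂ) * (2 * Real.pi * I) = 1 * (2 * Real.pi * I) := by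
    linear_combination h1
  have h4 := mul_right_cancel₀ hpi h3
  have h5 : n * n' = 1 := by exact_mod_cast h4
  exact Int.eq_one_or_neg_one_of_mul_eq_one h5


/-- derivative of a continuous logarithm along a curve -/
lemma hasDerivAt_of_exp {ℓ y : ℝ → ℂ} {θ : ℝ} {y' : ℂ} (hℓ : ContinuousAt ℓ θ)
    (he : ∀ᶠ x in 𝓝 θ, Complex.exp (ℓ x) = y x) (hy : HasDerivAt y y' θ) :
    HasDerivAt ℓ ((y θ)⁻¹ * y') θ := by
  have he0 : Complex.exp (ℓ θ) = y θ := he.self_of_nhds
  have hy0 : y θ ≠ 0 := by rw [← he0]; exact Complex.exp_ne_zero _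
  have h1 : HasDerivAt (fun x => y x / y θ) (y' / y θ) θ := hy.div_const _
  have h2 : HasDerivAt (fun x => Complex.log (y x / y θ)) ((y' / y θ) / (y θ / y θ)) θ := by
    apply HasDerivAt.clog_real h1
    rw [div_self hy0]; simp
  rw [div_self hy0, div_one] at h2
  have h3 := h2.add_const (ℓ θ)
  have e : y' / y θ = (y θ)⁻¹ * y' := by rw [div_eq_mul_inv, mul_comm]
  rw [e] at h3
  refine h3.congr_of_eventuallyEq ?_
  have hc : ContinuousAt (fun x => (ℓ x - ℓ θ).im) θ :=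
    Complex.continuous_im.continuousAt.comp (hℓ.sub continuousAt_const)
  have h4 : ∀ᶠ x in 𝓝 θ, (ℓ x - ℓ θ).im ∈ Set.Ioo (-Real.pi) Real.pi := by
    apply hc
    apply Ioo_mem_nhds
    · simp [Real.pi_pos]
    · simp [Real.pi_pos]
  filter_upwards [he, h4] with x hx1 hx2
  have : Complex.log (y x / y θ) = ℓ x - ℓ θ := by
    rw [← hx1, ← he0, ← Complex.exp_sub, Complex.log_exp hx2.1 hx2.2.le]
  rw [this]; ring

/-- angular integral of a self-homeomorphism of the annulus -/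
theorem winding {f f' : ℂ → ℂ} (hf : ContDiffOn ℝ 1 f Om) (hm : MapsTo f Om Om)
    (hf' : ContinuousOn f' Om) (hm' : MapsTo f' Om Om) (hinv : ∀ z ∈ Om, f' (f z) = z) :
    ∃ n : ℝ, (n = 1 ∨ n = -1) ∧ ∀ t ∈ Set.Ioo (0:ℝ) (1/2),
      ∫ θ in (-Real.pi)..Real.pi, ((f (Complex.exp (t + θ * I)))⁻¹ *
        fderiv ℝ f (Complex.exp (t + θ * I)) (Complex.exp (t + θ * I) * I)).im
        = 2 * Real.pi * n := by
  obtain ⟨L, hL, hLm, hL2⟩ := exists_lift hf.continuousOn hm
  obtain ⟨n, hn, hn2⟩ := winding_unit hf' hm' hinv hL hLm hL2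
  refine ⟨n, ?_, ?_⟩
  · rcases hn with hn | hn
    · left; rw [hn]; simp
    · right; rw [hn]; simp
  intro t ht
  have hmem : ∀ θ : ℝ, (t + θ * I : ℂ) ∈ S := by
    intro θ
    refine ⟨by simpa using ht.1, by simpa using ht.2⟩
  have hcurve : Continuous (fun θ : ℝ => (t + θ * I : ℂ)) := by fun_prop
  have hd1 : ∀ θ : ℝ, HasDerivAt (fun θ : ℝ => Complex.exp (t + θ * I))
      (Complex.exp (t + θ * I) * I) θ := by
    intro θ
    have h1 : HasDerivAt (fun θ : ℝ => (t + θ * I : ℂ)) I θ := by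
      have h0 : HasDerivAt (fun θ : ℝ => (θ : ℂ)) 1 θ := Complex.ofRealCLM.hasDerivAt
      have := (h0.mul_const I).const_add (t : ℂ)
      simpa using this
    exact h1.cexp
  have hfd : ∀ θ : ℝ, HasFDerivAt f (fderiv ℝ f (Complex.exp (t + θ * I))) (Complex.exp (t + θ * I)) := by
    intro θ
    exact ((hf.contDiffAt (isOpen_Om.mem_nhds (exp_mem_Om (hmem θ)))).differentiableAt
      (by norm_num)).hasFDerivAt
  have hd2 : ∀ θ : ℝ, HasDerivAt (fun θ : ℝ => f (Complex.exp (t + θ * I)))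
      (fderiv ℝ f (Complex.exp (t + θ * I)) (Complex.exp (t + θ * I) * I)) θ := by
    intro θ
    exact (hfd θ).comp_hasDerivAt θ (hd1 θ)
  have hLcont : ∀ θ : ℝ, ContinuousAt (fun θ : ℝ => L (t + θ * I)) θ := by
    intro θ
    exact ContinuousAt.comp (g := L) (f := fun θ : ℝ => (t + θ * I : ℂ))
      (hL.continuousAt (isOpen_S.mem_nhds (hmem θ))) hcurve.continuousAt
  have hd3 : ∀ θ : ℝ, HasDerivAt (fun θ : ℝ => L (t + θ * I))
      ((f (Complex.exp (t + θ * I)))⁻¹ *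
        fderiv ℝ f (Complex.exp (t + θ * I)) (Complex.exp (t + θ * I) * I)) θ := by
    intro θ
    exact hasDerivAt_of_exp (y := fun θ : ℝ => f (Complex.exp (t + θ * I))) (hLcont θ)
      (Filter.Eventually.of_forall (fun x => hL2 _ (hmem x))) (hd2 θ)
  have hcont : Continuous (fun θ : ℝ => ((f (Complex.exp (t + θ * I)))⁻¹ *
        fderiv ℝ f (Complex.exp (t + θ * I)) (Complex.exp (t + θ * I) * I))) := by
    have c1 : Continuous (fun θ : ℝ => Complex.exp (t + θ * I)) := by fun_prop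
    have c2 : Continuous (fun θ : ℝ => f (Complex.exp (t + θ * I))) :=
      hf.continuousOn.comp_continuous c1 (fun θ => exp_mem_Om (hmem θ))
    have c3 : Continuous (fun θ : ℝ => fderiv ℝ f (Complex.exp (t + θ * I))) :=
      (hf.continuousOn_fderiv_of_isOpen isOpen_Om le_rfl).comp_continuous c1
        (fun θ => exp_mem_Om (hmem θ))
    have c4 : Continuous (fun θ : ℝ => Complex.exp (t + θ * I) * I) := by fun_prop
    refine (c2.inv₀ ?_).mul (c3.clm_apply c4)
    intro θ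
    exact ne_zero_of_mem_Om (hm (exp_mem_Om (hmem θ)))
  have hint := intervalIntegral.integral_eq_sub_of_hasDerivAt (a := -Real.pi) (b := Real.pi)
    (fun θ _ => hd3 θ) (hcont.intervalIntegrable _ _)
  have him := intervalIntegral.intervalIntegral_im (𝕜 := ℂ) (hcont.intervalIntegrable
    (μ := MeasureTheory.volume) (-Real.pi) Real.pi)
  have e1 : ∀ z : ℂ, RCLike.im z = z.im := fun z => rfl
  simp only [e1] at him
  rw [him, hint]
  have e2 : (t + (Real.pi : ℝ) * I : ℂ) = (t + ((-Real.pi : ℝ) : ℂ) * I) + 2 * Real.pi * I := by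
    push_cast; ring
  rw [e2, hn2 _ (hmem _)]
  simp
  ring

end Pool.Agent.A78
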