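import Mathlib
import Pool.Agent.Work.MP_a78000_an.Unif
import Pool.Agent.Work.MP_a78000_an.Winding

/-!
Helper file for the disproof of MP_a78000_an.
The preimage of `Oms` under the exponential is simply connected.
-/

set_option autoImplicit false

open Complex Set Filter Topology

namespace Pool.Agent.A78

/-- a logarithm of `G` -/
noncomputable def Lam (ζ : ℂ) : ℂ :=
  ((Real.log 2 : ℝ) : ℂ) + ((Real.log (Real.cosh (F ζ).re) : ℝ) : ℂ) + ((F ζ).im : ℂ) * I
    + Complex.log (1 + (1/100) * (kap (wpt (F ζ)) / wpt (F ζ)))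

lemma small_quot {ζ : ℂ} (hζ : ζ ∈ strip9) :
    ‖(1/100 : ℂ) * (kap (wpt (F ζ)) / wpt (F ζ))‖ ≤ 3/10 := by
  have h1 := norm_kap_le (one_le_norm_wpt (F ζ)) (norm_wpt_le (F_mem hζ))
  have h2 := one_le_norm_wpt (F ζ)
  rw [norm_mul]
  have h3 : ‖kap (wpt (F ζ)) / wpt (F ζ)‖ ≤ 30 := by
    rw [norm_div, div_le_iff₀ (by linarith)]
    nlinarith
  have h4 : ‖(1/100 : ℂ)‖ = 1/100 := by norm_num
  rw [h4]; linarith

lemma mem_slit {ζ : ℂ} (hζ : ζ ∈ strip9) :
    1 + (1/100 : ℂ) * (kap (wpt (F ζ)) / wpt (F ζ)) ∈ slitPlane := by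
  apply Complex.mem_slitPlane_of_norm_lt_one
  have := small_quot hζ
  linarith

lemma exp_Lam {ζ : ℂ} (hζ : ζ ∈ strip9) : Complex.exp (Lam ζ) = G ζ := by
  unfold Lam G
  have h1 := Complex.slitPlane_ne_zero (mem_slit hζ)
  rw [Complex.exp_add, Complex.exp_add, Complex.exp_add, Complex.exp_log h1, ← Complex.ofReal_exp,
    ← Complex.ofReal_exp, Real.exp_log (by norm_num), Real.exp_log (Real.cosh_pos _), H_eq]
  have h2 := wpt_ne_zero (F ζ)
  have h3 : (Real.cosh (F ζ).re : ℂ) * Complex.exp ((F ζ).im * I) = wpt (F ζ) := rfl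
  have h4 : ((2:ℝ):ℂ) * (Real.cosh (F ζ).re : ℂ) * Complex.exp ((F ζ).im * I)
      = 2 * wpt (F ζ) := by rw [← h3]; push_cast; ring
  rw [h4]
  field_simp

lemma Lam_add_int {ζ : ℂ} (hζ : ζ ∈ strip9) (n : ℤ) :
    Lam (ζ + n * (2 * Real.pi * I)) = Lam ζ + n * (2 * Real.pi * I) := by
  unfold Lam
  rw [F_add_int hζ n]
  have hw : wpt (F ζ + n * (2 * Real.pi * I)) = wpt (F ζ) := by
    unfold wpt
    have e1 : (F ζ + n * (2 * Real.pi * I)).re = (F ζ).re := by simp
    have e2 : (((F ζ + n * (2 * Real.pi * I)).im : ℝ) : ℂ) * I = (F ζ).im * I + n * (2 * Real.pi * I) := by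
      have : (F ζ + n * (2 * Real.pi * I)).im = (F ζ).im + n * (2 * Real.pi) := by simp
      rw [this]; push_cast; ring
    rw [e1, e2, exp_add_int]
  rw [hw]
  have e1 : (F ζ + n * (2 * Real.pi * I)).re = (F ζ).re := by simp
  have e2 : (F ζ + n * (2 * Real.pi * I)).im = (F ζ).im + n * (2 * Real.pi) := by simp
  rw [e1, e2]
  push_cast; ring

lemma Lam_continuousOn : ContinuousOn Lam strip9 := by
  have hF := F_continuousOn
  have hre : ContinuousOn (fun ζ => (F ζ).re) strip9 := Complex.continuous_re.comp_continuousOn hF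
  have him : ContinuousOn (fun ζ => (F ζ).im) strip9 := Complex.continuous_im.comp_continuousOn hF
  have hw : ContinuousOn (fun ζ => wpt (F ζ)) strip9 := by
    have : Continuous wpt := by unfold wpt; fun_prop
    exact this.comp_continuousOn hF
  have hcw : ContinuousOn (fun ζ => (starRingEnd ℂ) (wpt (F ζ))) strip9 :=
    Complex.continuous_conj.comp_continuousOn hw
  have hk : ContinuousOn (fun ζ => kap (wpt (F ζ))) strip9 := by
    unfold kap
    apply ContinuousOn.sub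
    · apply ContinuousOn.add
      · exact continuousOn_const.mul hcw
      · exact continuousOn_const.mul (hw.pow 3)
    · apply ContinuousOn.mul continuousOn_const
      apply (hw.pow 2).div hcw
      intro ζ _
      exact (map_ne_zero _).mpr (wpt_ne_zero _)
  unfold Lam
  apply ContinuousOn.add
  · apply ContinuousOn.add
    · apply ContinuousOn.add continuousOn_const
      apply Complex.continuous_ofReal.comp_continuousOn
      apply ContinuousOn.log
      · exact Real.continuous_cosh.comp_continuousOn hre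
      · intro ζ _; exact (Real.cosh_pos _).ne'
    · exact (Complex.continuous_ofReal.comp_continuousOn him).mul continuousOn_const
  · apply ContinuousOn.clog
    · apply ContinuousOn.add continuousOn_const
      apply ContinuousOn.mul continuousOn_const
      exact hk.div hw (fun ζ _ => wpt_ne_zero _)
    · intro ζ hζ
      exact mem_slit hζ

/-- preimage of `Oms` under exp -/
def Vs : Set ℂ := {v : ℂ | Complex.exp v ∈ Oms}

lemma Lam_mem_Vs {ζ : ℂ} (hζ : ζ ∈ S) : Lam ζ ∈ Vs := by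
  show Complex.exp (Lam ζ) ∈ Oms
  rw [exp_Lam (S_sub_strip9 hζ), ← h_exp (S_sub_strip9 hζ)]
  exact ⟨_, exp_mem_Om hζ, rfl⟩

lemma Lam_injOn : InjOn Lam S := by
  intro ζ hζ ζ' hζ' e
  have h1 : G ζ = G ζ' := by
    rw [← exp_Lam (S_sub_strip9 hζ), ← exp_Lam (S_sub_strip9 hζ'), e]
  obtain ⟨n, hn⟩ := G_inj hζ hζ' h1
  rw [hn, Lam_add_int (S_sub_strip9 hζ')] at e
  have h2 : (n : ℂ) * (2 * Real.pi * I) = 0 := by linear_combination e
  rw [hn, h2, add_zero]

lemma Lam_surj {v : ℂ} (hv : v ∈ Vs) : ∃ ζ ∈ S, Lam ζ = v := by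
  obtain ⟨z, hz, hzv⟩ := hv
  have h1 : Complex.exp v = Complex.exp (Lam (Complex.log z)) := by
    rw [exp_Lam (S_sub_strip9 (log_mem_S hz))]; exact hzv.symm
  obtain ⟨n, hn⟩ := Complex.exp_eq_exp_iff_exists_int.mp h1
  refine ⟨Complex.log z + n * (2 * Real.pi * I), (add_int_mem_S n).mpr (log_mem_S hz), ?_⟩
  rw [Lam_add_int (S_sub_strip9 (log_mem_S hz)), hn]

/-- inverse of `Lam` -/
noncomputable def LamInv (v : ℂ) : ℂ := Function.invFunOn Lam S v

lemma LamInv_mem {v : ℂ} (hv : v ∈ Vs) : LamInv v ∈ S := Function.invFunOn_mem (Lam_surj hv)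

lemma Lam_LamInv {v : ℂ} (hv : v ∈ Vs) : Lam (LamInv v) = v := Function.invFunOn_eq (Lam_surj hv)

lemma isOpen_Vs : IsOpen Vs := h_inv_facts.1.preimage Complex.continuous_exp

lemma LamInv_continuousOn : ContinuousOn LamInv Vs := by
  intro v₀ hv₀
  apply ContinuousAt.continuousWithinAt
  set c : ℂ → ℂ := fun v => Function.invFunOn h Om (Complex.exp v) with hc
  have hcc : ContinuousOn c Vs :=
    h_inv_facts.2.continuousOn.comp Complex.continuous_exp.continuousOn (fun v hv => hv)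
  have hcm : ∀ v ∈ Vs, c v ∈ Om ∧ h (c v) = Complex.exp v := fun v hv =>
    ⟨Function.invFunOn_mem hv, Function.invFunOn_eq hv⟩
  set ζ₀ := LamInv v₀ with hζ₀
  have hζ₀S : ζ₀ ∈ S := LamInv_mem hv₀
  have hexpζ₀ : Complex.exp ζ₀ = c v₀ := by
    apply h_injOn (exp_mem_Om hζ₀S) (hcm v₀ hv₀).1
    rw [(hcm v₀ hv₀).2, h_exp (S_sub_strip9 hζ₀S), ← exp_Lam (S_sub_strip9 hζ₀S), Lam_LamInv hv₀]
  have hc0 : c v₀ ≠ 0 := ne_zero_of_mem_Om (hcm v₀ hv₀).1
  set ζf : ℂ → ℂ := fun v => Complex.log (c v / c v₀) + ζ₀ with hζf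
  have hcv₀ : ContinuousAt c v₀ := hcc.continuousAt (isOpen_Vs.mem_nhds hv₀)
  have hζfc : ContinuousAt ζf v₀ := by
    apply ContinuousAt.add _ continuousAt_const
    apply ContinuousAt.clog
    · exact hcv₀.div_const _
    · rw [div_self hc0]; simp
  have hζfv₀ : ζf v₀ = ζ₀ := by
    simp only [hζf]; rw [div_self hc0]; simp
  have hev1 : ∀ᶠ v in 𝓝 v₀, ζf v ∈ S := by
    apply hζfc
    rw [hζfv₀]; exact isOpen_S.mem_nhds hζ₀S
  have hev2 : ∀ᶠ v in 𝓝 v₀, v ∈ Vs := isOpen_Vs.mem_nhds hv₀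
  have hLc : ContinuousAt (fun v => Lam (ζf v) - v) v₀ := by
    apply ContinuousAt.sub _ continuousAt_id
    apply ContinuousAt.comp (g := Lam) (f := ζf) _ hζfc
    rw [hζfv₀]
    exact Lam_continuousOn.continuousAt (isOpen_strip9.mem_nhds (S_sub_strip9 hζ₀S))
  have hev3 : ∀ᶠ v in 𝓝 v₀, ‖Lam (ζf v) - v‖ < 1 := by
    have h1 : ContinuousAt (fun v => ‖Lam (ζf v) - v‖) v₀ := hLc.norm
    have h2 : ‖Lam (ζf v₀) - v₀‖ < 1 := by
      rw [hζfv₀, Lam_LamInv hv₀]; simp
    exact h1.eventually_lt_const h2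
  have hkey : LamInv =ᶠ[𝓝 v₀] ζf := by
    filter_upwards [hev1, hev2, hev3] with v h1 h2 h3
    have e1 : Complex.exp (ζf v) = c v := by
      simp only [hζf]
      rw [Complex.exp_add, Complex.exp_log (div_ne_zero (ne_zero_of_mem_Om (hcm v h2).1) hc0),
        hexpζ₀]
      field_simp
    have e2 : Complex.exp (Lam (ζf v)) = Complex.exp v := by
      rw [exp_Lam (S_sub_strip9 h1), ← h_exp (S_sub_strip9 h1), e1, (hcm v h2).2]
    obtain ⟨n, hn⟩ := Complex.exp_eq_exp_iff_exists_int.mp e2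
    have e3 : ‖(n : ℂ) * (2 * Real.pi * I)‖ < 1 := by
      have : (n : ℂ) * (2 * Real.pi * I) = Lam (ζf v) - v := by rw [hn]; ring
      rw [this]; exact h3
    have e4 : n = 0 := by
      by_contra hn0
      have h5 : (1:ℝ) ≤ |(n:ℝ)| := by exact_mod_cast Int.one_le_abs hn0
      rw [norm_mul, Complex.norm_intCast] at e3
      have h6 : ‖(2 * Real.pi * I : ℂ)‖ = 2 * Real.pi := by
        rw [norm_mul, norm_mul, Complex.norm_I, Complex.norm_real, Real.norm_eq_abs,
          abs_of_pos Real.pi_pos]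
        simp
      rw [h6] at e3
      have h7 := Real.pi_gt_three
      nlinarith
    rw [e4] at hn
    simp only [Int.cast_zero, zero_mul, add_zero] at hn
    apply Lam_injOn (LamInv_mem h2) h1
    rw [Lam_LamInv h2, hn]
  exact hζfc.congr hkey.symm

/-- homeomorphism between `S` and `Vs` -/
noncomputable def homeoS : S ≃ₜ Vs where
  toFun ζ := ⟨Lam ζ.1, Lam_mem_Vs ζ.2⟩
  invFun v := ⟨LamInv v.1, LamInv_mem v.2⟩
  left_inv ζ := by
    apply Subtype.ext
    exact Lam_injOn.leftInvOn_invFunOn ζ.2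
  right_inv v := by
    apply Subtype.ext
    exact Lam_LamInv v.2
  continuous_toFun := by
    apply Continuous.subtype_mk
    exact (Lam_continuousOn.mono S_sub_strip9).domRestrict
  continuous_invFun := by
    apply Continuous.subtype_mk
    exact LamInv_continuousOn.domRestrict

lemma isSimplyConnected_Vs : IsSimplyConnected Vs := by
  have h1 : SimplyConnectedSpace S := (isSimplyConnected_of_convex convex_S S_nonempty).simplyConnectedSpace
  exact (homeoS.toHomotopyEquiv.simplyConnectedSpace_iff).mp h1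

lemma Vs_ne_univ : Vs ≠ univ := by
  intro h
  have h1 : ((Real.log 6 : ℝ) : ℂ) ∈ Vs := by rw [h]; trivial
  obtain ⟨z, hz, hzv⟩ := h1
  have h2 : ‖Pool.Agent.A78.h z‖ ≤ 5 := H_upper (F_mem (S_sub_strip9 (log_mem_S hz)))
  rw [hzv, ← Complex.ofReal_exp, Real.exp_log (by norm_num)] at h2
  norm_num at h2

lemma Vs_per (z : ℂ) : z ∈ Vs ↔ z + 2 * Real.pi * I ∈ Vs := by
  have : Complex.exp (z + 2 * Real.pi * I) = Complex.exp z := Complex.exp_periodic z
  show Complex.exp z ∈ Oms ↔ Complex.exp (z + 2 * Real.pi * I) ∈ Oms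
  rw [this]

lemma exp_image_Vs : Complex.exp '' Vs = Oms := by
  apply Subset.antisymm
  · rintro _ ⟨v, hv, rfl⟩; exact hv
  · rintro w hw
    have hw0 : w ≠ 0 := by
      obtain ⟨z, hz, rfl⟩ := hw
      have h1 : 1 ≤ ‖h z‖ := H_lower (F_mem (S_sub_strip9 (log_mem_S hz)))
      rw [← norm_pos_iff]; linarith
    refine ⟨Complex.log w, ?_, Complex.exp_log hw0⟩
    show Complex.exp (Complex.log w) ∈ Oms
    rw [Complex.exp_log hw0]; exact hw

/-- Uniformisation of `Oms` -/
theorem Oms_uniformization :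
    ∃ (rs : ℝ) (ψ : ℂ → ℂ), 0 ≤ rs ∧ rs < 1 ∧ DifferentiableOn ℂ ψ Oms ∧
      InjOn ψ Oms ∧ ψ '' Oms = {z : ℂ | rs < ‖z‖ ∧ ‖z‖ < 1} := by
  have := ring_uniformization isOpen_Vs isSimplyConnected_Vs Vs_ne_univ Vs_per
  rwa [exp_image_Vs] at this

end Pool.Agent.A78
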