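import Mathlib
import Pool.Agent.Work.MP_a78000_an.Winding

/-!
Helper file for the disproof of MP_a78000_an.
Logarithmic polar coordinates for integrals over the annulus.
-/

set_option autoImplicit false

open Complex Set Filter Topology MeasureTheory
open scoped ENNReal

namespace Pool.Agent.A78

/-- the rectangle -/
def Rec : Set ℂ := {z : ℂ | (0 < z.re ∧ z.re < 1/2) ∧ (-Real.pi < z.im ∧ z.im < Real.pi)}

lemma isOpen_Rec : IsOpen Rec := by
  apply IsOpen.inter
  · exact (isOpen_lt continuous_const Complex.continuous_re).inter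
      (isOpen_lt Complex.continuous_re continuous_const)
  · exact (isOpen_lt continuous_const Complex.continuous_im).inter
      (isOpen_lt Complex.continuous_im continuous_const)

lemma Rec_sub_S : Rec ⊆ S := fun _ hz => hz.1

lemma exp_injOn_Rec : InjOn Complex.exp Rec := by
  intro z hz w hw he
  exact Complex.exp_inj_of_neg_pi_lt_of_le_pi hz.2.1 hz.2.2.le hw.2.1 hw.2.2.le he

lemma volume_real_line : volume {z : ℂ | z.im = 0} = 0 := by
  have h := Measure.addHaar_submodule (volume : Measure ℂ) (LinearMap.ker (Complex.imLm)) (by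
    intro h
    have : (I : ℂ) ∈ LinearMap.ker (Complex.imLm) := by rw [h]; trivial
    simp at this)
  convert h using 2
  ext z; simp

lemma exp_image_Rec : Complex.exp '' Rec =ᵐ[volume] Om := by
  have h1 : Complex.exp '' Rec ⊆ Om := by
    rintro _ ⟨ζ, hζ, rfl⟩
    exact exp_mem_Om (Rec_sub_S hζ)
  rw [ae_eq_set]
  refine ⟨by rw [sdiff_eq_empty.mpr h1]; simp, ?_⟩
  refine measure_mono_null ?_ volume_real_line
  rintro z ⟨hz, hz2⟩
  by_contra him
  apply hz2
  have hz0 := ne_zero_of_mem_Om hz
  refine ⟨Complex.log z, ⟨log_mem_S hz, ?_, ?_⟩, Complex.exp_log hz0⟩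
  · exact Complex.neg_pi_lt_log_im z
  · refine lt_of_le_of_ne (Complex.log_im_le_pi z) ?_
    intro h2
    rw [Complex.log_im, Complex.arg_eq_pi_iff] at h2
    exact him h2.2

lemma lintegral_Rec (q : ℂ → ℝ≥0∞) (hq : AEMeasurable q (volume.restrict Rec)) :
    ∫⁻ ζ in Rec, q ζ = ∫⁻ t in Ioo (0:ℝ) (1/2), ∫⁻ θ in Ioo (-Real.pi) Real.pi, q (t + θ * I) := by
  have hmp := Complex.volume_preserving_equiv_real_prod.symm Complex.measurableEquivRealProd
  have hpre : Complex.measurableEquivRealProd.symm ⁻¹' Rec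
      = (Ioo (0:ℝ) (1/2)) ×ˢ (Ioo (-Real.pi) Real.pi) := by
    ext p
    simp [Rec, Complex.measurableEquivRealProd_symm_apply]
  have h1 := hmp.setLIntegral_comp_preimage_emb
    (Complex.measurableEquivRealProd.symm.measurableEmbedding) q Rec
  rw [hpre] at h1
  rw [← h1]
  have hmeas : AEMeasurable (fun p : ℝ × ℝ => q (Complex.measurableEquivRealProd.symm p))
      ((volume.prod volume).restrict ((Ioo (0:ℝ) (1/2)) ×ˢ (Ioo (-Real.pi) Real.pi))) := by
    have h2 := hmp.restrict_preimage (s := Rec) isOpen_Rec.measurableSet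
    rw [hpre] at h2
    exact hq.comp_quasiMeasurePreserving h2.quasiMeasurePreserving
  have h3 := setLIntegral_prod _ hmeas
  rw [← MeasureTheory.Measure.volume_eq_prod] at h3
  rw [h3]
  apply lintegral_congr; intro t
  apply lintegral_congr; intro θ
  congr 1
  rw [Complex.measurableEquivRealProd_symm_apply]
  apply Complex.ext <;> simp

lemma lintegral_Om_eq (p : ℂ → ℝ) (hp : ContinuousOn p Om) :
    ∫⁻ z in Om, ENNReal.ofReal (p z) = ∫⁻ t in Ioo (0:ℝ) (1/2), ∫⁻ θ in Ioo (-Real.pi) Real.pi,
      ENNReal.ofReal (Real.exp (2*t) * p (Complex.exp (t + θ * I))) := by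
  rw [← setLIntegral_congr exp_image_Rec]
  have hd : ∀ ζ ∈ Rec, HasFDerivWithinAt Complex.exp (mulL (Complex.exp ζ)) Rec ζ := by
    intro ζ _
    have := (Complex.hasDerivAt_exp ζ).hasFDerivAt.restrictScalars ℝ
    exact this.hasFDerivWithinAt
  rw [lintegral_image_eq_lintegral_abs_det_fderiv_mul volume isOpen_Rec.measurableSet hd
    exp_injOn_Rec]
  have e1 : ∀ ζ ∈ Rec, ENNReal.ofReal |(mulL (Complex.exp ζ)).det| * ENNReal.ofReal (p (Complex.exp ζ))
      = ENNReal.ofReal (Real.exp (2 * ζ.re) * p (Complex.exp ζ)) := by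
    intro ζ _
    rw [det_mulL, abs_of_nonneg (by positivity), ← ENNReal.ofReal_mul (by positivity),
      Complex.norm_exp, ← Real.exp_nat_mul]
    push_cast
    rfl
  rw [setLIntegral_congr_fun isOpen_Rec.measurableSet e1, lintegral_Rec]
  · apply lintegral_congr; intro t
    apply lintegral_congr; intro θ
    congr 2
    simp
  · apply AEMeasurable.ennreal_ofReal
    apply ContinuousOn.aemeasurable _ isOpen_Rec.measurableSet
    apply ContinuousOn.mul
    · fun_prop
    · exact hp.comp Complex.continuous_exp.continuousOn (fun ζ hζ => exp_mem_Om (Rec_sub_S hζ))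

end Pool.Agent.A78
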