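import Mathlib
import Pool.Agent.Work.MP_a78000_an.Polar

/-!
Helper file for the disproof of MP_a78000_an.
Energy-minimality of `h`.
-/

set_option autoImplicit false

open Complex Set Filter Topology MeasureTheory
open scoped ENNReal NNReal

namespace Pool.Agent.A78

/-- the weight -/
noncomputable def lam (z : ℂ) : ℝ := 8 * Real.sinh (F (Complex.log z)).re ^ 2 * ‖z⁻¹‖^2

lemma lam_nonneg (z : ℂ) : 0 ≤ lam z := by unfold lam; positivity

/-- Dirichlet energy on `Om` -/
noncomputable def energy (g : ℂ → ℂ) : ℝ≥0∞ :=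
  ∫⁻ z in Om, (((‖fderiv ℝ g z 1‖₊ ^ 2 + ‖fderiv ℝ g z Complex.I‖₊ ^ 2 : ℝ≥0)) : ℝ≥0∞)

lemma coe_eq_ofReal (a b : ℂ) : (((‖a‖₊ ^ 2 + ‖b‖₊ ^ 2 : ℝ≥0)) : ℝ≥0∞)
    = ENNReal.ofReal (‖a‖^2 + ‖b‖^2) := by
  rw [ENNReal.ofReal]
  congr 1
  apply NNReal.eq
  rw [Real.coe_toNNReal _ (by positivity)]
  simp

lemma energy_h : energy h = (∫⁻ z in Om, ENNReal.ofReal (lam z)) + ENNReal.ofReal (4 * Real.pi) := by
  have h1 : energy h = ∫⁻ z in Om, (ENNReal.ofReal (lam z) + ENNReal.ofReal (4 * ‖z‖⁻¹^2)) := by
    apply setLIntegral_congr_fun isOpen_Om.measurableSet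
    intro z hz
    simp only
    rw [coe_eq_ofReal, (h_hasFDerivAt hz).fderiv, Dh_normsq, Dh_normsq,
      ← ENNReal.ofReal_add (lam_nonneg z) (by positivity)]
    congr 1
    unfold lam
    rw [norm_mul, norm_mul, norm_one, Complex.norm_I, mul_one]
    have e : (z⁻¹ * 1).im^2 + (z⁻¹ * I).im^2 = ‖z⁻¹‖^2 := by
      rw [← Complex.normSq_eq_norm_sq, Complex.normSq_apply]
      simp
      ring
    rw [norm_inv] at *
    linear_combination 4 * e
  rw [h1, lintegral_add_right _ (by fun_prop)]
  congr 1
  rw [lintegral_Om_eq (fun z => 4 * ‖z‖⁻¹^2)]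
  · have : ∀ t θ : ℝ, ENNReal.ofReal (Real.exp (2*t) * (4 * ‖Complex.exp (t + θ * I)‖⁻¹^2))
        = ENNReal.ofReal 4 := by
      intro t θ
      congr 1
      rw [Complex.norm_exp]
      have : ((t:ℂ) + θ * I).re = t := by simp
      rw [this, ← Real.exp_neg, ← Real.exp_nat_mul]
      push_cast
      have e : Real.exp (2*t) * Real.exp (2 * -t) = 1 := by
        rw [← Real.exp_add]; ring_nf; exact Real.exp_zero
      linear_combination 4 * e
    simp only [this]
    simp only [lintegral_const, MeasurableSet.univ, Measure.restrict_apply, univ_inter,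
      Real.volume_Ioo]
    rw [← ENNReal.ofReal_mul (by norm_num), ← ENNReal.ofReal_mul (by
      have := Real.pi_pos; nlinarith)]
    congr 1
    ring
  · apply ContinuousOn.mul continuousOn_const
    apply ContinuousOn.pow
    apply ContinuousOn.inv₀ continuous_norm.continuousOn
    intro z hz
    exact (norm_pos_iff.mpr (ne_zero_of_mem_Om hz)).ne'

lemma lam_le {z : ℂ} (hz : z ∈ Om) : lam z ≤ 8 * Real.sinh 1 ^ 2 := by
  unfold lam
  have h1 := U_pos hz
  have h2 : (F (Complex.log z)).re ≤ 1 := by
    have := F_mem (S_sub_strip9 (log_mem_S hz))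
    exact (abs_le.mp this).2
  have h3 : Real.sinh (F (Complex.log z)).re ≤ Real.sinh 1 := Real.sinh_le_sinh.mpr h2
  have h4 : 0 ≤ Real.sinh (F (Complex.log z)).re := (Real.sinh_pos_iff.mpr h1).le
  have h5 : ‖z⁻¹‖ ≤ 1 := by
    rw [norm_inv]
    exact inv_le_one_of_one_le₀ hz.1.le
  have h6 : ‖z⁻¹‖^2 ≤ 1 := pow_le_one₀ (norm_nonneg _) h5
  calc 8 * Real.sinh (F (Complex.log z)).re ^ 2 * ‖z⁻¹‖^2
      ≤ 8 * Real.sinh 1 ^ 2 * 1 := by gcongr
    _ = _ := by ring

lemma volume_Om_lt_top : volume Om < ⊤ := by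
  refine lt_of_le_of_lt (measure_mono ?_) (measure_ball_lt_top (x := (0:ℂ)) (r := Real.exp (1/2)))
  intro z hz
  rw [mem_ball_zero_iff]; exact hz.2

lemma energy_h_lt_top : energy h < ⊤ := by
  rw [energy_h]
  apply ENNReal.add_lt_top.mpr
  refine ⟨?_, ENNReal.ofReal_lt_top⟩
  calc ∫⁻ z in Om, ENNReal.ofReal (lam z) ≤ ∫⁻ _ in Om, ENNReal.ofReal (8 * Real.sinh 1 ^ 2) := by
        apply setLIntegral_mono' isOpen_Om.measurableSet
        intro z hz
        exact ENNReal.ofReal_le_ofReal (lam_le hz)
    _ = ENNReal.ofReal (8 * Real.sinh 1 ^ 2) * volume Om := by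
        rw [setLIntegral_const]
    _ < ⊤ := ENNReal.mul_lt_top ENNReal.ofReal_lt_top volume_Om_lt_top

lemma fderiv_smul_bound (ℓ : ℂ →L[ℝ] ℂ) (u : ℂ) (hu : ‖u‖ = 1) :
    (ℓ u).im ^ 2 ≤ (ℓ 1).im^2 + (ℓ I).im^2 := by
  have h1 : u = u.re • (1:ℂ) + u.im • I := by
    apply Complex.ext <;> simp
  have h2 : (ℓ u).im = u.re * (ℓ 1).im + u.im * (ℓ I).im := by
    conv_lhs => rw [h1]
    rw [map_add, map_smul, map_smul]
    simp
  have h3 : u.re^2 + u.im^2 = 1 := by
    have := Complex.normSq_eq_norm_sq u
    rw [Complex.normSq_apply, hu] at this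
    linarith
  rw [h2]
  nlinarith [sq_nonneg (u.re * (ℓ I).im - u.im * (ℓ 1).im)]

theorem energy_min {g k : ℂ → ℂ} (hg : ContDiffOn ℝ 1 g Om) (hgm : MapsTo g Om Oms)
    (hk : ContDiffOn ℝ 1 k Oms) (hkm : MapsTo k Oms Om)
    (hkg : ∀ z ∈ Om, k (g z) = z) (hgk : ∀ w ∈ Oms, g (k w) = w) : energy h ≤ energy g := by
  set f : ℂ → ℂ := fun z => Function.invFunOn h Om (g z) with hfdef
  set f' : ℂ → ℂ := fun z => k (h z) with hf'def
  have hhm : MapsTo h Om Oms := fun z hz => ⟨z, hz, rfl⟩
  have hf : ContDiffOn ℝ 1 f Om := h_inv_facts.2.comp hg hgm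
  have hfm : MapsTo f Om Om := fun z hz => Function.invFunOn_mem (hgm hz)
  have hhf : ∀ z ∈ Om, h (f z) = g z := fun z hz => Function.invFunOn_eq (hgm hz)
  have hhc : ContinuousOn h Om := fun z hz => (h_contDiffAt hz).continuousAt.continuousWithinAt
  have hf'c : ContinuousOn f' Om := hk.continuousOn.comp hhc hhm
  have hf'm : MapsTo f' Om Om := fun z hz => hkm (hhm hz)
  have hf'f : ∀ z ∈ Om, f' (f z) = z := by
    intro z hz
    simp only [hf'def]
    rw [hhf z hz, hkg z hz]
  have hff' : ∀ z ∈ Om, f (f' z) = z := by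
    intro z hz
    apply h_injOn (hfm (hf'm hz)) hz
    rw [hhf _ (hf'm hz)]
    exact hgk _ (hhm hz)
  have hinj : InjOn f Om := by
    intro z hz w hw e
    rw [← hf'f z hz, ← hf'f w hw, e]
  have himg : f '' Om = Om := by
    apply Subset.antisymm
    · rintro _ ⟨z, hz, rfl⟩; exact hfm hz
    · intro z hz; exact ⟨f' z, hf'm hz, hff' z hz⟩
  have hfd : ∀ z ∈ Om, HasFDerivAt f (fderiv ℝ f z) z := fun z hz =>
    ((hf.contDiffAt (isOpen_Om.mem_nhds hz)).differentiableAt (by norm_num)).hasFDerivAt
  have hgd : ∀ z ∈ Om, fderiv ℝ g z = (Dh (f z)).comp (fderiv ℝ f z) := by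
    intro z hz
    have h1 := (h_hasFDerivAt (hfm hz)).comp z (hfd z hz)
    have h2 : g =ᶠ[𝓝 z] h ∘ f := by
      filter_upwards [isOpen_Om.mem_nhds hz] with w hw
      exact (hhf w hw).symm
    exact (h1.congr_of_eventuallyEq h2).fderiv
  set A : ℂ → ℝ := fun z => ((f z)⁻¹ * fderiv ℝ f z (z * I)).im with hA
  have hcontA : ContinuousOn A Om := by
    apply Complex.continuous_im.comp_continuousOn
    apply ContinuousOn.mul
    · exact hf.continuousOn.inv₀ (fun z hz => ne_zero_of_mem_Om (hfm hz))
    · exact (hf.continuousOn_fderiv_of_isOpen isOpen_Om le_rfl).clm_apply (by fun_prop)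
  -- pointwise bound
  have hpt : ∀ z ∈ Om, ENNReal.ofReal |(fderiv ℝ f z).det| * ENNReal.ofReal (lam (f z))
      + ENNReal.ofReal (4 * A z ^ 2 * ‖z‖⁻¹^2)
      ≤ (((‖fderiv ℝ g z 1‖₊ ^ 2 + ‖fderiv ℝ g z Complex.I‖₊ ^ 2 : ℝ≥0)) : ℝ≥0∞) := by
    intro z hz
    rw [coe_eq_ofReal, ← ENNReal.ofReal_mul (abs_nonneg _),
      ← ENNReal.ofReal_add (mul_nonneg (abs_nonneg _) (lam_nonneg _)) (by positivity)]
    apply ENNReal.ofReal_le_ofReal
    rw [hgd z hz, ContinuousLinearMap.comp_apply, ContinuousLinearMap.comp_apply, Dh_normsq,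
      Dh_normsq]
    have h1 := two_abs_det_le (fderiv ℝ f z)
    have hz0 : z ≠ 0 := ne_zero_of_mem_Om hz
    have hznorm : ‖z‖ ≠ 0 := norm_ne_zero_iff.mpr hz0
    have h2 := fderiv_smul_bound ((mulL (f z)⁻¹).comp (fderiv ℝ f z)) ((‖z‖⁻¹ : ℝ) • (z * I))
      (by rw [norm_smul, norm_mul, Complex.norm_I, mul_one, norm_inv, norm_norm]
          exact inv_mul_cancel₀ hznorm)
    rw [map_smul, Complex.smul_im] at h2
    simp only [ContinuousLinearMap.comp_apply, mulL_apply, smul_eq_mul] at h2
    have h3 : (‖z‖⁻¹ * ((f z)⁻¹ * fderiv ℝ f z (z * I)).im)^2 = A z^2 * ‖z‖⁻¹^2 := by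
      simp only [hA]; ring
    rw [h3] at h2
    rw [norm_mul, norm_mul]
    unfold lam
    have h4 : 0 ≤ Real.sinh (F (Complex.log (f z))).re ^ 2 * ‖(f z)⁻¹‖^2 := by positivity
    nlinarith [mul_le_mul_of_nonneg_left h1 h4]
  -- integrate
  calc energy h = (∫⁻ z in Om, ENNReal.ofReal (lam z)) + ENNReal.ofReal (4 * Real.pi) := energy_h
    _ ≤ (∫⁻ z in Om, ENNReal.ofReal |(fderiv ℝ f z).det| * ENNReal.ofReal (lam (f z)))
        + ∫⁻ z in Om, ENNReal.ofReal (4 * A z ^ 2 * ‖z‖⁻¹^2) := by
        gcongr ?_ + ?_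
        · have := lintegral_image_eq_lintegral_abs_det_fderiv_mul volume isOpen_Om.measurableSet
            (fun z hz => (hfd z hz).hasFDerivWithinAt) hinj (fun z => ENNReal.ofReal (lam z))
          rw [himg] at this
          exact this.le
        · rw [lintegral_Om_eq (fun z => 4 * A z ^ 2 * ‖z‖⁻¹^2)]
          · obtain ⟨n, hn, hint⟩ := winding hf hfm hf'c hf'm hf'f
            have hin : ∀ t ∈ Ioo (0:ℝ) (1/2), ENNReal.ofReal (8 * Real.pi) ≤
                ∫⁻ θ in Ioo (-Real.pi) Real.pi, ENNReal.ofReal (Real.exp (2*t)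
                  * (4 * A (Complex.exp (t + θ * I)) ^ 2 * ‖Complex.exp (t + θ * I)‖⁻¹^2)) := by
              intro t ht
              have e1 : ∀ θ : ℝ, Real.exp (2*t)
                  * (4 * A (Complex.exp (t + θ * I)) ^ 2 * ‖Complex.exp (t + θ * I)‖⁻¹^2)
                  = 4 * A (Complex.exp (t + θ * I)) ^ 2 := by
                intro θ
                rw [Complex.norm_exp]
                have : ((t:ℂ) + θ * I).re = t := by simp
                rw [this, ← Real.exp_neg, ← Real.exp_nat_mul]
                push_cast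
                have e : Real.exp (2*t) * Real.exp (2 * -t) = 1 := by
                  rw [← Real.exp_add]; ring_nf; exact Real.exp_zero
                linear_combination 4 * A (Complex.exp (t + θ * I)) ^ 2 * e
              simp only [e1]
              have hcA : Continuous (fun θ : ℝ => A (Complex.exp (t + θ * I))) := by
                apply hcontA.comp_continuous (by fun_prop)
                intro θ
                apply exp_mem_Om
                exact ⟨by simpa using ht.1, by simpa using ht.2⟩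
              have hii : IntervalIntegrable (fun θ : ℝ => A (Complex.exp (t + θ * I))) volume
                (-Real.pi) Real.pi := hcA.intervalIntegrable _ _
              have hii2 : IntervalIntegrable (fun θ : ℝ => 4 * A (Complex.exp (t + θ * I))^2) volume
                (-Real.pi) Real.pi := ((hcA.pow 2).const_mul 4).intervalIntegrable _ _
              have hlow : 8 * Real.pi ≤ ∫ θ in (-Real.pi)..Real.pi,
                  4 * A (Complex.exp (t + θ * I)) ^ 2 := by
                have hmono : ∫ θ in (-Real.pi)..Real.pi,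
                    (8 * n * A (Complex.exp (t + θ * I)) - 4) ≤ ∫ θ in (-Real.pi)..Real.pi,
                    4 * A (Complex.exp (t + θ * I)) ^ 2 := by
                  apply intervalIntegral.integral_mono_on (by linarith [Real.pi_pos])
                    (((hcA.const_mul _).sub continuous_const).intervalIntegrable _ _) hii2
                  intro θ _
                  have hn2 : n^2 = 1 := by rcases hn with h | h <;> rw [h] <;> norm_num
                  show 8 * n * A (Complex.exp (t + θ * I)) - 4 ≤ 4 * A (Complex.exp (t + θ * I)) ^ 2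
                  nlinarith [sq_nonneg (A (Complex.exp (t + θ * I)) - n)]
                have hval : ∫ θ in (-Real.pi)..Real.pi,
                    (8 * n * A (Complex.exp (t + θ * I)) - 4) = 8 * Real.pi := by
                  rw [intervalIntegral.integral_sub (hii.const_mul _) (by simp),
                    intervalIntegral.integral_const_mul, hint t ht]
                  rw [intervalIntegral.integral_const]
                  have hn2 : n^2 = 1 := by rcases hn with h | h <;> rw [h] <;> norm_num
                  simp only [smul_eq_mul]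
                  linear_combination 16 * Real.pi * hn2
                linarith
              calc ENNReal.ofReal (8 * Real.pi) ≤ ENNReal.ofReal (∫ θ in (-Real.pi)..Real.pi,
                  4 * A (Complex.exp (t + θ * I)) ^ 2) := ENNReal.ofReal_le_ofReal hlow
                _ = ∫⁻ θ in Ioo (-Real.pi) Real.pi,
                    ENNReal.ofReal (4 * A (Complex.exp (t + θ * I)) ^ 2) := by
                    rw [intervalIntegral.integral_of_le (by linarith [Real.pi_pos]),
                      integral_Ioc_eq_integral_Ioo,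
                      ofReal_integral_eq_lintegral_ofReal]
                    · exact (hii2.1).mono_set Ioo_subset_Ioc_self
                    · exact Filter.Eventually.of_forall (fun θ => by positivity)
            calc ENNReal.ofReal (4 * Real.pi) = ∫⁻ t in Ioo (0:ℝ) (1/2), ENNReal.ofReal (8 * Real.pi) := by
                  rw [setLIntegral_const, Real.volume_Ioo, ← ENNReal.ofReal_mul (by
                    have := Real.pi_pos; positivity)]
                  congr 1; ring
              _ ≤ _ := setLIntegral_mono' measurableSet_Ioo hin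
          · apply ContinuousOn.mul
            · exact (hcontA.pow 2).const_mul _ 
            · apply ContinuousOn.pow
              apply ContinuousOn.inv₀ continuous_norm.continuousOn
              intro z hz
              exact (norm_pos_iff.mpr (ne_zero_of_mem_Om hz)).ne'
    _ ≤ ∫⁻ z in Om, (ENNReal.ofReal |(fderiv ℝ f z).det| * ENNReal.ofReal (lam (f z))
          + ENNReal.ofReal (4 * A z ^ 2 * ‖z‖⁻¹^2)) := le_lintegral_add _ _
    _ ≤ energy g := setLIntegral_mono' isOpen_Om.measurableSet hpt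

end Pool.Agent.A78
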