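import Mathlib
import Pool.Agent.Work.MP_a78000_an.Energy

/-!
Helper file for the disproof of MP_a78000_an.
Elementary facts used in the last step.
-/

set_option autoImplicit false

open Complex Set Filter Topology MeasureTheory

namespace Pool.Agent.A78

lemma bounded_Om : Bornology.IsBounded Om := by
  apply (Metric.isBounded_ball (x := (0:ℂ)) (r := Real.exp (1/2))).subset
  intro z hz
  rw [mem_ball_zero_iff]
  exact hz.2

lemma bounded_Oms : Bornology.IsBounded Oms := by
  apply (Metric.isBounded_closedBall (x := (0:ℂ)) (r := 5)).subset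
  rintro _ ⟨z, hz, rfl⟩
  rw [mem_closedBall_zero_iff]
  have hs := log_mem_S hz
  exact H_upper (F_mem (S_sub_strip9 hs))

lemma scale_injOn : InjOn (fun z : ℂ => ((Real.exp (-(1/2)) : ℝ) : ℂ) * z) Om := by
  intro z _ w _ h
  have h0 : ((Real.exp (-(1/2)) : ℝ) : ℂ) ≠ 0 := by
    exact_mod_cast (Real.exp_pos _).ne'
  exact mul_left_cancel₀ h0 h

lemma scale_image : (fun z : ℂ => ((Real.exp (-(1/2)) : ℝ) : ℂ) * z) '' Om
    = {z : ℂ | Real.exp (-(1/2)) < ‖z‖ ∧ ‖z‖ < 1} := by
  have hp : (0:ℝ) < Real.exp (-(1/2)) := Real.exp_pos _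
  have hq : (0:ℝ) < Real.exp (1/2) := Real.exp_pos _
  have hpq : Real.exp (-(1/2)) * Real.exp (1/2) = 1 := by
    rw [← Real.exp_add]; norm_num
  ext z
  constructor
  · rintro ⟨w, hw, rfl⟩
    simp only [mem_ofPred_eq, norm_mul, Complex.norm_real, Real.norm_eq_abs, abs_of_pos hp]
    constructor
    · nlinarith [hw.1]
    · nlinarith [hw.2]
  · rintro ⟨h1, h2⟩
    refine ⟨((Real.exp (1/2) : ℝ) : ℂ) * z, ⟨?_, ?_⟩, ?_⟩
    · rw [norm_mul, Complex.norm_real, Real.norm_eq_abs, abs_of_pos hq]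
      nlinarith
    · rw [norm_mul, Complex.norm_real, Real.norm_eq_abs, abs_of_pos hq]
      nlinarith
    · show ((Real.exp (-(1/2)) : ℝ) : ℂ) * (((Real.exp (1/2) : ℝ) : ℂ) * z) = z
      rw [← mul_assoc, ← Complex.ofReal_mul, hpq]
      simp

lemma h_contDiffOn : ContDiffOn ℝ 1 h Om := fun z hz =>
  ((h_contDiffAt hz).of_le (by norm_num)).contDiffWithinAt

end Pool.Agent.A78
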