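import Mathlib
import Pool.Agent.Work.MP_a78000_an.Energy

/-!
Helper file for the Sobolev version of the disproof of MP_a78000_an.
Sub-annuli, the area inequality for non-injective maps, and the lower bound for the energy of
smooth maps which are close to a homeomorphism.
-/

set_option autoImplicit false

open Complex Set Filter Topology MeasureTheory
open scoped ENNReal NNReal

namespace Pool.Agent.A78

/-- the smaller annulus -/
def OmA (s : ℝ) : Set ℂ := {z : ℂ | Real.exp s < ‖z‖ ∧ ‖z‖ < Real.exp (1/2 - s)}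

/-- the smaller strip -/
def SA (s : ℝ) : Set ℂ := {z : ℂ | s < z.re ∧ z.re < 1/2 - s}

/-- the smaller rectangle -/
def RecA (s : ℝ) : Set ℂ :=
  {z : ℂ | (s < z.re ∧ z.re < 1/2 - s) ∧ (-Real.pi < z.im ∧ z.im < Real.pi)}

lemma isOpen_OmA (s : ℝ) : IsOpen (OmA s) :=
  (isOpen_lt continuous_const continuous_norm).inter (isOpen_lt continuous_norm continuous_const)

lemma isOpen_SA (s : ℝ) : IsOpen (SA s) :=
  (isOpen_lt continuous_const Complex.continuous_re).inter
    (isOpen_lt Complex.continuous_re continuous_const)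

lemma isOpen_RecA (s : ℝ) : IsOpen (RecA s) :=
  (isOpen_SA s).inter ((isOpen_lt continuous_const Complex.continuous_im).inter
    (isOpen_lt Complex.continuous_im continuous_const))

lemma OmA_sub_Om {s : ℝ} (hs : 0 ≤ s) : OmA s ⊆ Om := by
  intro z hz
  refine ⟨lt_of_le_of_lt (Real.one_le_exp hs) hz.1, lt_of_lt_of_le hz.2 ?_⟩
  exact Real.exp_le_exp.mpr (by linarith)

lemma SA_sub_S {s : ℝ} (hs : 0 ≤ s) : SA s ⊆ S := by
  intro z hz
  exact ⟨lt_of_le_of_lt hs hz.1, lt_of_lt_of_le hz.2 (by linarith)⟩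

lemma exp_mem_OmA {s : ℝ} {ζ : ℂ} (hζ : ζ ∈ SA s) : Complex.exp ζ ∈ OmA s := by
  refine ⟨?_, ?_⟩
  · rw [Complex.norm_exp]; exact Real.exp_lt_exp.mpr hζ.1
  · rw [Complex.norm_exp]; exact Real.exp_lt_exp.mpr hζ.2

lemma exp_image_RecA {s : ℝ} (hs : 0 ≤ s) : Complex.exp '' RecA s =ᵐ[volume] OmA s := by
  have h1 : Complex.exp '' RecA s ⊆ OmA s := by
    rintro _ ⟨ζ, hζ, rfl⟩
    exact exp_mem_OmA hζ.1
  rw [ae_eq_set]
  refine ⟨by rw [sdiff_eq_empty.mpr h1]; simp, ?_⟩
  refine measure_mono_null ?_ volume_real_line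
  rintro z ⟨hz, hz2⟩
  by_contra him
  apply hz2
  have hz0 := ne_zero_of_mem_Om (OmA_sub_Om hs hz)
  have hzn : 0 < ‖z‖ := norm_pos_iff.mpr hz0
  refine ⟨Complex.log z, ⟨⟨?_, ?_⟩, ?_, ?_⟩, Complex.exp_log hz0⟩
  · rw [Complex.log_re]; exact (Real.lt_log_iff_exp_lt hzn).mpr hz.1
  · rw [Complex.log_re]; exact (Real.log_lt_iff_lt_exp hzn).mpr hz.2
  · exact Complex.neg_pi_lt_log_im z
  · refine lt_of_le_of_ne (Complex.log_im_le_pi z) ?_
    intro h2
    rw [Complex.log_im, Complex.arg_eq_pi_iff] at h2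
    exact him h2.2

lemma RecA_sub_Rec {s : ℝ} (hs : 0 ≤ s) : RecA s ⊆ Rec := fun _ hz => ⟨SA_sub_S hs hz.1, hz.2⟩

lemma lintegral_RecA (s : ℝ) (q : ℂ → ℝ≥0∞) (hq : AEMeasurable q (volume.restrict (RecA s))) :
    ∫⁻ ζ in RecA s, q ζ
      = ∫⁻ t in Ioo s (1/2 - s), ∫⁻ θ in Ioo (-Real.pi) Real.pi, q (t + θ * I) := by
  have hmp := Complex.volume_preserving_equiv_real_prod.symm Complex.measurableEquivRealProd
  have hpre : Complex.measurableEquivRealProd.symm ⁻¹' (RecA s)
      = (Ioo s (1/2 - s)) ×ˢ (Ioo (-Real.pi) Real.pi) := by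
    ext p
    simp [RecA, Complex.measurableEquivRealProd_symm_apply]
  have h1 := hmp.setLIntegral_comp_preimage_emb
    (Complex.measurableEquivRealProd.symm.measurableEmbedding) q (RecA s)
  rw [hpre] at h1
  rw [← h1]
  have hmeas : AEMeasurable (fun p : ℝ × ℝ => q (Complex.measurableEquivRealProd.symm p))
      ((volume.prod volume).restrict ((Ioo s (1/2 - s)) ×ˢ (Ioo (-Real.pi) Real.pi))) := by
    have h2 := hmp.restrict_preimage (s := RecA s) (isOpen_RecA s).measurableSet
    rw [hpre] at h2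
    exact hq.comp_quasiMeasurePreserving h2.quasiMeasurePreserving
  have h3 := setLIntegral_prod _ hmeas
  rw [← MeasureTheory.Measure.volume_eq_prod] at h3
  rw [h3]
  apply lintegral_congr; intro t
  apply lintegral_congr; intro θ
  congr 1
  rw [Complex.measurableEquivRealProd_symm_apply]
  apply Complex.ext <;> simp

lemma lintegral_OmA_eq {s : ℝ} (hs : 0 ≤ s) (p : ℂ → ℝ) (hp : ContinuousOn p (OmA s)) :
    ∫⁻ z in OmA s, ENNReal.ofReal (p z)
      = ∫⁻ t in Ioo s (1/2 - s), ∫⁻ θ in Ioo (-Real.pi) Real.pi,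
      ENNReal.ofReal (Real.exp (2*t) * p (Complex.exp (t + θ * I))) := by
  rw [← setLIntegral_congr (exp_image_RecA hs)]
  have hd : ∀ ζ ∈ RecA s, HasFDerivWithinAt Complex.exp (mulL (Complex.exp ζ)) (RecA s) ζ := by
    intro ζ _
    have := (Complex.hasDerivAt_exp ζ).hasFDerivAt.restrictScalars ℝ
    exact this.hasFDerivWithinAt
  rw [lintegral_image_eq_lintegral_abs_det_fderiv_mul volume (isOpen_RecA s).measurableSet hd
    (exp_injOn_Rec.mono (RecA_sub_Rec hs))]
  have e1 : ∀ ζ ∈ RecA s,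
      ENNReal.ofReal |(mulL (Complex.exp ζ)).det| * ENNReal.ofReal (p (Complex.exp ζ))
      = ENNReal.ofReal (Real.exp (2 * ζ.re) * p (Complex.exp ζ)) := by
    intro ζ _
    rw [det_mulL, abs_of_nonneg (by positivity), ← ENNReal.ofReal_mul (by positivity),
      Complex.norm_exp, ← Real.exp_nat_mul]
    push_cast
    rfl
  rw [setLIntegral_congr_fun (isOpen_RecA s).measurableSet e1, lintegral_RecA]
  · apply lintegral_congr; intro t
    apply lintegral_congr; intro θ
    congr 2
    simp
  · apply AEMeasurable.ennreal_ofReal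
    apply ContinuousOn.aemeasurable _ (isOpen_RecA s).measurableSet
    apply ContinuousOn.mul
    · fun_prop
    · exact hp.comp Complex.continuous_exp.continuousOn (fun ζ hζ => exp_mem_OmA hζ.1)

/-- area inequality for maps which need not be injective, with a weight -/
lemma area_le {U : Set ℂ} (hU : MeasurableSet U) {f : ℂ → ℂ} {f' : ℂ → ℂ →L[ℝ] ℂ}
    (hf : ∀ x ∈ U, HasFDerivWithinAt f (f' x) U x) {w : ℂ → ℝ≥0∞} (hw : Measurable w) :
    ∫⁻ y in f '' U, w y ≤ ∫⁻ x in U, ENNReal.ofReal |(f' x).det| * w (f x) := by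
  have hfc : ContinuousOn f U := fun x hx => (hf x hx).continuousWithinAt
  have hfm : AEMeasurable f (volume.restrict U) := hfc.aemeasurable hU
  have hdet : AEMeasurable (fun x => ENNReal.ofReal |(f' x).det|) (volume.restrict U) :=
    aemeasurable_ofReal_abs_det_fderivWithin volume hU hf
  set ν : Measure ℂ := ((volume.restrict U).withDensity
    (fun x => ENNReal.ofReal |(f' x).det|)).map f with hν
  have hac : (volume.restrict U).withDensity (fun x => ENNReal.ofReal |(f' x).det|)
      ≪ volume.restrict U := withDensity_absolutelyContinuous _ _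
  have hfm' : AEMeasurable f ((volume.restrict U).withDensity
      (fun x => ENNReal.ofReal |(f' x).det|)) := hfm.mono_ac hac
  have hle : volume.restrict (f '' U) ≤ ν := by
    rw [Measure.le_iff]
    intro B hB
    have hpre : MeasurableSet (U ∩ f ⁻¹' B) := by
      classical
      have hg : Measurable (U.piecewise f (fun _ => (0:ℂ))) :=
        hfc.measurable_piecewise continuousOn_const hU
      have : U ∩ f ⁻¹' B = U ∩ (U.piecewise f (fun _ => (0:ℂ))) ⁻¹' B := by
        ext x
        simp only [mem_inter_iff, mem_preimage]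
        constructor
        · rintro ⟨h1, h2⟩
          refine ⟨h1, ?_⟩
          rw [piecewise_eq_of_mem _ _ _ h1]; exact h2
        · rintro ⟨h1, h2⟩
          refine ⟨h1, ?_⟩
          rw [piecewise_eq_of_mem _ _ _ h1] at h2; exact h2
      rw [this]
      exact hU.inter (hg hB)
    rw [Measure.restrict_apply hB, hν, Measure.map_apply_of_aemeasurable hfm' hB]
    have e1 : B ∩ f '' U = f '' (U ∩ f ⁻¹' B) := by
      rw [inter_comm U, image_preimage_inter]
    rw [e1]
    refine (addHaar_image_le_lintegral_abs_det_fderiv volume hpre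
      (fun x hx => (hf x hx.1).mono inter_subset_left)).trans ?_
    have e2 : volume.restrict (U ∩ f ⁻¹' B) ≤ (volume.restrict U).restrict (f ⁻¹' B) := by
      rw [← Measure.restrict_restrict_of_subset (μ := volume)
        (inter_subset_left : U ∩ f ⁻¹' B ⊆ U)]
      exact Measure.restrict_mono inter_subset_right le_rfl
    calc ∫⁻ x in U ∩ f ⁻¹' B, ENNReal.ofReal |(f' x).det|
        ≤ ∫⁻ x in f ⁻¹' B, ENNReal.ofReal |(f' x).det| ∂(volume.restrict U) :=
          lintegral_mono' e2 le_rfl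
      _ ≤ _ := withDensity_apply_le _ _
  calc ∫⁻ y in f '' U, w y ≤ ∫⁻ y, w y ∂ν := lintegral_mono' hle le_rfl
    _ = ∫⁻ x, w (f x) ∂((volume.restrict U).withDensity
          (fun x => ENNReal.ofReal |(f' x).det|)) := by
        rw [hν, lintegral_map' hw.aemeasurable hfm']
    _ = ∫⁻ x in U, ENNReal.ofReal |(f' x).det| * w (f x) := by
        exact lintegral_withDensity_eq_lintegral_mul₀ hdet (hw.comp_aemeasurable hfm)

end Pool.Agent.A78
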