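import Mathlib
import Pool.Agent.Work.MP_a78000_an.SobA

/-!
Helper file for the Sobolev version of the disproof of MP_a78000_an.
The lower bound for the energy of smooth maps on a sub-annulus.
-/

set_option autoImplicit false

open Complex Set Filter Topology MeasureTheory
open scoped ENNReal NNReal

namespace Pool.Agent.A78

/-- angular integral of a smooth map with a given lift -/
theorem windingA {s : ℝ} {f L : ℂ → ℂ} (hf : ContDiffOn ℝ 1 f (OmA s))
    (hm : MapsTo f (OmA s) Om) (hL : ContinuousOn L (SA s))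
    (hL2 : ∀ ζ ∈ SA s, Complex.exp (L ζ) = f (Complex.exp ζ)) {n : ℤ}
    (hn2 : ∀ ζ ∈ SA s, L (ζ + 2 * Real.pi * I) = L ζ + n * (2 * Real.pi * I)) :
    ∀ t ∈ Set.Ioo s (1/2 - s),
      ∫ θ in (-Real.pi)..Real.pi, ((f (Complex.exp (t + θ * I)))⁻¹ *
        fderiv ℝ f (Complex.exp (t + θ * I)) (Complex.exp (t + θ * I) * I)).im
        = 2 * Real.pi * n := by
  intro t ht
  have hmem : ∀ θ : ℝ, (t + θ * I : ℂ) ∈ SA s := by
    intro θ
    refine ⟨by simpa using ht.1, by simpa using ht.2⟩
  have hcurve : Continuous (fun θ : ℝ => (t + θ * I : ℂ)) := by fun_prop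
  have hd1 : ∀ θ : ℝ, HasDerivAt (fun θ : ℝ => Complex.exp (t + θ * I))
      (Complex.exp (t + θ * I) * I) θ := by
    intro θ
    have h1 : HasDerivAt (fun θ : ℝ => (t + θ * I : ℂ)) I θ := by
      have h0 : HasDerivAt (fun θ : ℝ => (θ : ℂ)) 1 θ := Complex.ofRealCLM.hasDerivAt
      have := (h0.mul_const I).const_add (t : ℂ)
      simpa using this
    exact h1.cexp
  have hfd : ∀ θ : ℝ, HasFDerivAt f (fderiv ℝ f (Complex.exp (t + θ * I))) (Complex.exp (t + θ * I)) := by
    intro θ
    exact ((hf.contDiffAt ((isOpen_OmA s).mem_nhds (exp_mem_OmA (hmem θ)))).differentiableAt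
      (by norm_num)).hasFDerivAt
  have hd2 : ∀ θ : ℝ, HasDerivAt (fun θ : ℝ => f (Complex.exp (t + θ * I)))
      (fderiv ℝ f (Complex.exp (t + θ * I)) (Complex.exp (t + θ * I) * I)) θ := by
    intro θ
    exact (hfd θ).comp_hasDerivAt θ (hd1 θ)
  have hLcont : ∀ θ : ℝ, ContinuousAt (fun θ : ℝ => L (t + θ * I)) θ := by
    intro θ
    exact ContinuousAt.comp (g := L) (f := fun θ : ℝ => (t + θ * I : ℂ))
      (hL.continuousAt ((isOpen_SA s).mem_nhds (hmem θ))) hcurve.continuousAt
  have hd3 : ∀ θ : ℝ, HasDerivAt (fun θ : ℝ => L (t + θ * I))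
      ((f (Complex.exp (t + θ * I)))⁻¹ *
        fderiv ℝ f (Complex.exp (t + θ * I)) (Complex.exp (t + θ * I) * I)) θ := by
    intro θ
    exact hasDerivAt_of_exp (y := fun θ : ℝ => f (Complex.exp (t + θ * I))) (hLcont θ)
      (Filter.Eventually.of_forall (fun x => hL2 _ (hmem x))) (hd2 θ)
  have hcont : Continuous (fun θ : ℝ => ((f (Complex.exp (t + θ * I)))⁻¹ *
        fderiv ℝ f (Complex.exp (t + θ * I)) (Complex.exp (t + θ * I) * I))) := by
    have c1 : Continuous (fun θ : ℝ => Complex.exp (t + θ * I)) := by fun_prop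
    have c2 : Continuous (fun θ : ℝ => f (Complex.exp (t + θ * I))) :=
      hf.continuousOn.comp_continuous c1 (fun θ => exp_mem_OmA (hmem θ))
    have c3 : Continuous (fun θ : ℝ => fderiv ℝ f (Complex.exp (t + θ * I))) :=
      (hf.continuousOn_fderiv_of_isOpen (isOpen_OmA s) le_rfl).comp_continuous c1
        (fun θ => exp_mem_OmA (hmem θ))
    have c4 : Continuous (fun θ : ℝ => Complex.exp (t + θ * I) * I) := by fun_prop
    refine (c2.inv₀ ?_).mul (c3.clm_apply c4)
    intro θ
    exact ne_zero_of_mem_Om (hm (exp_mem_OmA (hmem θ)))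
  have hint := intervalIntegral.integral_eq_sub_of_hasDerivAt (a := -Real.pi) (b := Real.pi)
    (fun θ _ => hd3 θ) (hcont.intervalIntegrable _ _)
  have him := intervalIntegral.intervalIntegral_im (𝕜 := ℂ) (hcont.intervalIntegrable
    (μ := MeasureTheory.volume) (-Real.pi) Real.pi)
  have e1 : ∀ z : ℂ, RCLike.im z = z.im := fun z => rfl
  simp only [e1] at him
  rw [him, hint]
  have e2 : (t + (Real.pi : ℝ) * I : ℂ) = (t + ((-Real.pi : ℝ) : ℂ) * I) + 2 * Real.pi * I := by
    push_cast; ring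
  rw [e2, hn2 _ (hmem _)]
  simp
  ring

lemma lam_eq {z : ℂ} (hz : z ∈ Om) :
    lam z = ‖fderiv ℝ h z 1‖^2 + ‖fderiv ℝ h z I‖^2 - 4 * ‖z‖⁻¹^2 := by
  rw [(h_hasFDerivAt hz).fderiv, Dh_normsq, Dh_normsq]
  unfold lam
  rw [norm_mul, norm_mul, norm_one, Complex.norm_I, mul_one]
  have e : (z⁻¹ * 1).im^2 + (z⁻¹ * I).im^2 = ‖z⁻¹‖^2 := by
    rw [← Complex.normSq_eq_norm_sq, Complex.normSq_apply]
    simp
    ring
  rw [norm_inv] at *
  linear_combination -(4 * e)

lemma h_contDiffOn1 : ContDiffOn ℝ 1 h Om := fun z hz =>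
  ((h_contDiffAt hz).of_le (by norm_num)).contDiffWithinAt

lemma lam_continuousOn : ContinuousOn lam Om := by
  have hfd : ContinuousOn (fun z => fderiv ℝ h z) Om :=
    h_contDiffOn1.continuousOn_fderiv_of_isOpen isOpen_Om le_rfl
  have h1 : ContinuousOn (fun z => ‖fderiv ℝ h z 1‖^2 + ‖fderiv ℝ h z I‖^2 - 4 * ‖z‖⁻¹^2) Om := by
    apply ContinuousOn.sub
    · exact ((hfd.clm_apply continuousOn_const).norm.pow 2).add
        ((hfd.clm_apply continuousOn_const).norm.pow 2)
    · apply ContinuousOn.mul continuousOn_const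
      apply ContinuousOn.pow
      apply ContinuousOn.inv₀ continuous_norm.continuousOn
      intro z hz
      exact (norm_pos_iff.mpr (ne_zero_of_mem_Om hz)).ne'
  exact h1.congr (fun z hz => lam_eq hz)

/-- the lower bound for smooth maps which cover `K` and have winding number one -/
theorem smooth_bound {s : ℝ} (hs : 0 ≤ s) (hs4 : s ≤ 1/4) {G : ℂ → ℂ}
    (hG : ContDiffOn ℝ 1 G (OmA s)) (hGm : MapsTo G (OmA s) Oms) {K : Set ℂ} (hKm : MeasurableSet K)
    (hK : K ⊆ Om)
    (hKG : ∀ z ∈ K, ∃ x ∈ OmA s, G x = h z) {L : ℂ → ℂ} (hL : ContinuousOn L (SA s))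
    (hL2 : ∀ ζ ∈ SA s, Complex.exp (L ζ) = Function.invFunOn h Om (G (Complex.exp ζ))) {n : ℤ}
    (hn : n = 1 ∨ n = -1)
    (hn2 : ∀ ζ ∈ SA s, L (ζ + 2 * Real.pi * I) = L ζ + n * (2 * Real.pi * I)) :
    (∫⁻ z in K, ENNReal.ofReal (lam z)) + ENNReal.ofReal ((1/2 - 2 * s) * (8 * Real.pi))
      ≤ ∫⁻ z in OmA s, (((‖fderiv ℝ G z 1‖₊ ^ 2 + ‖fderiv ℝ G z Complex.I‖₊ ^ 2 : ℝ≥0)) : ℝ≥0∞) := by
  set f : ℂ → ℂ := fun z => Function.invFunOn h Om (G z) with hfdef
  have hOA := OmA_sub_Om hs
  have hf : ContDiffOn ℝ 1 f (OmA s) := h_inv_facts.2.comp hG hGm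
  have hfm : MapsTo f (OmA s) Om := fun z hz => Function.invFunOn_mem (hGm hz)
  have hhf : ∀ z ∈ OmA s, h (f z) = G z := fun z hz => Function.invFunOn_eq (hGm hz)
  have hKf : K ⊆ f '' OmA s := by
    intro z hz
    obtain ⟨x, hx, hxz⟩ := hKG z hz
    refine ⟨x, hx, ?_⟩
    apply h_injOn (hfm hx) (hK hz)
    rw [hhf x hx, hxz]
  have hfd : ∀ z ∈ OmA s, HasFDerivAt f (fderiv ℝ f z) z := fun z hz =>
    ((hf.contDiffAt ((isOpen_OmA s).mem_nhds hz)).differentiableAt (by norm_num)).hasFDerivAt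
  have hgd : ∀ z ∈ OmA s, fderiv ℝ G z = (Dh (f z)).comp (fderiv ℝ f z) := by
    intro z hz
    have h1 := (h_hasFDerivAt (hfm hz)).comp z (hfd z hz)
    have h2 : G =ᶠ[𝓝 z] h ∘ f := by
      filter_upwards [(isOpen_OmA s).mem_nhds hz] with w hw
      exact (hhf w hw).symm
    exact (h1.congr_of_eventuallyEq h2).fderiv
  set A : ℂ → ℝ := fun z => ((f z)⁻¹ * fderiv ℝ f z (z * I)).im with hA
  have hcontA : ContinuousOn A (OmA s) := by
    apply Complex.continuous_im.comp_continuousOn
    apply ContinuousOn.mul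
    · exact hf.continuousOn.inv₀ (fun z hz => ne_zero_of_mem_Om (hfm hz))
    · exact (hf.continuousOn_fderiv_of_isOpen (isOpen_OmA s) le_rfl).clm_apply (by fun_prop)
  -- pointwise bound
  have hpt : ∀ z ∈ OmA s, ENNReal.ofReal |(fderiv ℝ f z).det| * ENNReal.ofReal (lam (f z))
      + ENNReal.ofReal (4 * A z ^ 2 * ‖z‖⁻¹^2)
      ≤ (((‖fderiv ℝ G z 1‖₊ ^ 2 + ‖fderiv ℝ G z Complex.I‖₊ ^ 2 : ℝ≥0)) : ℝ≥0∞) := by
    intro z hz
    rw [coe_eq_ofReal, ← ENNReal.ofReal_mul (abs_nonneg _),
      ← ENNReal.ofReal_add (mul_nonneg (abs_nonneg _) (lam_nonneg _)) (by positivity)]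
    apply ENNReal.ofReal_le_ofReal
    rw [hgd z hz, ContinuousLinearMap.comp_apply, ContinuousLinearMap.comp_apply, Dh_normsq,
      Dh_normsq]
    have h1 := two_abs_det_le (fderiv ℝ f z)
    have hz0 : z ≠ 0 := ne_zero_of_mem_Om (hOA hz)
    have hznorm : ‖z‖ ≠ 0 := norm_ne_zero_iff.mpr hz0
    have h2 := fderiv_smul_bound ((mulL (f z)⁻¹).comp (fderiv ℝ f z)) ((‖z‖⁻¹ : ℝ) • (z * I))
      (by rw [norm_smul, norm_mul, Complex.norm_I, mul_one, norm_inv, norm_norm]
          exact inv_mul_cancel₀ hznorm)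
    rw [map_smul, Complex.smul_im] at h2
    simp only [ContinuousLinearMap.comp_apply, mulL_apply, smul_eq_mul] at h2
    have h3 : (‖z‖⁻¹ * ((f z)⁻¹ * fderiv ℝ f z (z * I)).im)^2 = A z^2 * ‖z‖⁻¹^2 := by
      simp only [hA]; ring
    rw [h3] at h2
    rw [norm_mul, norm_mul]
    unfold lam
    have h4 : 0 ≤ Real.sinh (F (Complex.log (f z))).re ^ 2 * ‖(f z)⁻¹‖^2 := by positivity
    nlinarith [mul_le_mul_of_nonneg_left h1 h4]
  -- the area part
  have harea : ∫⁻ z in K, ENNReal.ofReal (lam z)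
      ≤ ∫⁻ z in OmA s, ENNReal.ofReal |(fderiv ℝ f z).det| * ENNReal.ofReal (lam (f z)) := by
    set w : ℂ → ℝ≥0∞ := Om.indicator (fun z => ENNReal.ofReal (lam z)) with hw
    have hwm : Measurable w := by
      classical
      have h1 : Measurable (Om.piecewise lam (fun _ => (0:ℝ))) :=
        lam_continuousOn.measurable_piecewise continuousOn_const isOpen_Om.measurableSet
      have h2 : w = fun z => ENNReal.ofReal (Om.piecewise lam (fun _ => (0:ℝ)) z) := by
        funext z
        by_cases hz : z ∈ Om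
        · rw [hw, indicator_of_mem hz, piecewise_eq_of_mem _ _ _ hz]
        · rw [hw, indicator_of_notMem hz, piecewise_eq_of_notMem _ _ _ hz]; simp
      rw [h2]
      exact h1.ennreal_ofReal
    have h1 := area_le (isOpen_OmA s).measurableSet
      (fun z hz => (hfd z hz).hasFDerivWithinAt) hwm
    calc ∫⁻ z in K, ENNReal.ofReal (lam z)
        = ∫⁻ z in K, w z := by
          apply setLIntegral_congr_fun hKm
          intro z hz
          simp only
          rw [hw, indicator_of_mem (hK hz)]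
      _ ≤ ∫⁻ z in f '' OmA s, w z := lintegral_mono_set hKf
      _ ≤ ∫⁻ z in OmA s, ENNReal.ofReal |(fderiv ℝ f z).det| * w (f z) := h1
      _ = _ := by
          apply setLIntegral_congr_fun (isOpen_OmA s).measurableSet
          intro z hz
          simp only
          rw [hw, indicator_of_mem (hfm hz)]
  -- the winding part
  have hwind : ENNReal.ofReal ((1/2 - 2 * s) * (8 * Real.pi))
      ≤ ∫⁻ z in OmA s, ENNReal.ofReal (4 * A z ^ 2 * ‖z‖⁻¹^2) := by
    rw [lintegral_OmA_eq hs (fun z => 4 * A z ^ 2 * ‖z‖⁻¹^2)]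
    · have hint := windingA hf hfm hL hL2 hn2
      have hin : ∀ t ∈ Ioo s (1/2 - s), ENNReal.ofReal (8 * Real.pi) ≤
          ∫⁻ θ in Ioo (-Real.pi) Real.pi, ENNReal.ofReal (Real.exp (2*t)
            * (4 * A (Complex.exp (t + θ * I)) ^ 2 * ‖Complex.exp (t + θ * I)‖⁻¹^2)) := by
        intro t ht
        have e1 : ∀ θ : ℝ, Real.exp (2*t)
            * (4 * A (Complex.exp (t + θ * I)) ^ 2 * ‖Complex.exp (t + θ * I)‖⁻¹^2)
            = 4 * A (Complex.exp (t + θ * I)) ^ 2 := by
          intro θ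
          rw [Complex.norm_exp]
          have : ((t:ℂ) + θ * I).re = t := by simp
          rw [this, ← Real.exp_neg, ← Real.exp_nat_mul]
          push_cast
          have e : Real.exp (2*t) * Real.exp (2 * -t) = 1 := by
            rw [← Real.exp_add]; ring_nf; exact Real.exp_zero
          linear_combination 4 * A (Complex.exp (t + θ * I)) ^ 2 * e
        simp only [e1]
        have hcA : Continuous (fun θ : ℝ => A (Complex.exp (t + θ * I))) := by
          apply hcontA.comp_continuous (by fun_prop)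
          intro θ
          apply exp_mem_OmA
          exact ⟨by simpa using ht.1, by simpa using ht.2⟩
        have hii : IntervalIntegrable (fun θ : ℝ => A (Complex.exp (t + θ * I))) volume
          (-Real.pi) Real.pi := hcA.intervalIntegrable _ _
        have hii2 : IntervalIntegrable (fun θ : ℝ => 4 * A (Complex.exp (t + θ * I))^2) volume
          (-Real.pi) Real.pi := ((hcA.pow 2).const_mul 4).intervalIntegrable _ _
        have hn3 : ((n : ℤ) : ℝ)^2 = 1 := by rcases hn with h | h <;> rw [h] <;> norm_num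
        have hlow : 8 * Real.pi ≤ ∫ θ in (-Real.pi)..Real.pi,
            4 * A (Complex.exp (t + θ * I)) ^ 2 := by
          have hmono : ∫ θ in (-Real.pi)..Real.pi,
              (8 * n * A (Complex.exp (t + θ * I)) - 4) ≤ ∫ θ in (-Real.pi)..Real.pi,
              4 * A (Complex.exp (t + θ * I)) ^ 2 := by
            apply intervalIntegral.integral_mono_on (by linarith [Real.pi_pos])
              (((hcA.const_mul _).sub continuous_const).intervalIntegrable _ _) hii2
            intro θ _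
            show 8 * n * A (Complex.exp (t + θ * I)) - 4 ≤ 4 * A (Complex.exp (t + θ * I)) ^ 2
            nlinarith [sq_nonneg (A (Complex.exp (t + θ * I)) - n)]
          have hval : ∫ θ in (-Real.pi)..Real.pi,
              (8 * n * A (Complex.exp (t + θ * I)) - 4) = 8 * Real.pi := by
            rw [intervalIntegral.integral_sub (hii.const_mul _) (by simp),
              intervalIntegral.integral_const_mul, hint t ht]
            rw [intervalIntegral.integral_const]
            simp only [smul_eq_mul]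
            linear_combination 16 * Real.pi * hn3
          linarith
        calc ENNReal.ofReal (8 * Real.pi) ≤ ENNReal.ofReal (∫ θ in (-Real.pi)..Real.pi,
            4 * A (Complex.exp (t + θ * I)) ^ 2) := ENNReal.ofReal_le_ofReal hlow
          _ = ∫⁻ θ in Ioo (-Real.pi) Real.pi,
              ENNReal.ofReal (4 * A (Complex.exp (t + θ * I)) ^ 2) := by
              rw [intervalIntegral.integral_of_le (by linarith [Real.pi_pos]),
                integral_Ioc_eq_integral_Ioo,
                ofReal_integral_eq_lintegral_ofReal]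
              · exact (hii2.1).mono_set Ioo_subset_Ioc_self
              · exact Filter.Eventually.of_forall (fun θ => by positivity)
      calc ENNReal.ofReal ((1/2 - 2 * s) * (8 * Real.pi))
            = ∫⁻ t in Ioo s (1/2 - s), ENNReal.ofReal (8 * Real.pi) := by
            rw [setLIntegral_const, Real.volume_Ioo, ← ENNReal.ofReal_mul (by
              have := Real.pi_pos; positivity)]
            congr 1; ring
        _ ≤ _ := setLIntegral_mono' measurableSet_Ioo hin
    · apply ContinuousOn.mul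
      · exact (hcontA.pow 2).const_mul _ 
      · apply ContinuousOn.pow
        apply ContinuousOn.inv₀ continuous_norm.continuousOn
        intro z hz
        exact (norm_pos_iff.mpr (ne_zero_of_mem_Om (hOA hz))).ne'
  calc (∫⁻ z in K, ENNReal.ofReal (lam z)) + ENNReal.ofReal ((1/2 - 2 * s) * (8 * Real.pi))
      ≤ (∫⁻ z in OmA s, ENNReal.ofReal |(fderiv ℝ f z).det| * ENNReal.ofReal (lam (f z)))
        + ∫⁻ z in OmA s, ENNReal.ofReal (4 * A z ^ 2 * ‖z‖⁻¹^2) := by
        gcongr
    _ ≤ ∫⁻ z in OmA s, (ENNReal.ofReal |(fderiv ℝ f z).det| * ENNReal.ofReal (lam (f z))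
          + ENNReal.ofReal (4 * A z ^ 2 * ‖z‖⁻¹^2)) := le_lintegral_add _ _
    _ ≤ _ := setLIntegral_mono' (isOpen_OmA s).measurableSet hpt

end Pool.Agent.A78
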