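import Mathlib

/-!
Helper file for the Sobolev version of the disproof of MP_a78000_an.
Mollification of a bounded continuous function with a weak gradient in `L²`.
-/

set_option autoImplicit false

open Complex Set Filter Topology MeasureTheory Metric ContinuousLinearMap
open scoped ENNReal NNReal ContDiff Convolution

namespace Pool.Agent.A78

/-- Jensen's inequality in the form used below -/
lemma jensen_sq {α : Type*} [MeasurableSpace α] {μ : Measure α} {ρ b : α → ℝ≥0∞}
    (hρ : AEMeasurable ρ μ) (h1 : ∫⁻ x, ρ x ∂μ ≤ 1) :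
    (∫⁻ x, ρ x * b x ∂μ) ^ 2 ≤ ∫⁻ x, ρ x * b x ^ 2 ∂μ := by
  set a := ∫⁻ x, ρ x * b x ∂μ with ha
  set T := ∫⁻ x, ρ x * b x ^ 2 ∂μ with hT
  by_cases hTt : T = ⊤
  · rw [hTt]; exact le_top
  have key : ∀ c : ℝ≥0, 2 * (c : ℝ≥0∞) * a ≤ (c : ℝ≥0∞) ^ 2 + T := by
    intro c
    have hpt : ∀ t : ℝ≥0∞, 2 * (c : ℝ≥0∞) * t ≤ (c : ℝ≥0∞) ^ 2 + t ^ 2 := by
      intro t
      by_cases ht : t = ⊤
      · rw [ht]; simp
      · lift t to ℝ≥0 using ht
        have : 2 * c * t ≤ c ^ 2 + t ^ 2 := two_mul_le_add_sq c t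
        exact_mod_cast this
    calc 2 * (c : ℝ≥0∞) * a = ∫⁻ x, 2 * (c : ℝ≥0∞) * (ρ x * b x) ∂μ := by
          rw [lintegral_const_mul' _ _ (by simp [ENNReal.mul_eq_top])]
      _ ≤ ∫⁻ x, (ρ x * (c : ℝ≥0∞) ^ 2 + ρ x * b x ^ 2) ∂μ := by
          apply lintegral_mono
          intro x
          calc 2 * (c : ℝ≥0∞) * (ρ x * b x) = ρ x * (2 * (c : ℝ≥0∞) * b x) := by ring
            _ ≤ ρ x * ((c : ℝ≥0∞) ^ 2 + b x ^ 2) := by gcongr; exact hpt _
            _ = _ := by ring
      _ = (∫⁻ x, ρ x ∂μ) * (c : ℝ≥0∞) ^ 2 + T := by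
          rw [lintegral_add_left' (hρ.mul_const _), lintegral_mul_const' _ _ (by simp)]
      _ ≤ 1 * (c : ℝ≥0∞) ^ 2 + T := by gcongr
      _ = _ := by rw [one_mul]
  have hat : a ≠ ⊤ := by
    intro h
    have := key 1
    rw [h] at this
    simp at this
    exact hTt this
  lift a to ℝ≥0 using hat with a'
  lift T to ℝ≥0 using hTt with T'
  have := key a'
  have h2 : 2 * a' * a' ≤ a' ^ 2 + T' := by exact_mod_cast this
  have h3 : a' ^ 2 ≤ T' := by
    have h4 : a' ^ 2 + a' ^ 2 ≤ a' ^ 2 + T' := by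
      calc a' ^ 2 + a' ^ 2 = 2 * a' * a' := by ring
        _ ≤ _ := h2
    exact le_of_add_le_add_left h4
  exact_mod_cast h3

variable {Ω : Set ℂ} {g : ℂ → ℂ}

/-- derivative of the mollification through the weak derivative -/
lemma mollify_deriv (hΩ : IsOpen Ω) (hgc : ContinuousOn g Ω) {M : ℝ} (hgb : ∀ z ∈ Ω, ‖g z‖ ≤ M)
    (ρ : ContDiffBump (0 : ℂ)) {z : ℂ} (hz : closedBall z ρ.rOut ⊆ Ω) (v : ℂ) {gv : ℂ → ℂ}
    (hw : ∀ φ : ℂ → ℝ, ContDiff ℝ ∞ φ → HasCompactSupport φ → tsupport φ ⊆ Ω →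
      ∫ w in Ω, (fderiv ℝ φ w v) • g w = -∫ w in Ω, φ w • gv w) :
    fderiv ℝ (ρ.normed volume ⋆[lsmul ℝ ℝ, volume] (Ω.indicator g)) z v
      = ∫ w in Ω, ρ.normed volume (z - w) • gv w := by
  have hgm : AEStronglyMeasurable (Ω.indicator g) volume :=
    (aestronglyMeasurable_indicator_iff hΩ.measurableSet).mpr
      (hgc.aestronglyMeasurable hΩ.measurableSet)
  have hgi : LocallyIntegrable (Ω.indicator g) volume := by
    have hM : 0 ≤ max M 0 := le_max_right _ _
    apply (locallyIntegrable_const (max M 0 : ℝ)).mono hgm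
    filter_upwards with x
    rw [Real.norm_eq_abs, abs_of_nonneg hM]
    by_cases hx : x ∈ Ω
    · rw [indicator_of_mem hx]; exact (hgb x hx).trans (le_max_left _ _)
    · rw [indicator_of_notMem hx]; simp
  have hρc : HasCompactSupport (ρ.normed (volume : Measure ℂ)) := ρ.hasCompactSupport_normed
  have hρd : ContDiff ℝ ∞ (ρ.normed (volume : Measure ℂ)) := ρ.contDiff_normed
  have hder := hρc.hasFDerivAt_convolution_left (lsmul ℝ ℝ) (hρd.of_le (by exact_mod_cast le_top)) hgi z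
  rw [hder.fderiv, convolution_eq_swap]
  have hint : Integrable (fun t => (ContinuousLinearMap.precompL ℂ (lsmul ℝ ℝ))
      (fderiv ℝ (ρ.normed (volume : Measure ℂ)) (z - t)) (Ω.indicator g t)) volume := by
    have := (hρc.fderiv (𝕜 := ℝ)).convolutionExists_left
      (ContinuousLinearMap.precompL ℂ (lsmul ℝ ℝ)) (hρd.continuous_fderiv (by simp)) hgi z
    exact convolutionExistsAt_iff_integrable_swap.mp this
  rw [ContinuousLinearMap.integral_apply hint]
  simp only [ContinuousLinearMap.precompL_apply, lsmul_apply]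
  -- the test function
  set φ : ℂ → ℝ := fun w => ρ.normed (volume : Measure ℂ) (z - w) with hφ
  have hφd : ContDiff ℝ ∞ φ := hρd.comp (contDiff_const.sub contDiff_id)
  have hφs : Function.support φ ⊆ closedBall z ρ.rOut := by
    intro w hw
    have h1 : z - w ∈ Function.support (ρ.normed (volume : Measure ℂ)) := hw
    rw [ρ.support_normed_eq] at h1
    rw [mem_closedBall, dist_comm, dist_eq_norm]
    rw [mem_ball, dist_zero_right] at h1
    exact h1.le
  have hφt : tsupport φ ⊆ closedBall z ρ.rOut := closure_minimal hφs isClosed_closedBall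
  have hφc : HasCompactSupport φ := (isCompact_closedBall z ρ.rOut).of_isClosed_subset
    (isClosed_tsupport φ) hφt
  have hder2 : ∀ w, fderiv ℝ φ w v = -(fderiv ℝ (ρ.normed (volume : Measure ℂ)) (z - w) v) := by
    intro w
    have h1 : HasFDerivAt (fun w : ℂ => z - w) (-(ContinuousLinearMap.id ℝ ℂ)) w :=
      (hasFDerivAt_id w).const_sub z
    have h2 : HasFDerivAt (ρ.normed (volume : Measure ℂ))
        (fderiv ℝ (ρ.normed (volume : Measure ℂ)) (z - w)) (z - w) :=
      (hρd.differentiable (by simp) _).hasFDerivAt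
    have h3 := h2.comp w h1
    have h4 : fderiv ℝ φ w = _ := h3.fderiv
    rw [h4]
    simp
  have := hw φ hφd hφc (hφt.trans hz)
  have h5 : ∫ w in Ω, ρ.normed volume (z - w) • gv w = - ∫ w in Ω, (fderiv ℝ φ w v) • g w := by
    rw [this, neg_neg]
  rw [h5, ← integral_neg, ← integral_indicator hΩ.measurableSet]
  apply integral_congr_ae
  filter_upwards with w
  by_cases hwΩ : w ∈ Ω
  · rw [indicator_of_mem hwΩ, indicator_of_mem hwΩ, hder2, neg_smul, neg_neg]
  · rw [indicator_of_notMem hwΩ, indicator_of_notMem hwΩ, smul_zero]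

/-- the total mass of the mollifier -/
lemma lintegral_normed (ρ : ContDiffBump (0 : ℂ)) :
    ∫⁻ x, ENNReal.ofReal (ρ.normed (volume : Measure ℂ) x) = 1 := by
  rw [← ofReal_integral_eq_lintegral_ofReal
    (ρ.continuous_normed.integrable_of_hasCompactSupport ρ.hasCompactSupport_normed)
    (Eventually.of_forall fun x => ρ.nonneg_normed x), ρ.integral_normed, ENNReal.ofReal_one]

/-- mollification does not increase the square integral -/
lemma mollify_energy {Ω' : Set ℂ} (ρ : ContDiffBump (0 : ℂ)) {gv : ℂ → ℂ}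
    (hgv : AEStronglyMeasurable gv (volume.restrict Ω)) :
    ∫⁻ z in Ω', ‖∫ w in Ω, ρ.normed volume (z - w) • gv w‖ₑ ^ 2
      ≤ ∫⁻ w in Ω, ‖gv w‖ₑ ^ 2 := by
  have hRc : Continuous (fun p : ℂ × ℂ => ENNReal.ofReal (ρ.normed (volume : Measure ℂ) (p.1 - p.2))) :=
    ENNReal.continuous_ofReal.comp (ρ.continuous_normed.comp (continuous_fst.sub continuous_snd))
  calc ∫⁻ z in Ω', ‖∫ w in Ω, ρ.normed volume (z - w) • gv w‖ₑ ^ 2
      ≤ ∫⁻ z in Ω', ∫⁻ w in Ω, ENNReal.ofReal (ρ.normed volume (z - w)) * ‖gv w‖ₑ ^ 2 := by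
        apply lintegral_mono
        intro z
        calc ‖∫ w in Ω, ρ.normed volume (z - w) • gv w‖ₑ ^ 2
            ≤ (∫⁻ w in Ω, ENNReal.ofReal (ρ.normed volume (z - w)) * ‖gv w‖ₑ) ^ 2 := by
              gcongr
              refine (enorm_integral_le_lintegral_enorm _).trans_eq ?_
              apply lintegral_congr
              intro w
              rw [enorm_smul, Real.enorm_eq_ofReal (ρ.nonneg_normed _)]
          _ ≤ _ := by
              apply jensen_sq
              · exact (hRc.comp (Continuous.prodMk_right z)).aemeasurable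
              · calc ∫⁻ w in Ω, ENNReal.ofReal (ρ.normed volume (z - w))
                    ≤ ∫⁻ w, ENNReal.ofReal (ρ.normed volume (z - w)) :=
                      setLIntegral_le_lintegral _ _
                  _ = 1 := by
                      rw [lintegral_sub_left_eq_self
                        (fun x => ENNReal.ofReal (ρ.normed (volume : Measure ℂ) x)) z,
                        lintegral_normed]
    _ = ∫⁻ w in Ω, ∫⁻ z in Ω', ENNReal.ofReal (ρ.normed volume (z - w)) * ‖gv w‖ₑ ^ 2 := by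
        apply lintegral_lintegral_swap
        exact (hRc.aemeasurable).mul ((hgv.enorm.pow_const 2).comp_snd)
    _ ≤ ∫⁻ w in Ω, ‖gv w‖ₑ ^ 2 := by
        apply lintegral_mono
        intro w
        calc ∫⁻ z in Ω', ENNReal.ofReal (ρ.normed volume (z - w)) * ‖gv w‖ₑ ^ 2
            = (∫⁻ z in Ω', ENNReal.ofReal (ρ.normed volume (z - w))) * ‖gv w‖ₑ ^ 2 := by
              rw [lintegral_mul_const' _ _ (by simp)]
          _ ≤ 1 * ‖gv w‖ₑ ^ 2 := by
              gcongr
              calc ∫⁻ z in Ω', ENNReal.ofReal (ρ.normed volume (z - w))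
                  ≤ ∫⁻ z, ENNReal.ofReal (ρ.normed volume (z - w)) := setLIntegral_le_lintegral _ _
                _ = 1 := by
                    rw [lintegral_sub_right_eq_self
                      (fun x => ENNReal.ofReal (ρ.normed (volume : Measure ℂ) x)) w,
                      lintegral_normed]
          _ = _ := one_mul _

/-- Mollification of a bounded continuous function with a weak gradient. -/
theorem mollify {Ω' : Set ℂ} (hΩ : IsOpen Ω) (hΩ' : IsOpen Ω') (hgc : ContinuousOn g Ω) {M : ℝ}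
    (hgb : ∀ z ∈ Ω, ‖g z‖ ≤ M) {ε : ℝ} (hε : 0 < ε) (hsub : ∀ z ∈ Ω', closedBall z ε ⊆ Ω)
    {gx gy : ℂ → ℂ} (hgx : AEStronglyMeasurable gx (volume.restrict Ω))
    (hgy : AEStronglyMeasurable gy (volume.restrict Ω))
    (hx : ∀ φ : ℂ → ℝ, ContDiff ℝ ∞ φ → HasCompactSupport φ → tsupport φ ⊆ Ω →
      ∫ w in Ω, (fderiv ℝ φ w 1) • g w = -∫ w in Ω, φ w • gx w)
    (hy : ∀ φ : ℂ → ℝ, ContDiff ℝ ∞ φ → HasCompactSupport φ → tsupport φ ⊆ Ω →
      ∫ w in Ω, (fderiv ℝ φ w I) • g w = -∫ w in Ω, φ w • gy w) :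
    ∃ G : ℂ → ℂ, ContDiff ℝ 1 G ∧
      (∀ z ∈ Ω', ∀ δ, (∀ w ∈ ball z ε, dist (g w) (g z) ≤ δ) → dist (G z) (g z) ≤ δ) ∧
      ∫⁻ z in Ω', ((‖fderiv ℝ G z 1‖₊ ^ 2 + ‖fderiv ℝ G z I‖₊ ^ 2 : ℝ≥0) : ℝ≥0∞)
        ≤ ∫⁻ z in Ω, ((‖gx z‖₊ ^ 2 + ‖gy z‖₊ ^ 2 : ℝ≥0) : ℝ≥0∞) := by
  set ρ : ContDiffBump (0 : ℂ) := ⟨ε / 2, ε, by linarith, by linarith⟩ with hρ
  have hgm : AEStronglyMeasurable (Ω.indicator g) volume :=
    (aestronglyMeasurable_indicator_iff hΩ.measurableSet).mpr
      (hgc.aestronglyMeasurable hΩ.measurableSet)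
  have hgi : LocallyIntegrable (Ω.indicator g) volume := by
    have hM : 0 ≤ max M 0 := le_max_right _ _
    apply (locallyIntegrable_const (max M 0 : ℝ)).mono hgm
    filter_upwards with x
    rw [Real.norm_eq_abs, abs_of_nonneg hM]
    by_cases hx : x ∈ Ω
    · rw [indicator_of_mem hx]; exact (hgb x hx).trans (le_max_left _ _)
    · rw [indicator_of_notMem hx]; simp
  refine ⟨ρ.normed volume ⋆[lsmul ℝ ℝ, volume] (Ω.indicator g), ?_, ?_, ?_⟩
  · exact ρ.hasCompactSupport_normed.contDiff_convolution_left (lsmul ℝ ℝ)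
      (ρ.contDiff_normed (n := 1)) hgi
  · intro z hz δ hδ
    have hzΩ : z ∈ Ω := hsub z hz (mem_closedBall_self hε.le)
    have h1 := ρ.dist_normed_convolution_le (g := Ω.indicator g) (x₀ := z) (ε := δ) hgm
      (by
        intro w hw
        have hw' : w ∈ ball z ε := hw
        rw [indicator_of_mem (hsub z hz (ball_subset_closedBall hw')), indicator_of_mem hzΩ]
        exact hδ w hw')
    rw [indicator_of_mem hzΩ] at h1
    exact h1
  · have hd1 : ∀ z ∈ Ω', fderiv ℝ (ρ.normed volume ⋆[lsmul ℝ ℝ, volume] (Ω.indicator g)) z 1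
        = ∫ w in Ω, ρ.normed volume (z - w) • gx w := fun z hz =>
      mollify_deriv hΩ hgc hgb ρ (hsub z hz) 1 hx
    have hdI : ∀ z ∈ Ω', fderiv ℝ (ρ.normed volume ⋆[lsmul ℝ ℝ, volume] (Ω.indicator g)) z I
        = ∫ w in Ω, ρ.normed volume (z - w) • gy w := fun z hz =>
      mollify_deriv hΩ hgc hgb ρ (hsub z hz) I hy
    set G := ρ.normed volume ⋆[lsmul ℝ ℝ, volume] (Ω.indicator g) with hG
    have hGd : ContDiff ℝ 1 G := ρ.hasCompactSupport_normed.contDiff_convolution_left (lsmul ℝ ℝ)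
      (ρ.contDiff_normed (n := 1)) hgi
    have hsplit : ∀ (a b : ℂ), ((‖a‖₊ ^ 2 + ‖b‖₊ ^ 2 : ℝ≥0) : ℝ≥0∞) = ‖a‖ₑ ^ 2 + ‖b‖ₑ ^ 2 := by
      intro a b
      push_cast
      rfl
    simp only [hsplit]
    rw [lintegral_add_left' (hgx.enorm.pow_const 2), lintegral_add_left' (by
      have : Continuous fun z => fderiv ℝ G z 1 :=
        (hGd.continuous_fderiv (by simp)).clm_apply continuous_const
      exact (this.enorm.measurable.pow_const 2).aemeasurable)]
    apply add_le_add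
    · calc ∫⁻ z in Ω', ‖fderiv ℝ G z 1‖ₑ ^ 2
          = ∫⁻ z in Ω', ‖∫ w in Ω, ρ.normed volume (z - w) • gx w‖ₑ ^ 2 := by
            apply setLIntegral_congr_fun hΩ'.measurableSet
            intro z hz
            simp only [hd1 z hz]
        _ ≤ _ := mollify_energy ρ hgx
    · calc ∫⁻ z in Ω', ‖fderiv ℝ G z I‖ₑ ^ 2
          = ∫⁻ z in Ω', ‖∫ w in Ω, ρ.normed volume (z - w) • gy w‖ₑ ^ 2 := by
            apply setLIntegral_congr_fun hΩ'.measurableSet
            intro z hz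
            simp only [hdI z hz]
        _ ≤ _ := mollify_energy ρ hgy

end Pool.Agent.A78
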