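import Mathlib
import Pool.Agent.Work.MP_a78000_an.SobB
import Pool.Agent.Work.MP_a78000_an.SobC
import Pool.Agent.Work.MP_a78000_an.Final
import Pool.Agent.Work.MP_476501_co.Brouwer

/-!
Helper file for the Sobolev version of the disproof of MP_a78000_an.
Energy minimality of `h` among all homeomorphisms `Om → Oms` with a weak gradient in `L²`.
-/

set_option autoImplicit false

open Complex Set Filter Topology MeasureTheory Metric
open scoped ENNReal NNReal ContDiff

namespace Pool.Agent.A78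

/-- the closed smaller annulus -/
def CA (t : ℝ) : Set ℂ := {z : ℂ | Real.exp t ≤ ‖z‖ ∧ ‖z‖ ≤ Real.exp (1/2 - t)}

lemma isCompact_CA (t : ℝ) : IsCompact (CA t) := by
  apply Metric.isCompact_of_isClosed_isBounded
  · exact (isClosed_le continuous_const continuous_norm).inter
      (isClosed_le continuous_norm continuous_const)
  · apply (Metric.isBounded_closedBall (x := (0:ℂ)) (r := Real.exp (1/2 - t))).subset
    intro z hz
    rw [mem_closedBall_zero_iff]
    exact hz.2

lemma CA_sub_Om {t : ℝ} (ht : 0 < t) : CA t ⊆ Om := by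
  intro z hz
  refine ⟨lt_of_lt_of_le (Real.one_lt_exp_iff.mpr ht) hz.1, lt_of_le_of_lt hz.2 ?_⟩
  exact Real.exp_lt_exp.mpr (by linarith)

lemma OmA_sub_CA (t : ℝ) : OmA t ⊆ CA t := fun _ hz => ⟨hz.1.le, hz.2.le⟩

lemma exists_OmA {K : Set ℂ} (hK : IsCompact K) (hsub : K ⊆ Om) {t : ℝ} (ht : 0 < t) :
    ∃ s, 0 < s ∧ s ≤ t ∧ K ⊆ OmA s := by
  rcases K.eq_empty_or_nonempty with rfl | hne
  · exact ⟨t, ht, le_rfl, by simp⟩
  have hc : ContinuousOn (fun z : ℂ => min (Real.log ‖z‖) (1/2 - Real.log ‖z‖)) K := by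
    have h1 : ContinuousOn (fun z : ℂ => Real.log ‖z‖) K := by
      apply ContinuousOn.log continuous_norm.continuousOn
      intro z hz
      exact (norm_pos_iff.mpr (ne_zero_of_mem_Om (hsub hz))).ne'
    exact h1.inf (continuousOn_const.sub h1)
  obtain ⟨z0, hz0, hmin⟩ := hK.exists_isMinOn hne hc
  set m := min (Real.log ‖z0‖) (1/2 - Real.log ‖z0‖) with hm
  have hlog : ∀ z ∈ Om, 0 < Real.log ‖z‖ ∧ Real.log ‖z‖ < 1/2 := by
    intro z hz
    refine ⟨Real.log_pos hz.1, ?_⟩
    rw [Real.log_lt_iff_lt_exp (by linarith [hz.1])]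
    exact hz.2
  have hm0 : 0 < m := by
    have := hlog z0 (hsub hz0)
    rw [hm]
    exact lt_min this.1 (by linarith [this.2])
  refine ⟨min t (m/2), lt_min ht (by linarith), min_le_left _ _, ?_⟩
  intro z hz
  have h1 : m ≤ min (Real.log ‖z‖) (1/2 - Real.log ‖z‖) := hmin hz
  have h2 := le_min_iff.mp h1
  have h3 : min t (m/2) ≤ m/2 := min_le_right _ _
  have hzn : 0 < ‖z‖ := norm_pos_iff.mpr (ne_zero_of_mem_Om (hsub hz))
  refine ⟨?_, ?_⟩
  · rw [← Real.lt_log_iff_exp_lt hzn]; linarith [h2.1]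
  · rw [← Real.log_lt_iff_lt_exp hzn]; linarith [h2.2]

/-- Brouwer's theorem for a square in the plane -/
lemma brouwer_square {w0 : ℂ} {δ : ℝ} (hδ : 0 < δ) {Φ : ℂ → ℂ}
    (hΦ : ContinuousOn Φ {y | |y.re - w0.re| ≤ δ ∧ |y.im - w0.im| ≤ δ})
    (hm : MapsTo Φ {y | |y.re - w0.re| ≤ δ ∧ |y.im - w0.im| ≤ δ}
      {y | |y.re - w0.re| ≤ δ ∧ |y.im - w0.im| ≤ δ}) :
    ∃ y, (|y.re - w0.re| ≤ δ ∧ |y.im - w0.im| ≤ δ) ∧ Φ y = y := by
  set e : (Fin 2 → ℝ) → ℂ := fun p =>
    ⟨w0.re + δ * (2 * p 0 - 1), w0.im + δ * (2 * p 1 - 1)⟩ with he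
  set e' : ℂ → (Fin 2 → ℝ) := fun y =>
    ![((y.re - w0.re) / δ + 1) / 2, ((y.im - w0.im) / δ + 1) / 2] with he'
  have hec : Continuous e := by
    have h1 : e = fun p => ((w0.re + δ * (2 * p 0 - 1) : ℝ) : ℂ)
        + ((w0.im + δ * (2 * p 1 - 1) : ℝ) : ℂ) * I := by
      funext p
      apply Complex.ext <;> simp [he]
    rw [h1]
    fun_prop
  have hec' : Continuous e' := by
    apply continuous_pi
    intro i
    fin_cases i
    · simp only [he']
      exact (((Complex.continuous_re.sub continuous_const).div_const _).add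
        continuous_const).div_const _
    · simp only [he']
      exact (((Complex.continuous_im.sub continuous_const).div_const _).add
        continuous_const).div_const _
  have hee' : ∀ y, e (e' y) = y := by
    intro y
    have hd := hδ.ne'
    apply Complex.ext
    · simp only [he, he']
      simp
      field_simp
      ring
    · simp only [he, he']
      simp
      field_simp
      ring
  have hem : MapsTo e (Icc 0 1) {y | |y.re - w0.re| ≤ δ ∧ |y.im - w0.im| ≤ δ} := by
    intro p hp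
    have h0 := hp.1 0
    have h1 := hp.2 0
    have h2 := hp.1 1
    have h3 := hp.2 1
    simp only [Pi.zero_apply, Pi.one_apply] at h0 h1 h2 h3
    refine ⟨?_, ?_⟩
    · show |w0.re + δ * (2 * p 0 - 1) - w0.re| ≤ δ
      rw [abs_le]; constructor <;> nlinarith
    · show |w0.im + δ * (2 * p 1 - 1) - w0.im| ≤ δ
      rw [abs_le]; constructor <;> nlinarith
  have hem' : MapsTo e' {y | |y.re - w0.re| ≤ δ ∧ |y.im - w0.im| ≤ δ} (Icc 0 1) := by
    intro y hy
    have h1 : ∀ x : ℝ, |x| ≤ δ → 0 ≤ (x / δ + 1) / 2 ∧ (x / δ + 1) / 2 ≤ 1 := by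
      intro x hx
      rw [abs_le] at hx
      have h2 : -1 ≤ x / δ := by rw [le_div_iff₀ hδ]; linarith [hx.1]
      have h3 : x / δ ≤ 1 := by rw [div_le_iff₀ hδ]; linarith [hx.2]
      constructor <;> linarith
    refine ⟨?_, ?_⟩
    · intro i
      fin_cases i
      · exact (h1 _ hy.1).1
      · exact (h1 _ hy.2).1
    · intro i
      fin_cases i
      · exact (h1 _ hy.1).2
      · exact (h1 _ hy.2).2
  obtain ⟨x, hx, hfx⟩ := Pool.Agent.Brouwer.brouwer_cube 2 (fun p => e' (Φ (e p)))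
    (hec'.comp_continuousOn (hΦ.comp hec.continuousOn hem))
    (fun p hp => hem' (hm (hem hp)))
  refine ⟨e x, hem hx, ?_⟩
  have := congrArg e hfx
  simp only [hee'] at this
  exact this

/-- a weak gradient of `g` on `Ω` -/
def WeakGrad (Ω : Set ℂ) (g gx gy : ℂ → ℂ) : Prop :=
  ∀ φ : ℂ → ℝ, ContDiff ℝ ∞ φ → HasCompactSupport φ → tsupport φ ⊆ Ω →
    (∫ w in Ω, (fderiv ℝ φ w 1) • g w = -∫ w in Ω, φ w • gx w) ∧
    (∫ w in Ω, (fderiv ℝ φ w I) • g w = -∫ w in Ω, φ w • gy w)

theorem sobolev_bound_aux {g k : ℂ → ℂ} (hgc : ContinuousOn g Om) (hgm : MapsTo g Om Oms)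
    (hkc : ContinuousOn k Oms) (hkm : MapsTo k Oms Om) (hkg : ∀ z ∈ Om, k (g z) = z)
    (hgk : ∀ w ∈ Oms, g (k w) = w) {gx gy : ℂ → ℂ}
    (hgx : AEStronglyMeasurable gx (volume.restrict Om))
    (hgy : AEStronglyMeasurable gy (volume.restrict Om)) (hw : WeakGrad Om g gx gy)
    {t : ℝ} (ht : 0 < t) (ht4 : t ≤ 1/4) :
    (∫⁻ z in CA t, ENNReal.ofReal (lam z)) + ENNReal.ofReal ((1/2 - 2 * t) * (8 * Real.pi))
      ≤ ∫⁻ z in Om, ((‖gx z‖₊ ^ 2 + ‖gy z‖₊ ^ 2 : ℝ≥0) : ℝ≥0∞) := by
  obtain ⟨hOo, hhid⟩ := h_inv_facts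
  set hi := Function.invFunOn h Om with hhi
  have hhic : ContinuousOn hi Oms := hhid.continuousOn
  have hhim : MapsTo hi Oms Om := fun w hw => Function.invFunOn_mem hw
  have hhhi : ∀ w ∈ Oms, h (hi w) = w := fun w hw => Function.invFunOn_eq hw
  have hhm : MapsTo h Om Oms := fun z hz => mem_image_of_mem _ hz
  have hhih : ∀ z ∈ Om, hi (h z) = z := fun z hz =>
    h_injOn (hhim (hhm hz)) hz (hhhi _ (hhm hz))
  have hhc : ContinuousOn h Om := h_contDiffOn1.continuousOn
  -- the compact neighbourhood of `h (CA t)`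
  have hKc : IsCompact (h '' CA t) := (isCompact_CA t).image_of_continuousOn
    (hhc.mono (CA_sub_Om ht))
  have hKsub : h '' CA t ⊆ Oms := by
    rintro _ ⟨z, hz, rfl⟩; exact hhm (CA_sub_Om ht hz)
  obtain ⟨ρ, hρ, hρs⟩ := hKc.exists_cthickening_subset_open hOo hKsub
  set N1 := cthickening ρ (h '' CA t) with hN1
  have hN1c : IsCompact N1 := hKc.cthickening
  obtain ⟨s, hs, hst, hks⟩ := exists_OmA (hN1c.image_of_continuousOn (hkc.mono hρs))
    (by rintro _ ⟨w, hw, rfl⟩; exact hkm (hρs hw)) ht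
  -- the compact neighbourhood of `g (CA s)`
  have hgCc : IsCompact (g '' CA s) := (isCompact_CA s).image_of_continuousOn
    (hgc.mono (CA_sub_Om hs))
  have hgCsub : g '' CA s ⊆ Oms := by
    rintro _ ⟨z, hz, rfl⟩; exact hgm (CA_sub_Om hs hz)
  obtain ⟨ρ2, hρ2, hρ2s⟩ := hgCc.exists_cthickening_subset_open hOo hgCsub
  set N2 := cthickening ρ2 (g '' CA s) with hN2
  have hN2c : IsCompact N2 := hgCc.cthickening
  have huc := hN2c.uniformContinuousOn_of_continuous (hhic.mono hρ2s)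
  rw [Metric.uniformContinuousOn_iff] at huc
  obtain ⟨η, hη, hη2⟩ := huc (1/2) (by norm_num)
  set δ := min ρ2 (min (η/2) (ρ/2)) with hδ
  have hδ0 : 0 < δ := lt_min hρ2 (lt_min (by linarith) (by linarith))
  have hδ1 : δ ≤ ρ2 := min_le_left _ _
  have hδ2 : δ ≤ η/2 := (min_le_right _ _).trans (min_le_left _ _)
  have hδ3 : δ ≤ ρ/2 := (min_le_right _ _).trans (min_le_right _ _)
  -- uniform continuity of `g`
  obtain ⟨ε1, hε1, hε1s⟩ := (isCompact_CA s).exists_cthickening_subset_open isOpen_Om (CA_sub_Om hs)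
  have hN3c : IsCompact (cthickening ε1 (CA s)) := (isCompact_CA s).cthickening
  have hug := hN3c.uniformContinuousOn_of_continuous (hgc.mono hε1s)
  rw [Metric.uniformContinuousOn_iff] at hug
  obtain ⟨ε2, hε2, hε22⟩ := hug δ hδ0
  set ε := min ε1 ε2 with hε
  have hε0 : 0 < ε := lt_min hε1 hε2
  have hball : ∀ z ∈ OmA s, closedBall z ε ⊆ cthickening ε1 (CA s) := by
    intro z hz
    refine (closedBall_subset_closedBall (min_le_left _ _)).trans ?_
    exact closedBall_subset_cthickening (OmA_sub_CA s hz) ε1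
  obtain ⟨G, hGd, hGdist, hGE⟩ := mollify (Ω := Om) (Ω' := OmA s) (g := g) isOpen_Om (isOpen_OmA s)
    hgc (M := 5) (by
      intro z hz
      obtain ⟨z', hz', hzz'⟩ := hgm hz
      rw [← hzz']
      exact H_upper (F_mem (S_sub_strip9 (log_mem_S hz')))) hε0
    (fun z hz => (hball z hz).trans hε1s) hgx hgy (fun φ h1 h2 h3 => (hw φ h1 h2 h3).1)
    (fun φ h1 h2 h3 => (hw φ h1 h2 h3).2)
  have hGg : ∀ z ∈ OmA s, dist (G z) (g z) ≤ δ := by
    intro z hz
    apply hGdist z hz
    intro w hw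
    refine (hε22 w (hball z hz (ball_subset_closedBall hw)) z
      (hball z hz (mem_closedBall_self hε0.le)) ?_).le
    exact lt_of_lt_of_le hw (min_le_right _ _)
  have hGN2 : MapsTo G (OmA s) N2 := by
    intro z hz
    apply mem_cthickening_of_dist_le (G z) (g z) ρ2 _ (mem_image_of_mem _ (OmA_sub_CA s hz))
    exact (hGg z hz).trans hδ1
  have hgN2 : MapsTo g (OmA s) N2 := by
    intro z hz
    exact self_subset_cthickening _ (mem_image_of_mem _ (OmA_sub_CA s hz))
  have hGm : MapsTo G (OmA s) Oms := fun z hz => hρ2s (hGN2 hz)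
  have hclose : ∀ z ∈ OmA s, dist (hi (G z)) (hi (g z)) < 1/2 := by
    intro z hz
    apply hη2 _ (hGN2 hz) _ (hgN2 hz)
    have := hGg z hz
    linarith
  -- surjectivity
  have hsurj : ∀ z ∈ CA t, ∃ x ∈ OmA s, G x = h z := by
    intro z hz
    set w0 := h z with hw0
    have hwm : w0 ∈ h '' CA t := mem_image_of_mem h hz
    have hsq : {y : ℂ | |y.re - w0.re| ≤ δ ∧ |y.im - w0.im| ≤ δ} ⊆ N1 := by
      intro y hy
      apply mem_cthickening_of_dist_le y w0 ρ _ hwm
      rw [dist_eq_norm]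
      have h1 := Complex.norm_le_abs_re_add_abs_im (y - w0)
      rw [Complex.sub_re, Complex.sub_im] at h1
      have := hy.1
      have := hy.2
      linarith
    have hkN1 : ∀ y ∈ N1, k y ∈ OmA s := fun y hy => hks (mem_image_of_mem _ hy)
    obtain ⟨y, hy, hyfix⟩ := brouwer_square (w0 := w0) hδ0 (Φ := fun y => y - G (k y) + w0) (by
      apply ContinuousOn.add _ continuousOn_const
      apply continuousOn_id.sub
      exact hGd.continuous.comp_continuousOn ((hkc.mono hρs).mono hsq)) (by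
      intro y hy
      have hyN : y ∈ N1 := hsq hy
      have h1 := hGg (k y) (hkN1 y hyN)
      rw [hgk y (hρs hyN), dist_comm, dist_eq_norm] at h1
      refine ⟨?_, ?_⟩
      · have : (y - G (k y) + w0).re - w0.re = (y - G (k y)).re := by simp
        rw [this]
        exact (Complex.abs_re_le_norm _).trans h1
      · have : (y - G (k y) + w0).im - w0.im = (y - G (k y)).im := by simp
        rw [this]
        exact (Complex.abs_im_le_norm _).trans h1)
    refine ⟨k y, hkN1 y (hsq hy), ?_⟩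
    have : y - G (k y) + w0 = y := hyfix
    linear_combination -this
  -- the lift
  have hf0c : ContinuousOn (fun z => hi (g z)) Om := hhic.comp hgc hgm
  have hf0m : MapsTo (fun z => hi (g z)) Om Om := fun z hz => hhim (hgm hz)
  obtain ⟨L0, hL0, hL0m, hL02⟩ := exists_lift hf0c hf0m
  obtain ⟨n, hn, hn2⟩ := winding_unit (f := fun z => hi (g z)) (f' := fun z => k (h z))
    (hkc.comp hhc hhm) (fun z hz => hkm (hhm hz)) (by
      intro z hz
      show k (h (hi (g z))) = z
      rw [hhhi _ (hgm hz), hkg z hz]) hL0 hL0m hL02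
  have hSS := SA_sub_S hs.le
  have hOO := OmA_sub_Om hs.le
  have hslit : ∀ z ∈ OmA s, hi (G z) / hi (g z) ∈ slitPlane := by
    intro z hz
    have h1 := hclose z hz
    have h2 : 1 < ‖hi (g z)‖ := (hhim (hgm (hOO hz))).1
    have h3 : hi (g z) ≠ 0 := ne_zero_of_mem_Om (hhim (hgm (hOO hz)))
    have h4 : hi (G z) / hi (g z) = 1 + (hi (G z) - hi (g z)) / hi (g z) := by
      field_simp
      ring
    rw [h4]
    apply Complex.mem_slitPlane_of_norm_lt_one
    rw [norm_div, div_lt_one (by linarith)]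
    rw [dist_eq_norm] at h1
    linarith
  have hbound := smooth_bound hs.le (hst.trans ht4) (G := G) hGd.contDiffOn hGm
    (isCompact_CA t).measurableSet (CA_sub_Om ht) hsurj
    (L := fun ζ => L0 ζ + Complex.log (hi (G (Complex.exp ζ)) / hi (g (Complex.exp ζ)))) (by
      apply (hL0.mono hSS).add
      apply ContinuousOn.clog
      · apply ContinuousOn.div
        · exact hhic.comp (hGd.continuous.comp Complex.continuous_exp).continuousOn
            (fun ζ hζ => hGm (exp_mem_OmA hζ))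
        · exact hf0c.comp Complex.continuous_exp.continuousOn
            (fun ζ hζ => hOO (exp_mem_OmA hζ))
        · intro ζ hζ
          exact ne_zero_of_mem_Om (hhim (hgm (hOO (exp_mem_OmA hζ))))
      · intro ζ hζ
        exact hslit _ (exp_mem_OmA hζ)) (by
      intro ζ hζ
      have h1 := hslit _ (exp_mem_OmA hζ)
      have h3 : hi (g (Complex.exp ζ)) ≠ 0 :=
        ne_zero_of_mem_Om (hhim (hgm (hOO (exp_mem_OmA hζ))))
      rw [Complex.exp_add, hL02 ζ (hSS hζ), Complex.exp_log (slitPlane_ne_zero h1)]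
      show hi (g (Complex.exp ζ)) * (hi (G (Complex.exp ζ)) / hi (g (Complex.exp ζ)))
        = hi (G (Complex.exp ζ))
      field_simp) hn (by
      intro ζ hζ
      show L0 (ζ + 2 * Real.pi * I) + _ = _
      rw [hn2 ζ (hSS hζ), Complex.exp_periodic]
      ring)
  calc (∫⁻ z in CA t, ENNReal.ofReal (lam z)) + ENNReal.ofReal ((1/2 - 2 * t) * (8 * Real.pi))
      ≤ (∫⁻ z in CA t, ENNReal.ofReal (lam z))
        + ENNReal.ofReal ((1/2 - 2 * s) * (8 * Real.pi)) := by
        gcongr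
    _ ≤ _ := hbound
    _ ≤ _ := hGE

/-- Energy minimality of `h` among homeomorphisms with weak gradients. -/
theorem sobolev_bound {g k : ℂ → ℂ} (hgc : ContinuousOn g Om) (hgm : MapsTo g Om Oms)
    (hkc : ContinuousOn k Oms) (hkm : MapsTo k Oms Om) (hkg : ∀ z ∈ Om, k (g z) = z)
    (hgk : ∀ w ∈ Oms, g (k w) = w) {gx gy : ℂ → ℂ}
    (hgx : AEStronglyMeasurable gx (volume.restrict Om))
    (hgy : AEStronglyMeasurable gy (volume.restrict Om)) (hw : WeakGrad Om g gx gy) :
    energy h ≤ ∫⁻ z in Om, ((‖gx z‖₊ ^ 2 + ‖gy z‖₊ ^ 2 : ℝ≥0) : ℝ≥0∞) := by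
  set E := ∫⁻ z in Om, ((‖gx z‖₊ ^ 2 + ‖gy z‖₊ ^ 2 : ℝ≥0) : ℝ≥0∞) with hE
  set t : ℕ → ℝ := fun n => 1 / ((n : ℝ) + 4) with ht
  have ht0 : ∀ n, 0 < t n := fun n => by simp only [ht]; positivity
  have ht4 : ∀ n, t n ≤ 1/4 := fun n => by
    simp only [ht]
    rw [div_le_div_iff₀ (by positivity) (by norm_num)]
    have : (0:ℝ) ≤ n := Nat.cast_nonneg n
    linarith
  have htm : Antitone t := by
    intro m n hmn
    simp only [ht]
    have : (m:ℝ) ≤ n := by exact_mod_cast hmn
    have : (0:ℝ) ≤ m := Nat.cast_nonneg m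
    apply one_div_le_one_div_of_le (by linarith) (by linarith)
  have htl : Tendsto t atTop (𝓝 0) := by
    have h1 : Tendsto (fun n : ℕ => (n:ℝ) + 4) atTop atTop :=
      tendsto_atTop_add_const_right _ _ tendsto_natCast_atTop_atTop
    exact (tendsto_const_nhds (x := (1:ℝ))).div_atTop h1
  have hmono : Monotone (fun n => CA (t n)) := by
    intro m n hmn z hz
    have := htm hmn
    exact ⟨(Real.exp_le_exp.mpr this).trans hz.1,
      hz.2.trans (Real.exp_le_exp.mpr (by linarith))⟩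
  have hU : ⋃ n, CA (t n) = Om := by
    apply subset_antisymm
    · exact iUnion_subset fun n => CA_sub_Om (ht0 n)
    · intro z hz
      have hzn : 0 < ‖z‖ := norm_pos_iff.mpr (ne_zero_of_mem_Om hz)
      have h1 : 0 < Real.log ‖z‖ := Real.log_pos hz.1
      have h2 : Real.log ‖z‖ < 1/2 := by
        rw [Real.log_lt_iff_lt_exp hzn]; exact hz.2
      have h3 : ∀ᶠ n in atTop, t n < min (Real.log ‖z‖) (1/2 - Real.log ‖z‖) :=
        htl.eventually (gt_mem_nhds (lt_min h1 (by linarith)))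
      obtain ⟨n, hn⟩ := h3.exists
      rw [mem_iUnion]
      refine ⟨n, ?_, ?_⟩
      · rw [← Real.le_log_iff_exp_le hzn]; exact (lt_min_iff.mp hn).1.le
      · rw [← Real.log_le_iff_le_exp hzn]; linarith [(lt_min_iff.mp hn).2]
  have hlim1 : Tendsto (fun n => ∫⁻ z in CA (t n), ENNReal.ofReal (lam z)) atTop
      (𝓝 (∫⁻ z in Om, ENNReal.ofReal (lam z))) := by
    have h1 := setLIntegral_iUnion_of_directed (μ := (volume : Measure ℂ))
      (fun z => ENNReal.ofReal (lam z)) (s := fun n => CA (t n)) hmono.directed_le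
    rw [hU] at h1
    rw [h1]
    apply tendsto_atTop_iSup
    intro m n hmn
    exact lintegral_mono_set (hmono hmn)
  have hlim2 : Tendsto (fun n => ENNReal.ofReal ((1/2 - 2 * t n) * (8 * Real.pi))) atTop
      (𝓝 (ENNReal.ofReal (4 * Real.pi))) := by
    apply ENNReal.tendsto_ofReal
    have h1 : Tendsto (fun n => (1/2 - 2 * t n) * (8 * Real.pi)) atTop
        (𝓝 ((1/2 - 2 * 0) * (8 * Real.pi))) :=
      (tendsto_const_nhds.sub (htl.const_mul 2)).mul_const _
    have e : (1/2 - 2 * 0) * (8 * Real.pi) = 4 * Real.pi := by ring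
    rwa [e] at h1
  rw [energy_h]
  apply le_of_tendsto' (hlim1.add hlim2)
  intro n
  exact sobolev_bound_aux hgc hgm hkc hkm hkg hgk hgx hgy hw (ht0 n) (ht4 n)

end Pool.Agent.A78
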