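import Mathlib

/-!
Helper file for the disproof of MP_a78000_an.
One-dimensional crossing lemma.
-/

set_option autoImplicit false

open Set Filter Topology MeasureTheory
open scoped ENNReal

namespace Pool.Agent.A78

lemma exists_crossing {g : ℝ → ℝ} {p q α β : ℝ} (hpq : p ≤ q) (hg : ContinuousOn g (Icc p q))
    (hp : g p ≤ α) (hq : β ≤ g q) (hαβ : α < β) :
    ∃ p' q', p ≤ p' ∧ p' < q' ∧ q' ≤ q ∧ g p' = α ∧ g q' = β ∧
      ∀ t ∈ Ioo p' q', α < g t ∧ g t < β := by
  -- last time `≤ α`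
  have hA : IsCompact (Icc p q ∩ {t | g t ≤ α}) := by
    have h1 : IsClosed (Icc p q ∩ g ⁻¹' (Iic α)) := hg.preimage_isClosed_of_isClosed isClosed_Icc isClosed_Iic
    exact isCompact_Icc.of_isClosed_subset h1 inter_subset_left
  obtain ⟨p', ⟨hp'1, hp'2⟩, hp'max⟩ := hA.exists_isGreatest ⟨p, left_mem_Icc.mpr hpq, hp⟩
  have hp'2' : g p' ≤ α := hp'2
  have hp'q : p' < q := by
    rcases hp'1.2.lt_or_eq with h | h
    · exact h
    · rw [h] at hp'2'; linarith
  have hgt : ∀ t ∈ Ioc p' q, α < g t := by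
    intro t ht
    by_contra hcon
    push Not at hcon
    have := hp'max ⟨⟨hp'1.1.trans ht.1.le, ht.2⟩, hcon⟩
    linarith [ht.1]
  have hgc' : ContinuousOn g (Icc p' q) := hg.mono (Icc_subset_Icc_left hp'1.1)
  have hgp' : g p' = α := by
    apply le_antisymm hp'2'
    have h1 : Tendsto g (𝓝[>] p') (𝓝 (g p')) :=
      (hgc' p' (left_mem_Icc.mpr hp'q.le)).mono_left
        (nhdsWithin_le_of_mem (mem_of_superset (Ioc_mem_nhdsGT hp'q) Ioc_subset_Icc_self))
    refine ge_of_tendsto h1 ?_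
    filter_upwards [Ioc_mem_nhdsGT hp'q] with t ht using (hgt t ht).le
  -- first time `≥ β` after `p'`
  have hB : IsCompact (Icc p' q ∩ {t | β ≤ g t}) := by
    have h1 : IsClosed (Icc p' q ∩ g ⁻¹' (Ici β)) :=
      hgc'.preimage_isClosed_of_isClosed isClosed_Icc isClosed_Ici
    exact isCompact_Icc.of_isClosed_subset h1 inter_subset_left
  obtain ⟨q', ⟨hq'1, hq'2⟩, hq'min⟩ := hB.exists_isLeast ⟨q, right_mem_Icc.mpr hp'q.le, hq⟩
  have hq'2' : β ≤ g q' := hq'2
  have hp'q' : p' < q' := by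
    rcases hq'1.1.lt_or_eq with h | h
    · exact h
    · rw [← h] at hq'2'; linarith
  have hlt : ∀ t ∈ Ico p' q', g t < β := by
    intro t ht
    by_contra hcon
    push Not at hcon
    have := hq'min ⟨⟨ht.1, ht.2.le.trans hq'1.2⟩, hcon⟩
    linarith [ht.2]
  have hgq' : g q' = β := by
    refine le_antisymm ?_ hq'2'
    have h1 : Tendsto g (𝓝[<] q') (𝓝 (g q')) :=
      ((hgc'.mono (Icc_subset_Icc_right hq'1.2)) q' (right_mem_Icc.mpr hp'q'.le)).mono_left
        (nhdsWithin_le_of_mem (mem_of_superset (Ico_mem_nhdsLT hp'q') Ico_subset_Icc_self))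
    refine le_of_tendsto h1 ?_
    filter_upwards [Ico_mem_nhdsLT hp'q'] with t ht using (hlt t ht).le
  refine ⟨p', q', hp'1.1, hp'q', hq'1.2, hgp', hgq', ?_⟩
  intro t ht
  exact ⟨hgt t ⟨ht.1, ht.2.le.trans hq'1.2⟩, hlt t ⟨ht.1.le, ht.2⟩⟩

/-- integral of `|g'|` over the set where `α < g < β` -/
lemma crossing_integral_aux {g g' : ℝ → ℝ} {l r p q α β : ℝ} (hpl : l < p) (hqr : q < r)
    (hpq : p ≤ q) (hg : ∀ t ∈ Ioo l r, HasDerivAt g (g' t) t) (hg' : ContinuousOn g' (Ioo l r))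
    (hp : g p ≤ α) (hq : β ≤ g q) (hαβ : α < β) :
    ENNReal.ofReal (β - α) ≤
      ∫⁻ t in Ioo l r, (({t | α < g t ∧ g t < β}).indicator (fun t => ENNReal.ofReal |g' t|)) t := by
  have hsub : Icc p q ⊆ Ioo l r := fun t ht => ⟨hpl.trans_le ht.1, ht.2.trans_lt hqr⟩
  have hgc : ContinuousOn g (Icc p q) := fun t ht => (hg t (hsub ht)).continuousAt.continuousWithinAt
  obtain ⟨p', q', h1, h2, h3, h4, h5, h6⟩ := exists_crossing hpq hgc hp hq hαβ
  have hsub' : Icc p' q' ⊆ Ioo l r := fun t ht => hsub ⟨h1.trans ht.1, ht.2.trans h3⟩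
  have hint : IntervalIntegrable g' volume p' q' := by
    apply ContinuousOn.intervalIntegrable
    rw [uIcc_of_le h2.le]
    exact hg'.mono hsub'
  have hftc : ∫ t in p'..q', g' t = g q' - g p' := by
    apply intervalIntegral.integral_eq_sub_of_hasDerivAt _ hint
    intro t ht
    rw [uIcc_of_le h2.le] at ht
    exact hg t (hsub' ht)
  have hle : β - α ≤ ∫ t in p'..q', |g' t| := by
    rw [← h4, ← h5, ← hftc]
    exact (le_abs_self _).trans (intervalIntegral.abs_integral_le_integral_abs h2.le)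
  calc ENNReal.ofReal (β - α) ≤ ENNReal.ofReal (∫ t in p'..q', |g' t|) := ENNReal.ofReal_le_ofReal hle
    _ = ∫⁻ t in Ioo p' q', ENNReal.ofReal |g' t| := by
        rw [intervalIntegral.integral_of_le h2.le, integral_Ioc_eq_integral_Ioo,
          ofReal_integral_eq_lintegral_ofReal]
        · exact (hint.abs.1).mono_set Ioo_subset_Ioc_self
        · exact Filter.Eventually.of_forall (fun _ => abs_nonneg _)
    _ = ∫⁻ t in Ioo p' q', (({t | α < g t ∧ g t < β}).indicator (fun t => ENNReal.ofReal |g' t|)) t := by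
        apply setLIntegral_congr_fun measurableSet_Ioo
        intro t ht
        simp only
        rw [indicator_of_mem]
        exact h6 t ht
    _ ≤ _ := by
        apply lintegral_mono_set
        exact Ioo_subset_Icc_self.trans hsub'

lemma crossing_integral {g g' : ℝ → ℝ} {l r t₁ t₂ α β : ℝ} (h₁ : t₁ ∈ Ioo l r) (h₂ : t₂ ∈ Ioo l r)
    (hg : ∀ t ∈ Ioo l r, HasDerivAt g (g' t) t) (hg' : ContinuousOn g' (Ioo l r))
    (hp : g t₁ ≤ α) (hq : β ≤ g t₂) (hαβ : α < β) :
    ENNReal.ofReal (β - α) ≤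
      ∫⁻ t in Ioo l r, (({t | α < g t ∧ g t < β}).indicator (fun t => ENNReal.ofReal |g' t|)) t := by
  rcases le_total t₁ t₂ with h | h
  · exact crossing_integral_aux h₁.1 h₂.2 h hg hg' hp hq hαβ
  · have := crossing_integral_aux (g := fun t => -g t) (g' := fun t => -g' t) (α := -β) (β := -α)
      h₂.1 h₁.2 h (fun t ht => (hg t ht).neg) hg'.neg (by simpa using hq) (by simpa using hp)
      (by linarith)
    have e1 : -α - -β = β - α := by ring
    rw [e1] at this
    refine this.trans (le_of_eq ?_)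
    apply lintegral_congr
    intro t
    have e2 : ({t | -β < -g t ∧ -g t < -α} : Set ℝ) = {t | α < g t ∧ g t < β} := by
      ext t; simp [and_comm]
    rw [e2]
    simp only [abs_neg]

end Pool.Agent.A78
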