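import Mathlib
import Pool.Agent.Work.MP_a78000_an.Crossing
import Pool.Agent.Work.MP_a78000_an.Energy
import Pool.Agent.Work.MP_a78000_an.HolInv

/-!
Helper file for the disproof of MP_a78000_an.
Upper bound for the modulus of `Oms`.
-/

set_option autoImplicit false

open Complex Set Filter Topology MeasureTheory
open scoped ENNReal NNReal

namespace Pool.Agent.A78

/-- round annulus in the target -/
def Ann (a b : ℝ) : Set ℂ := {z : ℂ | a < ‖z‖ ∧ ‖z‖ < b}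

lemma lintegral_Rec' (q : ℂ → ℝ≥0∞) (hq : AEMeasurable q (volume.restrict Rec)) :
    ∫⁻ ζ in Rec, q ζ = ∫⁻ θ in Ioo (-Real.pi) Real.pi, ∫⁻ t in Ioo (0:ℝ) (1/2), q (t + θ * I) := by
  rw [lintegral_Rec q hq]
  apply lintegral_lintegral_swap
  have hmp := Complex.volume_preserving_equiv_real_prod.symm Complex.measurableEquivRealProd
  have hpre : Complex.measurableEquivRealProd.symm ⁻¹' Rec
      = (Ioo (0:ℝ) (1/2)) ×ˢ (Ioo (-Real.pi) Real.pi) := by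
    ext p
    simp [Rec, Complex.measurableEquivRealProd_symm_apply]
  have hmeas : AEMeasurable (fun p : ℝ × ℝ => q (Complex.measurableEquivRealProd.symm p))
      ((volume.prod volume).restrict ((Ioo (0:ℝ) (1/2)) ×ˢ (Ioo (-Real.pi) Real.pi))) := by
    have h2 := hmp.restrict_preimage (s := Rec) isOpen_Rec.measurableSet
    rw [hpre] at h2
    exact hq.comp_quasiMeasurePreserving h2.quasiMeasurePreserving
  rw [Measure.prod_restrict]
  refine hmeas.congr (Filter.Eventually.of_forall ?_)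
  rintro ⟨t, θ⟩
  simp only [Function.uncurry, Complex.measurableEquivRealProd_symm_apply]
  congr 1
  apply Complex.ext <;> simp

/-- area of a round annulus in the logarithmic metric -/
lemma log_area {a b : ℝ} (ha : 0 < a) (hab : a < b) :
    ∫⁻ w in Ann a b, ENNReal.ofReal (‖w‖⁻¹^2) = ENNReal.ofReal (2 * Real.pi * Real.log (b/a)) := by
  set R : Set ℂ := {z : ℂ | (Real.log a < z.re ∧ z.re < Real.log b) ∧ (-Real.pi < z.im ∧ z.im ≤ Real.pi)} with hR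
  have hRm : MeasurableSet R := by
    apply MeasurableSet.inter
    · exact ((isOpen_lt continuous_const Complex.continuous_re).inter
        (isOpen_lt Complex.continuous_re continuous_const)).measurableSet
    · exact (isOpen_lt continuous_const Complex.continuous_im).measurableSet.inter
        (isClosed_le Complex.continuous_im continuous_const).measurableSet
  have himg : Complex.exp '' R = Ann a b := by
    ext w
    constructor
    · rintro ⟨z, hz, rfl⟩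
      refine ⟨?_, ?_⟩
      · rw [Complex.norm_exp]; exact (Real.log_lt_iff_lt_exp ha).mp hz.1.1
      · rw [Complex.norm_exp]; exact (Real.lt_log_iff_exp_lt (ha.trans hab)).mp hz.1.2
    · rintro ⟨h1, h2⟩
      have hw : w ≠ 0 := by rw [← norm_pos_iff]; exact ha.trans h1
      refine ⟨Complex.log w, ⟨⟨?_, ?_⟩, Complex.neg_pi_lt_log_im w, Complex.log_im_le_pi w⟩,
        Complex.exp_log hw⟩
      · rw [Complex.log_re]; exact Real.log_lt_log ha h1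
      · rw [Complex.log_re]; exact Real.log_lt_log (ha.trans h1) h2
  have hinj : InjOn Complex.exp R := fun z hz w hw e =>
    Complex.exp_inj_of_neg_pi_lt_of_le_pi hz.2.1 hz.2.2 hw.2.1 hw.2.2 e
  have hd : ∀ ζ ∈ R, HasFDerivWithinAt Complex.exp (mulL (Complex.exp ζ)) R ζ := by
    intro ζ _
    have := (Complex.hasDerivAt_exp ζ).hasFDerivAt.restrictScalars ℝ
    exact this.hasFDerivWithinAt
  rw [← himg, lintegral_image_eq_lintegral_abs_det_fderiv_mul volume hRm hd hinj]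
  have e1 : ∀ ζ ∈ R, ENNReal.ofReal |(mulL (Complex.exp ζ)).det| *
      ENNReal.ofReal (‖Complex.exp ζ‖⁻¹^2) = 1 := by
    intro ζ _
    rw [det_mulL, abs_of_nonneg (by positivity), ← ENNReal.ofReal_mul (by positivity)]
    have : ‖Complex.exp ζ‖ ≠ 0 := norm_ne_zero_iff.mpr (Complex.exp_ne_zero _)
    have e : ‖Complex.exp ζ‖^2 * ‖Complex.exp ζ‖⁻¹^2 = 1 := by field_simp
    rw [e, ENNReal.ofReal_one]
  rw [setLIntegral_congr_fun hRm e1, setLIntegral_one]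
  have hpre : Complex.measurableEquivRealProd.symm ⁻¹' R
      = (Ioo (Real.log a) (Real.log b)) ×ˢ (Ioc (-Real.pi) Real.pi) := by
    ext p
    simp [hR, Complex.measurableEquivRealProd_symm_apply]
  have hmp := Complex.volume_preserving_equiv_real_prod.symm Complex.measurableEquivRealProd
  rw [← hmp.measure_preimage_equiv, hpre, Measure.volume_eq_prod, Measure.prod_prod, Real.volume_Ioo,
    Real.volume_Ioc, ← ENNReal.ofReal_mul (by
      have := Real.log_lt_log ha hab; linarith)]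
  congr 1
  rw [Real.log_div (ha.trans hab).ne' ha.ne']
  ring

section

variable {rs : ℝ} {ψ : ℂ → ℂ}

/-- composition in log coordinates -/
noncomputable def Pm (ψ : ℂ → ℂ) (ζ : ℂ) : ℂ := ψ (G ζ)

lemma G_mem_Oms {ζ : ℂ} (hζ : ζ ∈ S) : G ζ ∈ Oms :=
  ⟨_, exp_mem_Om hζ, h_exp (S_sub_strip9 hζ)⟩

lemma Pm_hasFDerivAt (hψd : DifferentiableOn ℂ ψ Oms) {ζ : ℂ} (hζ : ζ ∈ S) :
    HasFDerivAt (Pm ψ) ((mulL (deriv ψ (G ζ))).comp
      (lin (Complex.exp (F ζ)) (-Complex.exp (-F ζ)))) ζ := by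
  have h1 : HasFDerivAt ψ (mulL (deriv ψ (G ζ))) (G ζ) := by
    have := (hψd.differentiableAt (h_inv_facts.1.mem_nhds (G_mem_Oms hζ))).hasDerivAt
    exact this.hasFDerivAt.restrictScalars ℝ
  exact h1.comp ζ (G_hasFDerivAt (S_sub_strip9 hζ))

lemma Pm_continuousOn (hψd : DifferentiableOn ℂ ψ Oms) : ContinuousOn (Pm ψ) S :=
  fun _ hζ => (Pm_hasFDerivAt hψd hζ).continuousAt.continuousWithinAt

lemma deriv_psi_continuousOn (hψd : DifferentiableOn ℂ ψ Oms) :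
    ContinuousOn (fun ζ => deriv ψ (G ζ)) S := by
  have h1 : ContinuousOn (deriv ψ) Oms := (hψd.deriv h_inv_facts.1).continuousOn
  refine h1.comp ?_ (fun ζ hζ => G_mem_Oms hζ)
  exact contDiffOn_G.continuousOn.mono S_sub_strip9

/-- ends of the annulus -/
lemma ends (hrs0 : 0 ≤ rs) (hψd : DifferentiableOn ℂ ψ Oms) (hψi : InjOn ψ Oms)
    (hψs : ψ '' Oms = {z : ℂ | rs < ‖z‖ ∧ ‖z‖ < 1}) {a b : ℝ} (ha : rs < a) (hab : a < b)
    (hb : b < 1) : ∀ θ : ℝ, ∃ t₁ ∈ Ioo (0:ℝ) (1/2), ∃ t₂ ∈ Ioo (0:ℝ) (1/2),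
      ‖Pm ψ (t₁ + θ * I)‖ ≤ a ∧ b ≤ ‖Pm ψ (t₂ + θ * I)‖ := by
  -- inverse map
  set Pi : ℂ → ℂ := fun w => Function.invFunOn h Om (Function.invFunOn ψ Oms w) with hPi
  have hinvψ : ContinuousOn (Function.invFunOn ψ Oms) (ψ '' Oms) :=
    (Pool.Agent.HolInv.differentiableOn_inv h_inv_facts.1 hψd hψi).continuousOn
  have hPic : ContinuousOn Pi (ψ '' Oms) :=
    h_inv_facts.2.continuousOn.comp hinvψ (fun w hw => Function.invFunOn_mem hw)
  have hPim : ∀ w ∈ ψ '' Oms, Pi w ∈ Om := fun w hw =>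
    Function.invFunOn_mem (Function.invFunOn_mem hw : Function.invFunOn ψ Oms w ∈ Oms)
  have hPiP : ∀ ζ ∈ S, Pi (Pm ψ ζ) = Complex.exp ζ := by
    intro ζ hζ
    simp only [hPi, Pm]
    rw [hψi.leftInvOn_invFunOn (G_mem_Oms hζ), ← h_exp (S_sub_strip9 hζ)]
    exact h_injOn.leftInvOn_invFunOn (exp_mem_Om hζ)
  have hPmem : ∀ ζ ∈ S, Pm ψ ζ ∈ ψ '' Oms := fun ζ hζ => ⟨_, G_mem_Oms hζ, rfl⟩
  -- compact set in target
  set K : Set ℂ := {w : ℂ | a ≤ ‖w‖ ∧ ‖w‖ ≤ b} with hK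
  have hKc : IsCompact K := by
    apply Metric.isCompact_of_isClosed_isBounded
    · exact (isClosed_le continuous_const continuous_norm).inter
        (isClosed_le continuous_norm continuous_const)
    · apply (Metric.isBounded_closedBall (x := (0:ℂ)) (r := b)).subset
      intro w hw
      rw [mem_closedBall_zero_iff]; exact hw.2
  have hKs : K ⊆ ψ '' Oms := by
    rw [hψs]; intro w hw; exact ⟨ha.trans_le hw.1, hw.2.trans_lt hb⟩
  have hCc : IsCompact ((fun w => Real.log ‖Pi w‖) '' K) := by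
    apply hKc.image_of_continuousOn
    apply ContinuousOn.log
    · exact (hPic.mono hKs).norm
    · intro w hw
      exact (norm_pos_iff.mpr (ne_zero_of_mem_Om (hPim w (hKs hw)))).ne'
  have hCsub : ((fun w => Real.log ‖Pi w‖) '' K) ⊆ Ioo (0:ℝ) (1/2) := by
    rintro _ ⟨w, hw, rfl⟩
    have := log_mem_S (hPim w (hKs hw))
    have h2 := this.1
    have h3 := this.2
    rw [Complex.log_re] at h2 h3
    exact ⟨h2, h3⟩
  obtain ⟨δ, hδ0, hδ1, hδ⟩ : ∃ δ : ℝ, 0 < δ ∧ δ < 1/4 ∧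
      ∀ x ∈ ((fun w => Real.log ‖Pi w‖) '' K), δ ≤ x ∧ x ≤ 1/2 - δ := by
    have hne : ((fun w => Real.log ‖Pi w‖) '' K).Nonempty := by
      refine ⟨_, (a : ℂ), ⟨?_, ?_⟩, rfl⟩
      · rw [Complex.norm_real, Real.norm_eq_abs]; exact le_abs_self a
      · rw [Complex.norm_real, Real.norm_eq_abs, abs_of_pos (hrs0.trans_lt ha)]; exact hab.le
    obtain ⟨m, hm1, hm2⟩ := hCc.exists_isLeast hne
    obtain ⟨M, hM1, hM2⟩ := hCc.exists_isGreatest hne
    have hm := hCsub hm1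
    have hM := hCsub hM1
    refine ⟨min (1/8) (min m (1/2 - M)), ?_, ?_, ?_⟩
    · apply lt_min (by norm_num)
      exact lt_min hm.1 (by linarith [hM.2])
    · exact (min_le_left _ _).trans_lt (by norm_num)
    · intro x hx
      have h1 := hm2 hx
      have h2 := hM2 hx
      have h3 : min (1/8) (min m (1/2 - M)) ≤ m := (min_le_right _ _).trans (min_le_left _ _)
      have h4 : min (1/8) (min m (1/2 - M)) ≤ 1/2 - M := (min_le_right _ _).trans (min_le_right _ _)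
      constructor <;> linarith
  -- outside `[δ, 1/2 - δ]`, the image avoids `K`
  have havoid : ∀ ζ ∈ S, (ζ.re < δ ∨ 1/2 - δ < ζ.re) → ‖Pm ψ ζ‖ < a ∨ b < ‖Pm ψ ζ‖ := by
    intro ζ hζ hre
    by_contra hcon
    push Not at hcon
    have hmem : Pm ψ ζ ∈ K := hcon
    have h1 := hδ _ ⟨Pm ψ ζ, hmem, rfl⟩
    simp only [hPiP ζ hζ] at h1
    rw [Complex.norm_exp, Real.log_exp] at h1
    rcases hre with h | h <;> linarith [h1.1, h1.2]
  -- collars
  have hside : ∀ C : Set ℂ, C ⊆ S → Convex ℝ C →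
      (∀ ζ ∈ C, ζ.re < δ ∨ 1/2 - δ < ζ.re) →
      (∀ ζ ∈ C, ‖Pm ψ ζ‖ < a) ∨ (∀ ζ ∈ C, b < ‖Pm ψ ζ‖) := by
    intro C hCS hCconv hCre
    by_contra hcon
    push Not at hcon
    obtain ⟨⟨x, hx, hx2⟩, ⟨y, hy, hy2⟩⟩ := hcon
    have hx3 : b < ‖Pm ψ x‖ := (havoid x (hCS hx) (hCre x hx)).resolve_left (by linarith)
    have hy3 : ‖Pm ψ y‖ < a := (havoid y (hCS hy) (hCre y hy)).resolve_right (by linarith)
    have hpre : IsPreconnected ((fun ζ => ‖Pm ψ ζ‖) '' C) :=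
      hCconv.isPreconnected.image _ ((Pm_continuousOn hψd).mono hCS).norm
    have hord := hpre.ordConnected
    have : a ∈ ((fun ζ => ‖Pm ψ ζ‖) '' C) :=
      hord.out ⟨y, hy, rfl⟩ ⟨x, hx, rfl⟩ ⟨hy3.le, (hab.trans hx3).le⟩
    obtain ⟨z, hz, hza⟩ := this
    simp only at hza
    rcases havoid z (hCS hz) (hCre z hz) with h | h <;> linarith
  set C₁ : Set ℂ := {z : ℂ | 0 < z.re ∧ z.re < δ} with hC₁
  set C₂ : Set ℂ := {z : ℂ | 1/2 - δ < z.re ∧ z.re < 1/2} with hC₂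
  have hC₁S : C₁ ⊆ S := fun z hz => ⟨hz.1, hz.2.trans (by linarith)⟩
  have hC₂S : C₂ ⊆ S := fun z hz => ⟨by linarith [hz.1], hz.2⟩
  have hC₁c : Convex ℝ C₁ := by
    have : C₁ = Complex.re ⁻¹' (Set.Ioo 0 δ) := by ext z; simp [hC₁]
    rw [this]; exact (convex_Ioo (0 : ℝ) δ).linear_preimage Complex.reLm
  have hC₂c : Convex ℝ C₂ := by
    have : C₂ = Complex.re ⁻¹' (Set.Ioo (1/2 - δ) (1/2)) := by ext z; simp [hC₂]
    rw [this]; exact (convex_Ioo (1/2 - δ) (1/2 : ℝ)).linear_preimage Complex.reLm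
  have s1 := hside C₁ hC₁S hC₁c (fun ζ hζ => Or.inl hζ.2)
  have s2 := hside C₂ hC₂S hC₂c (fun ζ hζ => Or.inr hζ.1)
  -- compact core
  set N : Set ℂ := {z : ℂ | (δ ≤ z.re ∧ z.re ≤ 1/2 - δ) ∧ (-Real.pi ≤ z.im ∧ z.im ≤ Real.pi)} with hN
  have hNS : N ⊆ S := fun z hz => ⟨by linarith [hz.1.1], by linarith [hz.1.2]⟩
  have hNc : IsCompact N := by
    have : N = (Icc δ (1/2 - δ)) ×ℂ (Icc (-Real.pi) Real.pi) := by
      ext z; simp [hN, Complex.mem_reProdIm]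
    rw [this]; exact isCompact_Icc.reProdIm isCompact_Icc
  have hNi : IsCompact ((fun ζ => ‖Pm ψ ζ‖) '' N) :=
    hNc.image_of_continuousOn ((Pm_continuousOn hψd).mono hNS).norm
  have hNne : ((fun ζ => ‖Pm ψ ζ‖) '' N).Nonempty := by
    refine ⟨_, ((1/4 : ℝ) : ℂ), ⟨⟨?_, ?_⟩, ?_, ?_⟩, rfl⟩
    · rw [Complex.ofReal_re]; linarith
    · rw [Complex.ofReal_re]; linarith
    · rw [Complex.ofReal_im]; linarith [Real.pi_pos]
    · rw [Complex.ofReal_im]; linarith [Real.pi_pos]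
  -- every point of the target is hit by a point of `S` with imaginary part in `[-π, π]`
  have hhit : ∀ w : ℂ, rs < ‖w‖ → ‖w‖ < 1 → ∃ ζ ∈ S, Pm ψ ζ = w ∧ -Real.pi ≤ ζ.im ∧ ζ.im ≤ Real.pi := by
    intro w h1 h2
    have hw : w ∈ ψ '' Oms := by rw [hψs]; exact ⟨h1, h2⟩
    obtain ⟨_, ⟨z, hz, rfl⟩, hzw⟩ := hw
    refine ⟨Complex.log z, log_mem_S hz, ?_, (Complex.neg_pi_lt_log_im z).le, Complex.log_im_le_pi z⟩
    exact hzw
  have hnot1 : ¬ ((∀ ζ ∈ C₁, ‖Pm ψ ζ‖ < a) ∧ (∀ ζ ∈ C₂, ‖Pm ψ ζ‖ < a)) := by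
    rintro ⟨h1, h2⟩
    obtain ⟨M, ⟨z₀, hz₀, rfl⟩, hM2⟩ := hNi.exists_isGreatest hNne
    have hM1 : ‖Pm ψ z₀‖ < 1 := by
      have := hPmem z₀ (hNS hz₀)
      rw [hψs] at this; exact this.2
    set ρ := max b ((‖Pm ψ z₀‖ + 1)/2) with hρ
    have hρ1 : ρ < 1 := max_lt hb (by linarith)
    have hρ0 : b ≤ ρ := le_max_left _ _
    have hρ2 : ‖Pm ψ z₀‖ < ρ := lt_of_lt_of_le (by linarith) (le_max_right _ _)
    have hρpos : 0 < ρ := by linarith
    have hnρ : ‖(ρ : ℂ)‖ = ρ := by rw [Complex.norm_real, Real.norm_eq_abs, abs_of_pos hρpos]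
    obtain ⟨ζ, hζ, hζw, hζim⟩ := hhit (ρ : ℂ) (by rw [hnρ]; linarith) (by rw [hnρ]; exact hρ1)
    have hζn : ‖Pm ψ ζ‖ = ρ := by rw [hζw, hnρ]
    by_cases hc1 : ζ.re < δ
    · have := h1 ζ ⟨hζ.1, hc1⟩; linarith
    · by_cases hc2 : 1/2 - δ < ζ.re
      · have := h2 ζ ⟨hc2, hζ.2⟩; linarith
      · have : ‖Pm ψ ζ‖ ≤ ‖Pm ψ z₀‖ := hM2 ⟨ζ, ⟨⟨not_lt.mp hc1, not_lt.mp hc2⟩, hζim⟩, rfl⟩
        linarith
  have hnot2 : ¬ ((∀ ζ ∈ C₁, b < ‖Pm ψ ζ‖) ∧ (∀ ζ ∈ C₂, b < ‖Pm ψ ζ‖)) := by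
    rintro ⟨h1, h2⟩
    obtain ⟨m, ⟨z₀, hz₀, rfl⟩, hm2⟩ := hNi.exists_isLeast hNne
    have hm1 : rs < ‖Pm ψ z₀‖ := by
      have := hPmem z₀ (hNS hz₀)
      rw [hψs] at this; exact this.1
    set ρ := min a ((‖Pm ψ z₀‖ + rs)/2) with hρ
    have hρ1 : rs < ρ := lt_min ha (by linarith)
    have hρ0 : ρ ≤ a := min_le_left _ _
    have hρ2 : ρ < ‖Pm ψ z₀‖ := lt_of_le_of_lt (min_le_right _ _) (by linarith)
    have hρpos : 0 < ρ := by linarith
    have hnρ : ‖(ρ : ℂ)‖ = ρ := by rw [Complex.norm_real, Real.norm_eq_abs, abs_of_pos hρpos]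
    obtain ⟨ζ, hζ, hζw, hζim⟩ := hhit (ρ : ℂ) (by rw [hnρ]; linarith) (by rw [hnρ]; linarith)
    have hζn : ‖Pm ψ ζ‖ = ρ := by rw [hζw, hnρ]
    by_cases hc1 : ζ.re < δ
    · have := h1 ζ ⟨hζ.1, hc1⟩; linarith
    · by_cases hc2 : 1/2 - δ < ζ.re
      · have := h2 ζ ⟨hc2, hζ.2⟩; linarith
      · have : ‖Pm ψ z₀‖ ≤ ‖Pm ψ ζ‖ := hm2 ⟨ζ, ⟨⟨not_lt.mp hc1, not_lt.mp hc2⟩, hζim⟩, rfl⟩
        linarith
  intro θ
  have hp1 : (((δ/2 : ℝ) : ℂ) + θ * I) ∈ C₁ := by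
    refine ⟨?_, ?_⟩
    · simp; linarith
    · simp; linarith
  have hp2 : (((1/2 - δ/2 : ℝ) : ℂ) + θ * I) ∈ C₂ := by
    have : (((1/2 - δ/2 : ℝ) : ℂ) + θ * I).re = 1/2 - δ/2 := by
      rw [Complex.add_re, Complex.ofReal_re]; simp
    refine ⟨?_, ?_⟩
    · rw [this]; linarith
    · rw [this]; linarith
  have i1 : (δ/2) ∈ Ioo (0:ℝ) (1/2) := ⟨by linarith, by linarith⟩
  have i2 : (1/2 - δ/2) ∈ Ioo (0:ℝ) (1/2) := ⟨by linarith, by linarith⟩
  rcases s1 with s1 | s1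
  · rcases s2 with s2 | s2
    · exact absurd ⟨s1, s2⟩ hnot1
    · exact ⟨δ/2, i1, 1/2 - δ/2, i2, (s1 _ hp1).le, (s2 _ hp2).le⟩
  · rcases s2 with s2 | s2
    · exact ⟨1/2 - δ/2, i2, δ/2, i1, (s2 _ hp2).le, (s1 _ hp1).le⟩
    · exact absurd ⟨s1, s2⟩ hnot2

end

end Pool.Agent.A78
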