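import Mathlib
import Pool.Agent.Work.MP_a78000_an.Modulus

/-!
Helper file for the disproof of MP_a78000_an.
Length-area inequality.
-/

set_option autoImplicit false

open Complex Set Filter Topology MeasureTheory
open scoped ENNReal NNReal

namespace Pool.Agent.A78

variable {rs : ℝ} {ψ : ℂ → ℂ}

/-- radial derivative of `Pm` -/
noncomputable def yd (ψ : ℂ → ℂ) (ζ : ℂ) : ℂ :=
  deriv ψ (G ζ) * lin (Complex.exp (F ζ)) (-Complex.exp (-F ζ)) 1

lemma norm_yd {ζ : ℂ} (hζ : ζ ∈ S) : ‖yd ψ ζ‖ = ‖deriv ψ (G ζ)‖ * (2 * Real.sinh (F ζ).re) := by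
  unfold yd
  rw [norm_mul]
  congr 1
  have h1 := norm_lin_sq (F ζ) 1
  have h2 : 0 < Real.sinh (F ζ).re :=
    Real.sinh_pos_iff.mpr (F_re_pos (S_sub_strip9 hζ) hζ.1)
  have h3 : ‖lin (Complex.exp (F ζ)) (-Complex.exp (-F ζ)) 1‖^2 = (2 * Real.sinh (F ζ).re)^2 := by
    rw [h1]; simp; ring
  exact (sq_eq_sq₀ (norm_nonneg _) (by positivity)).mp h3

lemma yd_continuousOn (hψd : DifferentiableOn ℂ ψ Oms) : ContinuousOn (yd ψ) S := by
  unfold yd
  apply (deriv_psi_continuousOn hψd).mul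
  have hF := F_continuousOn.mono S_sub_strip9
  simp only [lin_apply, mul_one]
  apply ContinuousOn.add
  · exact hF.cexp
  · apply Complex.continuous_conj.comp_continuousOn
    exact (hF.neg.cexp).neg

lemma Pm_norm_pos (hrs0 : 0 ≤ rs) (hψs : ψ '' Oms = {z : ℂ | rs < ‖z‖ ∧ ‖z‖ < 1}) {ζ : ℂ}
    (hζ : ζ ∈ S) : 0 < ‖Pm ψ ζ‖ := by
  have : Pm ψ ζ ∈ ψ '' Oms := ⟨_, G_mem_Oms hζ, rfl⟩
  rw [hψs] at this
  exact hrs0.trans_lt this.1

/-- the level region -/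
def Rab (ψ : ℂ → ℂ) (a b : ℝ) : Set ℂ := Rec ∩ {ζ | a < ‖Pm ψ ζ‖ ∧ ‖Pm ψ ζ‖ < b}

lemma isOpen_Rab (hψd : DifferentiableOn ℂ ψ Oms) (a b : ℝ) : IsOpen (Rab ψ a b) := by
  have h1 : ContinuousOn (fun ζ => ‖Pm ψ ζ‖) Rec := ((Pm_continuousOn hψd).mono Rec_sub_S).norm
  have := h1.isOpen_inter_preimage isOpen_Rec (isOpen_Ioo (a := a) (b := b))
  exact this

lemma Pm_injOn_Rec (hψi : InjOn ψ Oms) : InjOn (Pm ψ) Rec := by
  intro ζ hζ ζ' hζ' e
  have h1 := hψi (G_mem_Oms (Rec_sub_S hζ)) (G_mem_Oms (Rec_sub_S hζ')) e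
  obtain ⟨n, hn⟩ := G_inj (Rec_sub_S hζ) (Rec_sub_S hζ') h1
  apply exp_injOn_Rec hζ hζ'
  rw [hn, exp_add_int]

/-- area density -/
noncomputable def ed (ψ : ℂ → ℂ) (ζ : ℂ) : ℝ :=
  ‖deriv ψ (G ζ)‖^2 * (4 * (Real.sinh (F ζ).re * Real.cosh (F ζ).re)) * ‖Pm ψ ζ‖⁻¹^2

lemma area_bound (hψd : DifferentiableOn ℂ ψ Oms) (hψi : InjOn ψ Oms)
    {a b : ℝ} (ha : 0 < a) (hab : a < b) :
    ∫⁻ ζ in Rab ψ a b, ENNReal.ofReal (ed ψ ζ) ≤ ENNReal.ofReal (2 * Real.pi * Real.log (b/a)) := by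
  rw [← log_area ha hab]
  have h1 := lintegral_image_eq_lintegral_abs_det_fderiv_mul volume
    (isOpen_Rab hψd a b).measurableSet
    (fun ζ hζ => (Pm_hasFDerivAt hψd (Rec_sub_S hζ.1)).hasFDerivWithinAt)
    ((Pm_injOn_Rec hψi).mono inter_subset_left) (fun w => ENNReal.ofReal (‖w‖⁻¹^2))
  calc ∫⁻ ζ in Rab ψ a b, ENNReal.ofReal (ed ψ ζ)
      = ∫⁻ w in Pm ψ '' Rab ψ a b, ENNReal.ofReal (‖w‖⁻¹^2) := by
        rw [h1]
        apply setLIntegral_congr_fun (isOpen_Rab hψd a b).measurableSet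
        intro ζ hζ
        simp only
        rw [← ENNReal.ofReal_mul (abs_nonneg _), det_comp, det_mulL, det_lin_exp]
        have h2 : 0 < Real.sinh (F ζ).re :=
          Real.sinh_pos_iff.mpr (F_re_pos (S_sub_strip9 (Rec_sub_S hζ.1)) (Rec_sub_S hζ.1).1)
        have h3 := Real.cosh_pos (F ζ).re
        rw [abs_of_nonneg (by positivity)]
        rfl
    _ ≤ ∫⁻ w in Ann a b, ENNReal.ofReal (‖w‖⁻¹^2) := by
        apply lintegral_mono_set
        rintro _ ⟨ζ, hζ, rfl⟩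
        exact hζ.2

lemma amgm {ζ : ℂ} (hζ : ζ ∈ S) :
    2 * (‖yd ψ ζ‖ * ‖Pm ψ ζ‖⁻¹) ≤ ed ψ ζ + Real.tanh (F ζ).re := by
  rw [norm_yd hζ]
  unfold ed
  have h2 : 0 < Real.sinh (F ζ).re :=
    Real.sinh_pos_iff.mpr (F_re_pos (S_sub_strip9 hζ) hζ.1)
  have h3 := Real.cosh_pos (F ζ).re
  rw [Real.tanh_eq_sinh_div_cosh]
  set s := Real.sinh (F ζ).re
  set c := Real.cosh (F ζ).re
  set D := ‖deriv ψ (G ζ)‖
  set p := ‖Pm ψ ζ‖⁻¹
  have e : D^2 * (4 * (s*c)) * p^2 + s/c - 2 * (D * (2*s) * p) = s / c * (2 * D * p * c - 1)^2 := by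
    field_simp
    ring
  have : 0 ≤ s / c * (2 * D * p * c - 1)^2 := by positivity
  linarith

lemma hasDerivAt_log_norm {y : ℝ → ℂ} {y' : ℂ} {t : ℝ} (hy : HasDerivAt y y' t) (h0 : y t ≠ 0) :
    HasDerivAt (fun t => Real.log ‖y t‖) (((y t).re * y'.re + (y t).im * y'.im) / Complex.normSq (y t)) t := by
  have hre : HasDerivAt (fun t => (y t).re) y'.re t := by
    have := (Complex.reCLM.hasFDerivAt (x := y t)).comp_hasDerivAt t hy
    exact this
  have him : HasDerivAt (fun t => (y t).im) y'.im t := by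
    have := (Complex.imCLM.hasFDerivAt (x := y t)).comp_hasDerivAt t hy
    exact this
  have hns : HasDerivAt (fun t => Complex.normSq (y t))
      ((y'.re * (y t).re + (y t).re * y'.re) + (y'.im * (y t).im + (y t).im * y'.im)) t := by
    have := (hre.mul hre).add (him.mul him)
    exact this
  have hpos : 0 < Complex.normSq (y t) := Complex.normSq_pos.mpr h0
  have h1 := (hns.log hpos.ne').const_mul (1/2 : ℝ)
  have e1 : (fun t => Real.log ‖y t‖) = fun t => 1/2 * Real.log (Complex.normSq (y t)) := by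
    funext x
    rw [Complex.normSq_eq_norm_sq, Real.log_pow]
    push_cast; ring
  rw [e1]
  have e2 : ((y t).re * y'.re + (y t).im * y'.im) / Complex.normSq (y t)
      = 1/2 * (((y'.re * (y t).re + (y t).re * y'.re) + (y'.im * (y t).im + (y t).im * y'.im))
        / Complex.normSq (y t)) := by ring
  rw [e2]
  exact h1

lemma ray_bound (hrs0 : 0 ≤ rs) (hψd : DifferentiableOn ℂ ψ Oms) (hψi : InjOn ψ Oms)
    (hψs : ψ '' Oms = {z : ℂ | rs < ‖z‖ ∧ ‖z‖ < 1}) {a b : ℝ} (ha : rs < a) (hab : a < b)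
    (hb : b < 1) {θ : ℝ} (hθ : θ ∈ Ioo (-Real.pi) Real.pi) :
    ENNReal.ofReal (Real.log (b/a)) ≤ ∫⁻ t in Ioo (0:ℝ) (1/2),
      (Rab ψ a b).indicator (fun ζ => ENNReal.ofReal (‖yd ψ ζ‖ * ‖Pm ψ ζ‖⁻¹)) (t + θ * I) := by
  have ha0 : 0 < a := hrs0.trans_lt ha
  have hmem : ∀ t ∈ Ioo (0:ℝ) (1/2), ((t:ℂ) + θ * I) ∈ S := by
    intro t ht
    exact ⟨by simpa using ht.1, by simpa using ht.2⟩
  have hmemR : ∀ t ∈ Ioo (0:ℝ) (1/2), ((t:ℂ) + θ * I) ∈ Rec := by
    intro t ht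
    exact ⟨hmem t ht, by simpa using hθ.1, by simpa using hθ.2⟩
  have hPpos : ∀ t ∈ Ioo (0:ℝ) (1/2), 0 < ‖Pm ψ (t + θ * I)‖ := fun t ht =>
    Pm_norm_pos hrs0 hψs (hmem t ht)
  have hP0 : ∀ t ∈ Ioo (0:ℝ) (1/2), Pm ψ (t + θ * I) ≠ 0 := fun t ht =>
    norm_pos_iff.mp (hPpos t ht)
  obtain ⟨t₁, ht₁, t₂, ht₂, h1, h2⟩ := ends hrs0 hψd hψi hψs ha hab hb θ
  set g : ℝ → ℝ := fun t => Real.log ‖Pm ψ (t + θ * I)‖ with hg
  set g' : ℝ → ℝ := fun t => ((Pm ψ (t + θ * I)).re * (yd ψ (t + θ * I)).re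
    + (Pm ψ (t + θ * I)).im * (yd ψ (t + θ * I)).im) / Complex.normSq (Pm ψ (t + θ * I)) with hg'
  have hcurve : Continuous (fun t : ℝ => ((t:ℂ) + θ * I)) := by fun_prop
  have hd : ∀ t ∈ Ioo (0:ℝ) (1/2), HasDerivAt g (g' t) t := by
    intro t ht
    apply hasDerivAt_log_norm (y := fun t : ℝ => Pm ψ (t + θ * I)) _ (hP0 t ht)
    have h3 : HasDerivAt (fun t : ℝ => ((t:ℂ) + θ * I)) 1 t := by
      have h0 : HasDerivAt (fun t : ℝ => (t : ℂ)) 1 t := Complex.ofRealCLM.hasDerivAt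
      exact h0.add_const _
    have h4 := (Pm_hasFDerivAt hψd (hmem t ht)).comp_hasDerivAt t h3
    rw [ContinuousLinearMap.comp_apply, mulL_apply] at h4
    exact h4
  have hcP : ContinuousOn (fun t : ℝ => Pm ψ (t + θ * I)) (Ioo (0:ℝ) (1/2)) :=
    (Pm_continuousOn hψd).comp hcurve.continuousOn hmem
  have hcY : ContinuousOn (fun t : ℝ => yd ψ (t + θ * I)) (Ioo (0:ℝ) (1/2)) :=
    (yd_continuousOn hψd).comp hcurve.continuousOn hmem
  have hg'c : ContinuousOn g' (Ioo (0:ℝ) (1/2)) := by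
    apply ContinuousOn.div
    · apply ContinuousOn.add
      · exact (Complex.continuous_re.comp_continuousOn hcP).mul (Complex.continuous_re.comp_continuousOn hcY)
      · exact (Complex.continuous_im.comp_continuousOn hcP).mul (Complex.continuous_im.comp_continuousOn hcY)
    · exact Complex.continuous_normSq.comp_continuousOn hcP
    · intro t ht; exact (Complex.normSq_pos.mpr (hP0 t ht)).ne'
  have hp : g t₁ ≤ Real.log a := Real.log_le_log (hPpos t₁ ht₁) h1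
  have hq : Real.log b ≤ g t₂ := Real.log_le_log (ha0.trans hab) h2
  have hcr := crossing_integral ht₁ ht₂ hd hg'c hp hq (Real.log_lt_log ha0 hab)
  rw [Real.log_div (ha0.trans hab).ne' ha0.ne']
  refine hcr.trans ?_
  apply setLIntegral_mono' measurableSet_Ioo
  intro t ht
  by_cases hin : Real.log a < g t ∧ g t < Real.log b
  · rw [indicator_of_mem (by exact hin)]
    have hmR : ((t:ℂ) + θ * I) ∈ Rab ψ a b := by
      refine ⟨hmemR t ht, ?_, ?_⟩
      · exact (Real.log_lt_log_iff ha0 (hPpos t ht)).mp hin.1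
      · exact (Real.log_lt_log_iff (hPpos t ht) (ha0.trans hab)).mp hin.2
    rw [indicator_of_mem hmR]
    apply ENNReal.ofReal_le_ofReal
    -- |g'| ≤ ‖yd‖ / ‖P‖
    simp only [hg']
    set p := Pm ψ (t + θ * I)
    set y := yd ψ (t + θ * I)
    have hp0 : 0 < ‖p‖ := hPpos t ht
    rw [abs_div, Complex.normSq_eq_norm_sq, abs_of_pos (by positivity : (0:ℝ) < ‖p‖^2),
      div_le_iff₀ (by positivity)]
    have e : ‖y‖ * ‖p‖⁻¹ * ‖p‖^2 = ‖y‖ * ‖p‖ := by field_simp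
    rw [e]
    have h5 : p.re * y.re + p.im * y.im = ((starRingEnd ℂ) p * y).re := by
      simp [Complex.mul_re]
    rw [h5]
    calc |((starRingEnd ℂ) p * y).re| ≤ ‖(starRingEnd ℂ) p * y‖ := Complex.abs_re_le_norm _
      _ = ‖y‖ * ‖p‖ := by rw [norm_mul, RCLike.norm_conj, mul_comm]
  · rw [indicator_of_notMem (by exact hin)]
    exact zero_le

theorem modulus_bound (hrs0 : 0 ≤ rs) (hψd : DifferentiableOn ℂ ψ Oms) (hψi : InjOn ψ Oms)
    (hψs : ψ '' Oms = {z : ℂ | rs < ‖z‖ ∧ ‖z‖ < 1}) {a b : ℝ} (ha : rs < a) (hab : a < b)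
    (hb : b < 1) :
    ENNReal.ofReal (2 * Real.pi * Real.log (b/a)) ≤ ∫⁻ ζ in Rec, ENNReal.ofReal (Real.tanh (F ζ).re) := by
  have ha0 : 0 < a := hrs0.trans_lt ha
  have hL : 0 < Real.log (b/a) := Real.log_pos (by rw [one_lt_div ha0]; exact hab)
  have hpi := Real.pi_pos
  set q : ℂ → ℝ≥0∞ := (Rab ψ a b).indicator (fun ζ => ENNReal.ofReal (‖yd ψ ζ‖ * ‖Pm ψ ζ‖⁻¹)) with hq
  have hRm := (isOpen_Rab hψd a b).measurableSet
  have hcont : ContinuousOn (fun ζ => ‖yd ψ ζ‖ * ‖Pm ψ ζ‖⁻¹) Rec := by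
    apply ContinuousOn.mul
    · exact ((yd_continuousOn hψd).mono Rec_sub_S).norm
    · apply ContinuousOn.inv₀ (((Pm_continuousOn hψd).mono Rec_sub_S).norm)
      intro ζ hζ; exact (Pm_norm_pos hrs0 hψs (Rec_sub_S hζ)).ne'
  have hqm : AEMeasurable q (volume.restrict Rec) := by
    apply AEMeasurable.indicator _ hRm
    apply AEMeasurable.ennreal_ofReal
    exact hcont.aemeasurable isOpen_Rec.measurableSet
  -- lower bound
  have hlow : ENNReal.ofReal (2 * Real.pi * Real.log (b/a)) ≤ ∫⁻ ζ in Rec, q ζ := by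
    rw [lintegral_Rec' q hqm]
    calc ENNReal.ofReal (2 * Real.pi * Real.log (b/a))
        = ∫⁻ θ in Ioo (-Real.pi) Real.pi, ENNReal.ofReal (Real.log (b/a)) := by
          rw [setLIntegral_const, Real.volume_Ioo, ← ENNReal.ofReal_mul hL.le]
          congr 1; ring
      _ ≤ _ := by
          apply setLIntegral_mono' measurableSet_Ioo
          intro θ hθ
          exact ray_bound hrs0 hψd hψi hψs ha hab hb hθ
  -- upper bound
  have hsub : Rab ψ a b ⊆ Rec := inter_subset_left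
  have hqR : ∫⁻ ζ in Rec, q ζ = ∫⁻ ζ in Rab ψ a b, ENNReal.ofReal (‖yd ψ ζ‖ * ‖Pm ψ ζ‖⁻¹) := by
    rw [hq, lintegral_indicator hRm, Measure.restrict_restrict hRm, inter_eq_left.mpr hsub]
  have hFc : ContinuousOn (fun ζ => Real.tanh (F ζ).re) Rec := by
    have h1 : ContinuousOn (fun ζ => (F ζ).re) Rec :=
      Complex.continuous_re.comp_continuousOn (F_continuousOn.mono (Rec_sub_S.trans S_sub_strip9))
    have h2 : Continuous Real.tanh := by
      have : Real.tanh = fun x => Real.sinh x / Real.cosh x := by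
        funext x; exact Real.tanh_eq_sinh_div_cosh x
      rw [this]
      exact Real.continuous_sinh.div Real.continuous_cosh (fun x => (Real.cosh_pos x).ne')
    exact h2.comp_continuousOn h1
  have hup : 2 * ∫⁻ ζ in Rec, q ζ ≤ ENNReal.ofReal (2 * Real.pi * Real.log (b/a))
      + ∫⁻ ζ in Rec, ENNReal.ofReal (Real.tanh (F ζ).re) := by
    rw [hqR, ← lintegral_const_mul' _ _ (by norm_num)]
    calc ∫⁻ ζ in Rab ψ a b, 2 * ENNReal.ofReal (‖yd ψ ζ‖ * ‖Pm ψ ζ‖⁻¹)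
        ≤ ∫⁻ ζ in Rab ψ a b, (ENNReal.ofReal (ed ψ ζ) + ENNReal.ofReal (Real.tanh (F ζ).re)) := by
          apply setLIntegral_mono' hRm
          intro ζ hζ
          have h1 := amgm (ψ := ψ) (Rec_sub_S hζ.1)
          have h2 : (2 : ℝ≥0∞) = ENNReal.ofReal 2 := by simp
          rw [h2, ← ENNReal.ofReal_mul (by norm_num)]
          exact (ENNReal.ofReal_le_ofReal h1).trans ENNReal.ofReal_add_le
      _ = (∫⁻ ζ in Rab ψ a b, ENNReal.ofReal (ed ψ ζ))
          + ∫⁻ ζ in Rab ψ a b, ENNReal.ofReal (Real.tanh (F ζ).re) := by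
          apply lintegral_add_right'
          apply AEMeasurable.ennreal_ofReal
          exact (hFc.mono hsub).aemeasurable hRm
      _ ≤ _ := by
          gcongr
          exact area_bound hψd hψi ha0 hab
  have hfin : ENNReal.ofReal (2 * Real.pi * Real.log (b/a)) ≠ ⊤ := ENNReal.ofReal_ne_top
  have h3 : ENNReal.ofReal (2 * Real.pi * Real.log (b/a)) + ENNReal.ofReal (2 * Real.pi * Real.log (b/a))
      ≤ ENNReal.ofReal (2 * Real.pi * Real.log (b/a))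
      + ∫⁻ ζ in Rec, ENNReal.ofReal (Real.tanh (F ζ).re) := by
    rw [← two_mul]
    exact (mul_le_mul_right hlow 2).trans hup
  exact (ENNReal.add_le_add_iff_left hfin).mp h3

end Pool.Agent.A78
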