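import Mathlib
import Pool.Agent.Work.MP_a78000_an.Bound

/-!
Helper file for the disproof of MP_a78000_an.
Strict inequality by Jensen and the mean value property.
-/

set_option autoImplicit false

open Complex Set Filter Topology MeasureTheory
open scoped ENNReal NNReal

namespace Pool.Agent.A78

lemma hasDerivAt_tanh (x : ℝ) : HasDerivAt Real.tanh (1 / Real.cosh x ^ 2) x := by
  have h1 := (Real.hasDerivAt_sinh x).div (Real.hasDerivAt_cosh x) (Real.cosh_pos x).ne'
  have e : (Real.cosh x * Real.cosh x - Real.sinh x * Real.sinh x) / Real.cosh x ^ 2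
      = 1 / Real.cosh x ^ 2 := by
    congr 1
    have := Real.cosh_sq x
    nlinarith
  rw [e] at h1
  have e2 : Real.tanh = fun x => Real.sinh x / Real.cosh x := by
    funext x; exact Real.tanh_eq_sinh_div_cosh x
  rw [e2]
  exact h1

lemma continuous_tanh' : Continuous Real.tanh :=
  continuous_iff_continuousAt.mpr (fun x => (hasDerivAt_tanh x).continuousAt)

lemma tanh_tangent_lt {U t : ℝ} (hU : 0 ≤ U) (ht : 0 ≤ t) (hne : U ≠ t) :
    Real.tanh U < Real.tanh t + (U - t) / Real.cosh t ^ 2 := by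
  rcases lt_or_gt_of_ne hne with h | h
  · obtain ⟨c, hc, hc2⟩ := exists_hasDerivAt_eq_slope Real.tanh (fun x => 1 / Real.cosh x ^ 2) h
      continuous_tanh'.continuousOn (fun x _ => hasDerivAt_tanh x)
    have h1 : Real.tanh t - Real.tanh U = (t - U) * (1 / Real.cosh c ^ 2) := by
      rw [hc2]; field_simp [sub_ne_zero.mpr h.ne']
    have h2 : Real.cosh c < Real.cosh t := by
      rw [Real.cosh_lt_cosh, abs_of_nonneg (hU.trans hc.1.le), abs_of_nonneg ht]; exact hc.2
    have h3 : 1 / Real.cosh t ^ 2 < 1 / Real.cosh c ^ 2 := by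
      apply one_div_lt_one_div_of_lt (by have := Real.cosh_pos c; positivity)
      exact pow_lt_pow_left₀ h2 (Real.cosh_pos c).le (by norm_num)
    have h4 : (t - U) * (1 / Real.cosh t ^ 2) < (t - U) * (1 / Real.cosh c ^ 2) :=
      mul_lt_mul_of_pos_left h3 (by linarith)
    have h5 : (U - t) / Real.cosh t ^ 2 = -((t - U) * (1 / Real.cosh t ^ 2)) := by ring
    rw [h5]; linarith
  · obtain ⟨c, hc, hc2⟩ := exists_hasDerivAt_eq_slope Real.tanh (fun x => 1 / Real.cosh x ^ 2) h
      continuous_tanh'.continuousOn (fun x _ => hasDerivAt_tanh x)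
    have h1 : Real.tanh U - Real.tanh t = (U - t) * (1 / Real.cosh c ^ 2) := by
      rw [hc2]; field_simp [sub_ne_zero.mpr h.ne']
    have h2 : Real.cosh t < Real.cosh c := by
      rw [Real.cosh_lt_cosh, abs_of_nonneg (ht.trans hc.1.le), abs_of_nonneg ht]; exact hc.1
    have h3 : 1 / Real.cosh c ^ 2 < 1 / Real.cosh t ^ 2 := by
      apply one_div_lt_one_div_of_lt (by have := Real.cosh_pos t; positivity)
      exact pow_lt_pow_left₀ h2 (Real.cosh_pos t).le (by norm_num)
    have h4 : (U - t) * (1 / Real.cosh c ^ 2) < (U - t) * (1 / Real.cosh t ^ 2) :=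
      mul_lt_mul_of_pos_left h3 (by linarith)
    have h5 : (U - t) / Real.cosh t ^ 2 = (U - t) * (1 / Real.cosh t ^ 2) := by ring
    rw [h5]; linarith

lemma tanh_tangent_le {U t : ℝ} (hU : 0 ≤ U) (ht : 0 ≤ t) :
    Real.tanh U ≤ Real.tanh t + (U - t) / Real.cosh t ^ 2 := by
  by_cases h : U = t
  · rw [h]; simp
  · exact (tanh_tangent_lt hU ht h).le

lemma mem_strip9_of {t θ : ℝ} (ht : t ∈ Icc (0:ℝ) (1/2)) : ((t:ℂ) + θ * I) ∈ strip9 := by
  have h1 : ((t:ℂ) + θ * I).re = t := by simp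
  show |((t:ℂ) + θ * I).re| < 9/10
  rw [h1, abs_of_nonneg ht.1]; linarith [ht.2]

/-- mean value property -/
lemma mean_F {t : ℝ} (ht : t ∈ Icc (0:ℝ) (1/2)) :
    ∫ θ in (-Real.pi)..Real.pi, ((F (t + θ * I)).re - t) = 0 := by
  have hdiff : DifferentiableOn ℂ (fun ζ => F ζ - ζ)
      (Set.uIcc ((0:ℂ) + (-Real.pi : ℝ) * I).re ((t:ℂ) + (Real.pi : ℝ) * I).re ×ℂ
        Set.uIcc ((0:ℂ) + (-Real.pi : ℝ) * I).im ((t:ℂ) + (Real.pi : ℝ) * I).im) := by
    apply (F_differentiableOn.sub differentiableOn_id).mono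
    intro z hz
    rw [Complex.mem_reProdIm] at hz
    have h1 := hz.1
    simp only [Complex.add_re, Complex.zero_re, Complex.mul_re, Complex.ofReal_re, Complex.I_re,
      mul_zero, Complex.ofReal_im, Complex.I_im, mul_one, sub_self, add_zero] at h1
    rw [uIcc_of_le ht.1] at h1
    show |z.re| < 9/10
    rw [abs_of_nonneg h1.1]; linarith [h1.2, ht.2]
  have key := Complex.integral_boundary_rect_eq_zero_of_differentiableOn (fun ζ => F ζ - ζ)
    ((0:ℂ) + (-Real.pi : ℝ) * I) ((t:ℂ) + (Real.pi : ℝ) * I) hdiff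
  simp only [Complex.add_re, Complex.zero_re, Complex.mul_re, Complex.ofReal_re, Complex.I_re,
      mul_zero, Complex.ofReal_im, Complex.I_im, mul_one, sub_self, add_zero, Complex.add_im,
      Complex.zero_im, Complex.mul_im, zero_add] at key
  have hper : ∀ x ∈ uIcc (0:ℝ) t, F ((x:ℂ) + (Real.pi : ℝ) * I) - ((x:ℂ) + (Real.pi : ℝ) * I)
      = F ((x:ℂ) + (-Real.pi : ℝ) * I) - ((x:ℂ) + (-Real.pi : ℝ) * I) := by
    intro x hx
    rw [uIcc_of_le ht.1] at hx
    have hm : ((x:ℂ) + (-Real.pi : ℝ) * I) ∈ strip9 := mem_strip9_of ⟨hx.1, hx.2.trans ht.2⟩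
    have e : ((x:ℂ) + (Real.pi : ℝ) * I) = ((x:ℂ) + (-Real.pi : ℝ) * I) + 2 * Real.pi * I := by
      push_cast; ring
    rw [e, F_add_two_pi_I hm]; ring
  rw [intervalIntegral.integral_congr hper, sub_self, zero_add] at key
  have key2 : ∫ y in (-Real.pi)..Real.pi, (F ((t:ℂ) + y * I) - ((t:ℂ) + y * I))
      = ∫ y in (-Real.pi)..Real.pi, (F ((0:ℝ) + y * I) - ((0:ℝ) + y * I)) := by
    have h1 := sub_eq_zero.mp key
    simpa using h1
  have hcont : ∀ s ∈ Icc (0:ℝ) (1/2), Continuous (fun y : ℝ => F ((s:ℂ) + y * I) - ((s:ℂ) + y * I)) := by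
    intro s hs
    apply Continuous.sub _ (by fun_prop)
    exact F_continuousOn.comp_continuous (by fun_prop) (fun y => mem_strip9_of hs)
  have h0 : (0:ℝ) ∈ Icc (0:ℝ) (1/2) := ⟨le_rfl, by norm_num⟩
  have e1 := intervalIntegral.intervalIntegral_re (𝕜 := ℂ) ((hcont t ht).intervalIntegrable
    (μ := volume) (-Real.pi) Real.pi)
  have e2 := intervalIntegral.intervalIntegral_re (𝕜 := ℂ) ((hcont 0 h0).intervalIntegrable
    (μ := volume) (-Real.pi) Real.pi)
  rw [key2, ← e2] at e1
  have e3 : ∀ z : ℂ, RCLike.re z = z.re := fun z => rfl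
  simp only [e3] at e1
  have e4 : ∀ θ : ℝ, (F ((t:ℂ) + θ * I) - ((t:ℂ) + θ * I)).re = (F (t + θ * I)).re - t := by
    intro θ; simp
  have e5 : ∀ θ : ℝ, (F (((0:ℝ):ℂ) + θ * I) - (((0:ℝ):ℂ) + θ * I)).re = 0 := by
    intro θ
    have := F_re_zero (mem_strip9_of (θ := θ) h0) (by simp)
    rw [Complex.sub_re, this]; simp
  simp only [e4, e5] at e1
  rw [e1]; simp

lemma slice_lt {t : ℝ} (ht : t ∈ Ioo (0:ℝ) (1/2)) :
    ∫ θ in (-Real.pi)..Real.pi, Real.tanh (F (t + θ * I)).re < 2 * Real.pi * Real.tanh t := by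
  have htc : t ∈ Icc (0:ℝ) (1/2) := Ioo_subset_Icc_self ht
  have hFc : Continuous (fun θ : ℝ => (F (t + θ * I)).re) :=
    Complex.continuous_re.comp
      (F_continuousOn.comp_continuous (by fun_prop) (fun y => mem_strip9_of htc))
  have hpi := Real.pi_pos
  have h1 : ∫ θ in (-Real.pi)..Real.pi, Real.tanh (F (t + θ * I)).re <
      ∫ θ in (-Real.pi)..Real.pi, (Real.tanh t + ((F (t + θ * I)).re - t) / Real.cosh t ^ 2) := by
    apply intervalIntegral.integral_lt_integral_of_continuousOn_of_le_of_exists_lt (by linarith)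
    · exact (continuous_tanh'.comp hFc).continuousOn
    · exact (by fun_prop : Continuous _).continuousOn
    · intro θ _
      exact tanh_tangent_le (F_re_nonneg (mem_strip9_of htc) (by simpa using htc.1)) htc.1
    · refine ⟨0, ⟨by linarith, by linarith⟩, ?_⟩
      have h2 := F_re_lt ht.1 (by linarith [ht.2] : t < 9/10)
      simp only [Complex.ofReal_zero, zero_mul, add_zero]
      apply tanh_tangent_lt _ htc.1 h2.ne
      have := F_re_nonneg (mem_strip9_of (θ := 0) htc) (by simpa using htc.1)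
      simpa using this
  have h2 : ∫ θ in (-Real.pi)..Real.pi, (Real.tanh t + ((F (t + θ * I)).re - t) / Real.cosh t ^ 2)
      = 2 * Real.pi * Real.tanh t := by
    rw [intervalIntegral.integral_add (by simp) (by
      apply Continuous.intervalIntegrable; fun_prop), intervalIntegral.integral_div, mean_F htc]
    rw [intervalIntegral.integral_const]
    simp only [smul_eq_mul, zero_div, add_zero]
    ring
  linarith

lemma tanh_nonneg {x : ℝ} (hx : 0 ≤ x) : 0 ≤ Real.tanh x := by
  rw [Real.tanh_eq_sinh_div_cosh]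
  exact div_nonneg (Real.sinh_nonneg_iff.mpr hx) (Real.cosh_pos x).le

lemma outer_integral : ∫⁻ t in Ioo (0:ℝ) (1/2), ENNReal.ofReal (2 * Real.pi * Real.tanh t)
    = ENNReal.ofReal (2 * Real.pi * Real.log (Real.cosh (1/2))) := by
  have hint : IntervalIntegrable (fun t => 2 * Real.pi * Real.tanh t) volume 0 (1/2) := by
    apply Continuous.intervalIntegrable
    exact continuous_const.mul continuous_tanh'
  have hftc : ∫ t in (0:ℝ)..(1/2), 2 * Real.pi * Real.tanh t = 2 * Real.pi * Real.log (Real.cosh (1/2)) := by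
    have hd : ∀ t ∈ uIcc (0:ℝ) (1/2), HasDerivAt (fun t => 2 * Real.pi * Real.log (Real.cosh t))
        (2 * Real.pi * Real.tanh t) t := by
      intro t _
      have h1 := ((Real.hasDerivAt_cosh t).log (Real.cosh_pos t).ne').const_mul (2 * Real.pi)
      rw [← Real.tanh_eq_sinh_div_cosh] at h1
      exact h1
    rw [intervalIntegral.integral_eq_sub_of_hasDerivAt hd hint]
    simp
  rw [← hftc, intervalIntegral.integral_of_le (by norm_num), integral_Ioc_eq_integral_Ioo,
    ofReal_integral_eq_lintegral_ofReal]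
  · exact (hint.1).mono_set Ioo_subset_Ioc_self
  · rw [Filter.EventuallyLE, ae_restrict_iff' measurableSet_Ioo]
    apply Filter.Eventually.of_forall
    intro t ht
    have := tanh_nonneg ht.1.le
    have := Real.pi_pos
    simp only [Pi.zero_apply]
    positivity

theorem total_lt : ∫⁻ ζ in Rec, ENNReal.ofReal (Real.tanh (F ζ).re)
    < ENNReal.ofReal (2 * Real.pi * Real.log (Real.cosh (1/2))) := by
  have hFc : ContinuousOn (fun ζ => Real.tanh (F ζ).re) Rec := by
    have h1 : ContinuousOn (fun ζ => (F ζ).re) Rec :=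
      Complex.continuous_re.comp_continuousOn (F_continuousOn.mono (Rec_sub_S.trans S_sub_strip9))
    exact continuous_tanh'.comp_continuousOn h1
  rw [lintegral_Rec _ ((hFc.aemeasurable isOpen_Rec.measurableSet).ennreal_ofReal)]
  rw [← outer_integral]
  have hlt : ∀ t ∈ Ioo (0:ℝ) (1/2), ∫⁻ θ in Ioo (-Real.pi) Real.pi,
      ENNReal.ofReal (Real.tanh (F (t + θ * I)).re) < ENNReal.ofReal (2 * Real.pi * Real.tanh t) := by
    intro t ht
    have htc : t ∈ Icc (0:ℝ) (1/2) := Ioo_subset_Icc_self ht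
    have hFc : Continuous (fun θ : ℝ => Real.tanh (F (t + θ * I)).re) :=
      continuous_tanh'.comp (Complex.continuous_re.comp
        (F_continuousOn.comp_continuous (by fun_prop) (fun y => mem_strip9_of htc)))
    have hpi := Real.pi_pos
    have hii : IntervalIntegrable (fun θ : ℝ => Real.tanh (F (t + θ * I)).re) volume
      (-Real.pi) Real.pi := hFc.intervalIntegrable _ _
    have h1 : ∫⁻ θ in Ioo (-Real.pi) Real.pi, ENNReal.ofReal (Real.tanh (F (t + θ * I)).re)
        = ENNReal.ofReal (∫ θ in (-Real.pi)..Real.pi, Real.tanh (F (t + θ * I)).re) := by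
      rw [intervalIntegral.integral_of_le (by linarith), integral_Ioc_eq_integral_Ioo,
        ofReal_integral_eq_lintegral_ofReal]
      · exact (hii.1).mono_set Ioo_subset_Ioc_self
      · apply Filter.Eventually.of_forall
        intro θ
        exact tanh_nonneg (F_re_nonneg (mem_strip9_of htc) (by simpa using htc.1))
    rw [h1]
    apply (ENNReal.ofReal_lt_ofReal_iff _).mpr (slice_lt ht)
    have h2 : 0 < Real.tanh t := by
      rw [Real.tanh_eq_sinh_div_cosh]
      exact div_pos (Real.sinh_pos_iff.mpr ht.1) (Real.cosh_pos t)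
    positivity
  apply lintegral_strict_mono
  · intro h
    have h1 : (volume.restrict (Ioo (0:ℝ) (1/2))) univ = 0 := by rw [h]; simp
    rw [Measure.restrict_apply_univ, Real.volume_Ioo] at h1
    simp at h1
  · apply AEMeasurable.ennreal_ofReal
    exact (continuous_const.mul continuous_tanh').aemeasurable
  · apply ne_of_lt
    calc ∫⁻ t in Ioo (0:ℝ) (1/2), ∫⁻ θ in Ioo (-Real.pi) Real.pi,
          ENNReal.ofReal (Real.tanh (F (t + θ * I)).re)
        ≤ ∫⁻ t in Ioo (0:ℝ) (1/2), ENNReal.ofReal (2 * Real.pi * Real.tanh t) :=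
          setLIntegral_mono' measurableSet_Ioo (fun t ht => (hlt t ht).le)
      _ = ENNReal.ofReal (2 * Real.pi * Real.log (Real.cosh (1/2))) := outer_integral
      _ < ⊤ := ENNReal.ofReal_lt_top
  · rw [ae_restrict_iff' measurableSet_Ioo]
    exact Filter.Eventually.of_forall hlt

/-- upper bound for the modulus of `Oms` -/
theorem modulus_lt {rs : ℝ} {ψ : ℂ → ℂ} (hrs0 : 0 ≤ rs) (hrs1 : rs < 1)
    (hψd : DifferentiableOn ℂ ψ Oms) (hψi : InjOn ψ Oms)
    (hψs : ψ '' Oms = {z : ℂ | rs < ‖z‖ ∧ ‖z‖ < 1}) :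
    0 < rs ∧ -Real.log rs < Real.log (Real.cosh (1/2)) := by
  have htot := total_lt
  set T := ∫⁻ ζ in Rec, ENNReal.ofReal (Real.tanh (F ζ).re) with hT
  have hTfin : T ≠ ⊤ := (htot.trans ENNReal.ofReal_lt_top).ne
  set τ := T.toReal / (2 * Real.pi) with hτ
  have hpi := Real.pi_pos
  have hTτ : T = ENNReal.ofReal (2 * Real.pi * τ) := by
    rw [hτ, mul_div_cancel₀ _ (by positivity : (2 * Real.pi) ≠ 0), ENNReal.ofReal_toReal hTfin]
  have hlogpos : 0 < Real.log (Real.cosh (1/2)) := by
    apply Real.log_pos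
    rw [Real.one_lt_cosh]; norm_num
  have hτlt : τ < Real.log (Real.cosh (1/2)) := by
    rw [hTτ] at htot
    have := (ENNReal.ofReal_lt_ofReal_iff (by positivity)).mp htot
    exact lt_of_mul_lt_mul_left this (by positivity)
  have hτ0 : 0 ≤ τ := by rw [hτ]; positivity
  have hab : ∀ a b : ℝ, rs < a → a < b → b < 1 → Real.log (b/a) ≤ τ := by
    intro a b ha hab hb
    have h1 := modulus_bound hrs0 hψd hψi hψs ha hab hb
    rw [← hT, hTτ] at h1
    have h2 := (ENNReal.ofReal_le_ofReal_iff (by positivity)).mp h1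
    exact le_of_mul_le_mul_left h2 (by positivity)
  -- for every `a ∈ (rs, 1)`, `-log a ≤ τ`
  have ha : ∀ a : ℝ, rs < a → a < 1 → -Real.log a ≤ τ := by
    intro a ha1 ha2
    have ha0 : 0 < a := hrs0.trans_lt ha1
    have hlim : Tendsto (fun b : ℝ => Real.log (b/a)) (𝓝[<] 1) (𝓝 (Real.log (1/a))) := by
      have : ContinuousAt (fun b : ℝ => Real.log (b/a)) 1 := by
        apply ContinuousAt.log (by fun_prop)
        positivity
      exact this.tendsto.mono_left nhdsWithin_le_nhds
    have : Real.log (1/a) ≤ τ := by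
      apply le_of_tendsto hlim
      filter_upwards [Ioo_mem_nhdsLT ha2] with b hb
      exact hab a b ha1 hb.1 hb.2
    rwa [one_div, Real.log_inv] at this
  have hrspos : 0 < rs := by
    by_contra hcon
    have hrs : rs = 0 := le_antisymm (not_lt.mp hcon) hrs0
    have h1 : Real.exp (-(τ + 1)) < 1 := by rw [Real.exp_lt_one_iff]; linarith
    have h2 := ha (Real.exp (-(τ+1))) (by rw [hrs]; exact Real.exp_pos _) h1
    rw [Real.log_exp] at h2
    linarith
  refine ⟨hrspos, lt_of_le_of_lt ?_ hτlt⟩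
  have hlim : Tendsto (fun a : ℝ => -Real.log a) (𝓝[>] rs) (𝓝 (-Real.log rs)) := by
    have : ContinuousAt (fun a : ℝ => -Real.log a) rs := (Real.continuousAt_log hrspos.ne').neg
    exact this.tendsto.mono_left nhdsWithin_le_nhds
  apply le_of_tendsto hlim
  filter_upwards [Ioo_mem_nhdsGT hrs1] with a ha'
  exact ha a ha'.1 ha'.2

end Pool.Agent.A78
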