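import Mathlib
import Pool.Agent.Work.MP_a78000_an.SobD
import Pool.Agent.Work.MP_a78000_an.Strict
import Pool.Agent.Work.MP_a78000_an.Cover

/-!
Helper file for the Sobolev version of the disproof of MP_a78000_an.
Smoothness of `h` and of its inverse; the classical gradient of a `C¹` function is a weak gradient;
the two moduli.
-/

set_option autoImplicit false

open Complex Set Filter Topology MeasureTheory Metric
open scoped ENNReal NNReal ContDiff

namespace Pool.Agent.A78

/-- `h` is smooth of every order -/
lemma h_contDiffAt_n (n : WithTop ℕ∞) {z : ℂ} (hz : z ∈ Om) : ContDiffAt ℝ n h z := by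
  have hz0 := ne_zero_of_mem_Om hz
  have hF : ContDiffOn ℂ n F strip9 := F_differentiableOn.contDiffOn isOpen_strip9
  have hfH : ContDiff ℂ n fH := by unfold fH; fun_prop
  have hgH : ContDiff ℂ n gH := by unfold gH; fun_prop
  have hG : ContDiffOn ℝ n G strip9 := by
    have h1 : ContDiffOn ℝ n (fun ζ => fH (F ζ)) strip9 :=
      (hfH.comp_contDiffOn hF).restrict_scalars ℝ
    have h2 : ContDiffOn ℝ n (fun ζ => gH (F ζ)) strip9 :=
      (hgH.comp_contDiffOn hF).restrict_scalars ℝ
    have h3 : ContDiffOn ℝ n (fun ζ => (starRingEnd ℂ) (gH (F ζ))) strip9 :=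
      Complex.conjCLE.contDiff.comp_contDiffOn h2
    exact h1.add h3
  have e : Complex.log (z / z) + Complex.log z = Complex.log z := by rw [div_self hz0]; simp
  have h1 : ContDiffAt ℂ n (fun w => Complex.log (w / z) + Complex.log z) z := by
    have h0 : ContDiffAt ℂ n Complex.log (z / z) :=
      Complex.contDiffAt_log (by rw [div_self hz0]; simp)
    have h00 : ContDiffAt ℂ n (fun w : ℂ => w / z) z := contDiffAt_id.div_const z
    exact (ContDiffAt.comp (g := Complex.log) (f := fun w : ℂ => w / z) z h0 h00).add
      contDiffAt_const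
  have h2 : ContDiffAt ℝ n G (Complex.log (z / z) + Complex.log z) := by
    rw [e]; exact hG.contDiffAt (isOpen_strip9.mem_nhds (S_sub_strip9 (log_mem_S hz)))
  exact (ContDiffAt.comp (g := G) (f := fun w => Complex.log (w / z) + Complex.log z)
    z h2 (h1.restrict_scalars ℝ)).congr_of_eventuallyEq (h_local hz)

/-- general inverse function lemma, any order of smoothness -/
lemma inv_contDiffOn_n {n : WithTop ℕ∞} (hn : 1 ≤ n) {Ω : Set ℂ} {f : ℂ → ℂ} (hΩ : IsOpen Ω)
    (hinj : InjOn f Ω) (hc : ∀ z ∈ Ω, ContDiffAt ℝ n f z)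
    (hd : ∀ z ∈ Ω, (fderiv ℝ f z).det ≠ 0) :
    ContDiffOn ℝ n (Function.invFunOn f Ω) (f '' Ω) := by
  have hn0 : n ≠ 0 := fun h => by rw [h] at hn; simp at hn
  rintro _ ⟨z, hz, rfl⟩
  apply ContDiffAt.contDiffWithinAt
  have hcz := hc z hz
  let e : ℂ ≃L[ℝ] ℂ := (fderiv ℝ f z).toContinuousLinearEquivOfDetNeZero (hd z hz)
  have hfd : HasFDerivAt f (e : ℂ →L[ℝ] ℂ) z := by
    have : (e : ℂ →L[ℝ] ℂ) = fderiv ℝ f z :=
      ContinuousLinearMap.coe_toContinuousLinearEquivOfDetNeZero _ _
    rw [this]
    exact (hcz.differentiableAt hn0).hasFDerivAt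
  have hs : HasStrictFDerivAt f (e : ℂ →L[ℝ] ℂ) z := hcz.hasStrictFDerivAt' hfd hn0
  have hloc := hcz.to_localInverse hfd hn0
  refine hloc.congr_of_eventuallyEq ?_
  have h1 := hs.eventually_right_inverse
  have h2 : ∀ᶠ w in 𝓝 (f z), hs.localInverse f e z w ∈ Ω :=
    hs.localInverse_tendsto (hΩ.mem_nhds hz)
  filter_upwards [h1, h2] with w hw1 hw2
  have hex : ∃ a ∈ Ω, f a = w := ⟨_, hw2, hw1⟩
  apply hinj (Function.invFunOn_mem hex) hw2
  rw [Function.invFunOn_eq hex]
  exact hw1.symm

lemma h_inv_contDiffOn_n {n : WithTop ℕ∞} (hn : 1 ≤ n) :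
    ContDiffOn ℝ n (Function.invFunOn h Om) Oms := by
  apply inv_contDiffOn_n hn isOpen_Om h_injOn (fun z hz => h_contDiffAt_n n hz)
  intro z hz
  rw [(h_hasFDerivAt hz).fderiv]
  exact (Dh_det_pos hz).ne'

/-- the classical gradient of a `C¹` function is a weak gradient -/
lemma weakGrad_of_contDiffOn {Ω : Set ℂ} (hΩ : IsOpen Ω) {f : ℂ → ℂ} (hf : ContDiffOn ℝ 1 f Ω) :
    WeakGrad Ω f (fun z => fderiv ℝ f z 1) (fun z => fderiv ℝ f z I) := by
  intro φ hφ hφc hφt
  have key : ∀ v : ℂ, ∫ w in Ω, (fderiv ℝ φ w v) • f w = -∫ w in Ω, φ w • fderiv ℝ f w v := by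
    intro v
    have hT : IsCompact (tsupport φ) := hφc
    have ha : Integrable (fun w => fderiv ℝ φ w v • f w) := by
      have hs : Function.support (fun w => fderiv ℝ φ w v • f w) ⊆ tsupport φ := by
        intro w hw
        apply support_fderiv_subset ℝ (f := φ)
        intro h0
        apply hw
        show fderiv ℝ φ w v • f w = 0
        rw [h0]; simp
      rw [← integrableOn_iff_integrable_of_support_subset hs]
      apply ContinuousOn.integrableOn_compact hT
      have h1 : ContinuousOn (fun w => fderiv ℝ φ w v) (tsupport φ) :=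
        ((hφ.continuous_fderiv (by simp)).clm_apply continuous_const).continuousOn
      exact h1.smul (hf.continuousOn.mono hφt)
    have hb : Integrable (fun w => φ w • fderiv ℝ f w v) := by
      have hs : Function.support (fun w => φ w • fderiv ℝ f w v) ⊆ tsupport φ := by
        intro w hw
        apply subset_tsupport
        intro h0
        apply hw
        show φ w • fderiv ℝ f w v = 0
        rw [h0]; simp
      rw [← integrableOn_iff_integrable_of_support_subset hs]
      apply ContinuousOn.integrableOn_compact hT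
      exact hφ.continuous.continuousOn.smul
        (((hf.continuousOn_fderiv_of_isOpen hΩ le_rfl).clm_apply continuousOn_const).mono hφt)
    have hc : Integrable (fun w => φ w • f w) := by
      have hs : Function.support (fun w => φ w • f w) ⊆ tsupport φ := by
        intro w hw
        apply subset_tsupport
        intro h0
        apply hw
        show φ w • f w = 0
        rw [h0]; simp
      rw [← integrableOn_iff_integrable_of_support_subset hs]
      apply ContinuousOn.integrableOn_compact hT
      exact hφ.continuous.continuousOn.smul (hf.continuousOn.mono hφt)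
    have h1 := integral_smul_fderiv_eq_neg_fderiv_smul_of_integrable ha hb hc
      (fun x _ => hφ.differentiable (by simp) x)
      (fun x hx => (hf.contDiffAt (hΩ.mem_nhds (hφt hx))).differentiableAt (by simp))
    rw [setIntegral_eq_integral_of_forall_compl_eq_zero, setIntegral_eq_integral_of_forall_compl_eq_zero,
      h1, neg_neg]
    · intro w hw
      have : w ∉ tsupport φ := fun h => hw (hφt h)
      rw [image_eq_zero_of_notMem_tsupport this]; simp
    · intro w hw
      have h2 : w ∉ tsupport φ := fun h => hw (hφt h)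
      have h3 : fderiv ℝ φ w = 0 := by
        by_contra h4
        exact h2 (support_fderiv_subset ℝ h4)
      rw [h3]; simp
  exact ⟨key 1, key I⟩

end Pool.Agent.A78
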